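import Pool.Agent.H29.NS.Grp

/-!
# [H29 NS Gra] the action on the atoms

PROOFS. `ga` acts through the points (`map_mul`, `Equiv.Perm.mul_apply`, `map_one`); an atom `y = ga h x` in the orbit of `x` has the points `act h p`, `p ∈ pts x`:
`ga_cl` is `act_cl` for every point, `ga_rp`: `ga_cl` for `rp (cl g)` and `g` (`cl_rp`); `ga_ml`: `ga_mul`, and `σ * rp q` and `rp (ml σ q)` have the same class (`cl_ml`, `cl_rp`).
`K_mono`: clear. `K_le`: for `p' = act g p` and `h`: `act h p' = act (h * g) p`. `res_cl`: componentwise `rfl` (`Subgroup.quotientMapOfLE`), `cl_out`: `res_cl` for `g = rp q` and `cl_rp`.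
`ga_res`: both elements have the same class for `pts x` (`cl_rp`, `cl_out`), `ga_cl` with `orb_self`.
-/

set_option autoImplicit false

open Set

namespace Pool.Agent.H29.NS

open Pool.Agent.H42.CS

variable {Rel : ℕ → Type} {P : Type} {m : ℕ} (D : Pd P m)

private theorem gra_out {o o' : Set P} (h : ∀ l, D.K o l ≤ D.K o' l) (q : D.Q o) :
    D.cl o' (D.rp q) = D.res h q := by
  have h1 : D.res h (D.cl o (D.rp q)) = D.cl o' (D.rp q) := rfl
  rw [← h1, cl_rp]

theorem ga_mul (g h : ∀ l, D.G l) (x : Atom Rel P) : D.ga (g * h) x = D.ga g (D.ga h x) := by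
  show (⟨x.1, x.2.1, fun i => D.act (g * h) (x.2.2 i)⟩ : Atom Rel P) =
    ⟨x.1, x.2.1, fun i => D.act g (D.act h (x.2.2 i))⟩
  rw [map_mul]
  rfl

theorem ga_one (x : Atom Rel P) : D.ga 1 x = x := by
  show (⟨x.1, x.2.1, fun i => D.act 1 (x.2.2 i)⟩ : Atom Rel P) = x
  rw [map_one]
  rfl

theorem orb_self (x : Atom Rel P) : D.Orb x x := by
  exact ⟨1, (ga_one D x).symm⟩

theorem orb_ga {x y : Atom Rel P} (h : D.Orb x y) (g : ∀ l, D.G l) : D.Orb x (D.ga g y) := by
  obtain ⟨k, rfl⟩ := h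
  exact ⟨g * k, (ga_mul D g k x).symm⟩

theorem ga_cl {x y : Atom Rel P} (hy : D.Orb x y) {g g' : ∀ l, D.G l}
    (h : D.cl (pts x) g = D.cl (pts x) g') : D.ga g y = D.ga g' y := by
  obtain ⟨k, rfl⟩ := hy
  have h1 : (fun i => D.act g (D.act k (x.2.2 i))) = fun i => D.act g' (D.act k (x.2.2 i)) :=
    funext fun i => act_cl D h (mem_range_self i) k
  show (⟨x.1, x.2.1, fun i => D.act g (D.act k (x.2.2 i))⟩ : Atom Rel P) =
    ⟨x.1, x.2.1, fun i => D.act g' (D.act k (x.2.2 i))⟩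
  rw [h1]

theorem ga_rp {x y : Atom Rel P} (hy : D.Orb x y) (g : ∀ l, D.G l) :
    D.ga (D.rp (D.cl (pts x) g)) y = D.ga g y := by
  exact ga_cl D hy (cl_rp D _)

theorem ga_ml {x y : Atom Rel P} (hy : D.Orb x y) (σ : ∀ l, D.G l) (q : D.Q (pts x)) :
    D.ga σ (D.ga (D.rp q) y) = D.ga (D.rp (D.ml σ q)) y := by
  rw [← ga_mul]
  refine ga_cl D hy ?_
  rw [← cl_ml, cl_rp, cl_rp]

theorem K_mono {o o' : Set P} (h : o ⊆ o') (l : Fin m) : D.K o' l ≤ D.K o l := by
  exact fun x hx p hp g => hx p (h hp) g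

/-- `K` depends only on the orbits of the points -/
theorem K_le {o o' : Set P} (h : ∀ p' ∈ o', ∃ p ∈ o, ∃ g, p' = D.act g p) (l : Fin m) :
    D.K o l ≤ D.K o' l := by
  intro x hx p' hp' g'
  obtain ⟨p, hp, g, rfl⟩ := h p' hp'
  have h1 := hx p hp (g' * g)
  rw [map_mul, Equiv.Perm.mul_apply] at h1
  exact h1

/-- an atom with all its points in orbits of points of `o` -/
theorem ga_res {o : Set P} {x : Atom Rel P} (h : ∀ l, D.K o l ≤ D.K (pts x) l) (q : D.Q o) :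
    D.ga (D.rp (D.res h q)) x = D.ga (D.rp q) x := by
  refine ga_cl D (orb_self D x) ?_
  rw [cl_rp]
  exact (gra_out D h q).symm

theorem res_cl {o o' : Set P} (h : ∀ l, D.K o l ≤ D.K o' l) (g : ∀ l, D.G l) :
    D.res h (D.cl o g) = D.cl o' g := by
  rfl

theorem cl_out {o o' : Set P} (h : ∀ l, D.K o l ≤ D.K o' l) (q : D.Q o) :
    D.cl o' (D.rp q) = D.res h q := by
  rw [← res_cl D h (D.rp q), cl_rp]

end Pool.Agent.H29.NS
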