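import Pool.Agent.H29.NS.Cir
import Pool.Agent.H29.NS.Gra
import Pool.Agent.H42.CS.Sym

/-!
# [H29 NS Act] the action on the circuit of the gadget

`an g` acts on the names, `ac g` on the nodes. PROOFS.
`an_one`, `an_mul`: by cases; `ga_one`, `ga_mul`; `D.ml 1 q = q`, `D.ml (g * h) q = D.ml g (D.ml h q)` (componentwise `one_smul`, `mul_smul`; `Pi.mul_apply`), `map_one`, `map_mul` for the points of `W0`.
`an_good`: for `V`, `x = a s`: `h.st`; the other cases are clear (`cv` and `W` are fixed); the converse by `an g⁻¹` (`an_mul`, `an_one`). `mk_an`: `mk_good`, `mk_bad` with `an_good` (`an g tt = tt`).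
`gt_an`: by cases on the name (and on the index `s` of `be`, `r` of `Y`, `j` of `E`). `V`: `rfl`. `be (s+1)`: both members, `g l • (x : quotient) = ((g l * x : G l) : quotient)` (`rfl`, or `MulAction.Quotient.smul_mk`). `bb`: the set of the `x` in the class `g l • y` is the image of the class `y` under `x ↦ g l * x`.
`Y`: the components of `D.ml g q` are `g l • q l`. `E 0`, `E (j+1)`: the image of a pair. `U`, `K`: for `D.Orb (a s) (a j)`: `ga_ml` (`D.ga g (D.ga (D.rp q) (a j)) = D.ga (D.rp (D.ml g q)) (a j)`); otherwise both sets are empty. `b`, `ZY`, `ZE`, `Dn`: `q ↦ D.ml g q` is a bijection (inverse `D.ml g⁻¹`). `Zx`: `x ↦ g l * x` is a bijection.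
`cv`: the members `b s s` are fixed. `W`: the members are fixed. `W0`: the instance of `A` at `fun i => D.act g (v i)` is the image of the instance at `v` (literals: `rfl`; existential part: the point `y` is `D.act g y'`; `snoc_map` in `H42/CS/Sym.lean` (copy it)).
`gate_ac`: `x = ⟨y, hy⟩ = mk y`: `(cir h).gate (mk (an g y)) = (gt (an g y)).map id mk = ((gt y).map (D.act g) (an g)).map id mk` and `= ((gt y).map id mk).map (D.act g) (ac g)` (`mk_an`; a private lemma on `Gate.map` of `Gate.map` by cases, see `gate_map_map` in `H42/CS/Sym.lean`).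
-/

set_option autoImplicit false

open Set

namespace Pool.Agent.H29.NS

open Pool.Agent.H42.CS

variable {Rel : ℕ → Type} {P : Type} {m : ℕ}

/-- the action on the names -/
def an (D : Pd P m) {a : ℕ → Atom Rel P} (g : ∀ l, D.G l) : Nod D a → Nod D a
  | .tt => .tt
  | .V x => .V (D.ga g x)
  | .be s l x => .be s l (g l * x)
  | .bb s o l y => .bb s o l (g l • y)
  | .Y s o r q => .Y s o r (D.ml g q)
  | .E s j q => .E s j (D.ml g q)
  | .U s j q => .U s j (D.ml g q)
  | .b s j => .b s j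
  | .K s j q => .K s j (D.ml g q)
  | .Dn s l y => .Dn s l (g l • y)
  | .Zx s l => .Zx s l
  | .ZY s o r => .ZY s o r
  | .ZE s j => .ZE s j
  | .cv x => .cv x
  | .W A v => .W A v
  | .W0 A v => .W0 A (fun i => D.act g (v i))

private theorem ml_one (D : Pd P m) {o : Set P} (q : D.Q o) : D.ml 1 q = q :=
  funext fun l => one_smul (D.G l) (q l)

private theorem ml_mul (D : Pd P m) {o : Set P} (g h : ∀ l, D.G l) (q : D.Q o) : D.ml (g * h) q = D.ml g (D.ml h q) :=
  funext fun l => mul_smul (g l) (h l) (q l)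

private theorem ml_inv (D : Pd P m) {o : Set P} (g : ∀ l, D.G l) (q : D.Q o) : D.ml g (D.ml g⁻¹ q) = q := by
  rw [← ml_mul, mul_inv_cancel, ml_one]

theorem an_one (D : Pd P m) {a : ℕ → Atom Rel P} (x : Nod D a) : an D 1 x = x := by
  cases x with
  | tt => rfl
  | V x => exact congrArg Nod.V (ga_one D x)
  | be s l x => exact congrArg (Nod.be s l) (one_mul x)
  | bb s o l y => exact congrArg (Nod.bb s o l) (one_smul (D.G l) y)
  | Y s o r q => exact congrArg (Nod.Y s o r) (ml_one D q)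
  | E s j q => exact congrArg (Nod.E s j) (ml_one D q)
  | U s j q => exact congrArg (Nod.U s j) (ml_one D q)
  | b s j => rfl
  | K s j q => exact congrArg (Nod.K s j) (ml_one D q)
  | Dn s l y => exact congrArg (Nod.Dn s l) (one_smul (D.G l) y)
  | Zx s l => rfl
  | ZY s o r => rfl
  | ZE s j => rfl
  | cv x => rfl
  | W A v => rfl
  | W0 A v =>
    have h1 : (fun i => D.act 1 (v i)) = v := by
      rw [map_one]
      rfl
    exact congrArg (Nod.W0 A) h1

theorem an_mul (D : Pd P m) {a : ℕ → Atom Rel P} (g h : ∀ l, D.G l) (x : Nod D a) :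
    an D (g * h) x = an D g (an D h x) := by
  cases x with
  | tt => rfl
  | V x => exact congrArg Nod.V (ga_mul D g h x)
  | be s l x => exact congrArg (Nod.be s l) (mul_assoc (g l) (h l) x)
  | bb s o l y => exact congrArg (Nod.bb s o l) (mul_smul (g l) (h l) y)
  | Y s o r q => exact congrArg (Nod.Y s o r) (ml_mul D g h q)
  | E s j q => exact congrArg (Nod.E s j) (ml_mul D g h q)
  | U s j q => exact congrArg (Nod.U s j) (ml_mul D g h q)
  | b s j => rfl
  | K s j q => exact congrArg (Nod.K s j) (ml_mul D g h q)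
  | Dn s l y => exact congrArg (Nod.Dn s l) (mul_smul (g l) (h l) y)
  | Zx s l => rfl
  | ZY s o r => rfl
  | ZE s j => rfl
  | cv x => rfl
  | W A v => rfl
  | W0 A v =>
    have h1 : (fun i => D.act (g * h) (v i)) = fun i => D.act g (D.act h (v i)) := by
      rw [map_mul]
      rfl
    exact congrArg (Nod.W0 A) h1

theorem an_good {T : Set (Ax Rel)} {D : Pd P m} {L k : ℕ} {a : ℕ → Atom Rel P} (h : Dat T D L k a)
    (g : ∀ l, D.G l) (x : Nod D a) : Good T D L k a (an D g x) ↔ Good T D L k a x := by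
  cases x with
  | tt => exact Iff.rfl
  | V x =>
    constructor
    · rintro ⟨s, hs, he⟩
      obtain ⟨s', hs', he'⟩ := h.st s hs g⁻¹
      refine ⟨s', hs', ?_⟩
      rw [← he', ← he, ← ga_mul, inv_mul_cancel, ga_one]
    · rintro ⟨s, hs, he⟩
      obtain ⟨s', hs', he'⟩ := h.st s hs g
      refine ⟨s', hs', ?_⟩
      rw [← he', ← he]
  | be s l x => exact Iff.rfl
  | bb s o l y => exact Iff.rfl
  | Y s o r q => exact Iff.rfl
  | E s j q => exact Iff.rfl
  | U s j q => exact Iff.rfl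
  | b s j => exact Iff.rfl
  | K s j q => exact Iff.rfl
  | Dn s l y => exact Iff.rfl
  | Zx s l => exact Iff.rfl
  | ZY s o r => exact Iff.rfl
  | ZE s j => exact Iff.rfl
  | cv x => exact Iff.rfl
  | W A v => exact Iff.rfl
  | W0 A v => exact Iff.rfl

theorem mk_an {T : Set (Ax Rel)} {D : Pd P m} {L k : ℕ} {a : ℕ → Atom Rel P} (h : Dat T D L k a)
    (g : ∀ l, D.G l) (x : Nod D a) : (mk T D L k a (an D g x)).1 = an D g (mk T D L k a x).1 := by
  by_cases hx : Good T D L k a x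
  · rw [mk_good hx, mk_good ((an_good h g x).2 hx)]
  · rw [mk_bad hx, mk_bad fun h1 => hx ((an_good h g x).1 h1)]
    rfl

/-- the action on the nodes -/
noncomputable def ac {T : Set (Ax Rel)} {D : Pd P m} {L k : ℕ} {a : ℕ → Atom Rel P} (h : Dat T D L k a) :
    (∀ l, D.G l) →* Equiv.Perm (cir h).N where
  toFun g :=
    { toFun := fun x => (⟨an D g x.1, (an_good h g x.1).2 x.2⟩ : Gn T D L k a)
      invFun := fun x => (⟨an D g⁻¹ x.1, (an_good h g⁻¹ x.1).2 x.2⟩ : Gn T D L k a)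
      left_inv := fun x => Subtype.ext (by
        show an D g⁻¹ (an D g x.1) = x.1
        rw [← an_mul, inv_mul_cancel, an_one])
      right_inv := fun x => Subtype.ext (by
        show an D g (an D g⁻¹ x.1) = x.1
        rw [← an_mul, mul_inv_cancel, an_one]) }
  map_one' := Equiv.ext fun x => Subtype.ext (an_one D x.1)
  map_mul' g g' := Equiv.ext fun x => Subtype.ext (an_mul D g g' x.1)

private theorem and_map {N N' : Type} (f : P → P) (φ : N → N') {S : Set (Lit N)} {S' : Set (Lit N')}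
    (h : S' = Lit.map φ '' S) : (Gate.and S' : Gate (Atom Rel P) N') = (Gate.and S).map f φ := by
  rw [h]
  rfl

private theorem snoc_map {k : ℕ} (σ : P → P) (v : Fin k → P) (y : P) (i : Fin (k + 1)) :
    (Fin.snoc (fun i => σ (v i)) (σ y) : Fin (k + 1) → P) i = σ ((Fin.snoc v y : Fin (k + 1) → P) i) := by
  refine Fin.lastCases ?_ (fun j => ?_) i
  · rw [Fin.snoc_last, Fin.snoc_last]
  · rw [Fin.snoc_castSucc, Fin.snoc_castSucc]

private theorem inst_ga (D : Pd P m) (g : ∀ l, D.G l) (A : Ax Rel) (v : Fin A.k → P) (x' : Atom Rel P × Bool) :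
    x' ∈ A.inst (fun i => D.act g (v i)) ↔ ∃ x ∈ A.inst v, x' = (D.ga g x.1, x.2) := by
  constructor
  · rintro (⟨l, hl, rfl⟩ | ⟨l, hl, y, rfl⟩)
    · exact ⟨_, Or.inl ⟨l, hl, rfl⟩, rfl⟩
    · refine ⟨_, Or.inr ⟨l, hl, (D.act g).symm y, rfl⟩, ?_⟩
      have h1 : (fun i => (Fin.snoc (fun i => D.act g (v i)) y : Fin (A.k + 1) → P) (l.2.2 i)) =
          fun i => D.act g ((Fin.snoc v ((D.act g).symm y) : Fin (A.k + 1) → P) (l.2.2 i)) := by
        funext i
        rw [← snoc_map (⇑(D.act g)) v ((D.act g).symm y) (l.2.2 i), Equiv.apply_symm_apply]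
      rw [h1]
      rfl
  · rintro ⟨x, ⟨l, hl, rfl⟩ | ⟨l, hl, y, rfl⟩, rfl⟩
    · exact Or.inl ⟨l, hl, rfl⟩
    · refine Or.inr ⟨l, hl, D.act g y, ?_⟩
      have h1 : (fun i => (Fin.snoc (fun i => D.act g (v i)) (D.act g y) : Fin (A.k + 1) → P) (l.2.2 i)) =
          fun i => D.act g ((Fin.snoc v y : Fin (A.k + 1) → P) (l.2.2 i)) := by
        funext i
        rw [snoc_map]
      rw [h1]
      rfl

theorem gt_an (D : Pd P m) (L : ℕ) {a : ℕ → Atom Rel P} (g : ∀ l, D.G l) (x : Nod D a) :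
    gt D L a (an D g x) = (gt D L a x).map (D.act g) (an D g) := by
  cases x with
  | tt =>
    refine and_map _ _ ?_
    rw [image_empty]
  | V x => rfl
  | be s l x =>
    cases s with
    | zero =>
      refine and_map _ _ ?_
      rw [image_empty]
    | succ s =>
      refine and_map _ _ ?_
      rw [image_pair]
      rfl
  | bb s o l y =>
    refine and_map _ _ ?_
    ext z
    constructor
    · rintro ⟨x, hx, rfl⟩
      refine ⟨mi (.be s l ((g l)⁻¹ * x)), ⟨(g l)⁻¹ * x, ?_, rfl⟩, ?_⟩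
      · have h1 : (((g l)⁻¹ * x : D.G l) : D.G l ⧸ D.K o l) = (g l)⁻¹ • (x : D.G l ⧸ D.K o l) := rfl
        rw [h1, hx, inv_smul_smul]
      · change (mi (.be s l (g l * ((g l)⁻¹ * x))) : Lit (Nod D a)) = mi (.be s l x)
        rw [mul_inv_cancel_left]
    · rintro ⟨_, ⟨x, hx, rfl⟩, rfl⟩
      refine ⟨g l * x, ?_, rfl⟩
      have h1 : ((g l * x : D.G l) : D.G l ⧸ D.K o l) = g l • (x : D.G l ⧸ D.K o l) := rfl
      rw [h1, hx]
  | Y s o r q =>
    cases r with
    | zero =>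
      refine and_map _ _ ?_
      rw [image_empty]
    | succ r =>
      refine and_map _ _ ?_
      ext z
      constructor
      · rintro (rfl | ⟨h, rfl⟩)
        · exact ⟨_, Or.inl rfl, rfl⟩
        · exact ⟨_, Or.inr ⟨h, rfl⟩, rfl⟩
      · rintro ⟨_, rfl | ⟨h, rfl⟩, rfl⟩
        · exact Or.inl rfl
        · exact Or.inr ⟨h, rfl⟩
  | E s j q =>
    cases j with
    | zero =>
      refine and_map _ _ ?_
      rw [image_singleton]
      rfl
    | succ j =>
      refine and_map _ _ ?_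
      ext z
      constructor
      · rintro (rfl | ⟨h, rfl⟩)
        · exact ⟨_, Or.inl rfl, rfl⟩
        · exact ⟨_, Or.inr ⟨h, rfl⟩, rfl⟩
      · rintro ⟨_, rfl | ⟨h, rfl⟩, rfl⟩
        · exact Or.inl rfl
        · exact Or.inr ⟨h, rfl⟩
  | U s j q =>
    refine and_map _ _ ?_
    ext z
    constructor
    · rintro ⟨h, rfl | rfl⟩
      · exact ⟨_, ⟨h, Or.inl rfl⟩, rfl⟩
      · refine ⟨_, ⟨h, Or.inr rfl⟩, ?_⟩
        change (mi (.V (D.ga g (D.ga (D.rp q) (a j)))) : Lit (Nod D a)) = _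
        rw [ga_ml D h]
    · rintro ⟨_, ⟨h, rfl | rfl⟩, rfl⟩
      · exact ⟨h, Or.inl rfl⟩
      · refine ⟨h, Or.inr ?_⟩
        change (mi (.V (D.ga g (D.ga (D.rp q) (a j)))) : Lit (Nod D a)) = _
        rw [ga_ml D h]
  | b s j =>
    refine and_map _ _ ?_
    ext z
    constructor
    · rintro ⟨q, rfl⟩
      refine ⟨mi (.U s j (D.ml g⁻¹ q)), ⟨_, rfl⟩, ?_⟩
      change (mi (.U s j (D.ml g (D.ml g⁻¹ q))) : Lit (Nod D a)) = mi (.U s j q)
      rw [ml_inv]
    · rintro ⟨_, ⟨q, rfl⟩, rfl⟩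
      exact ⟨D.ml g q, rfl⟩
  | K s j q =>
    refine and_map _ _ ?_
    ext z
    constructor
    · rintro ⟨h, rfl | rfl⟩
      · refine ⟨_, ⟨h, Or.inl rfl⟩, ?_⟩
        change (pl (.V (D.ga g (D.ga (D.rp q) (a j)))) : Lit (Nod D a)) = _
        rw [ga_ml D h]
      · exact ⟨_, ⟨h, Or.inr rfl⟩, rfl⟩
    · rintro ⟨_, ⟨h, rfl | rfl⟩, rfl⟩
      · refine ⟨h, Or.inl ?_⟩
        change (pl (.V (D.ga g (D.ga (D.rp q) (a j)))) : Lit (Nod D a)) = _
        rw [ga_ml D h]
      · exact ⟨h, Or.inr rfl⟩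
  | Dn s l y =>
    refine and_map _ _ ?_
    ext z
    constructor
    · rintro ⟨q, hq, rfl⟩
      refine ⟨mi (.E s L (D.ml g⁻¹ q)), ⟨D.ml g⁻¹ q, ?_, rfl⟩, ?_⟩
      · change (g l)⁻¹ • q l = y
        rw [hq, inv_smul_smul]
      · change (mi (.E s L (D.ml g (D.ml g⁻¹ q))) : Lit (Nod D a)) = mi (.E s L q)
        rw [ml_inv]
    · rintro ⟨_, ⟨q, hq, rfl⟩, rfl⟩
      refine ⟨D.ml g q, ?_, rfl⟩
      change g l • q l = g l • y
      rw [hq]
  | Zx s l =>
    refine and_map _ _ ?_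
    ext z
    constructor
    · rintro ⟨x, rfl⟩
      refine ⟨mi (.be s l ((g l)⁻¹ * x)), ⟨_, rfl⟩, ?_⟩
      change (mi (.be s l (g l * ((g l)⁻¹ * x))) : Lit (Nod D a)) = mi (.be s l x)
      rw [mul_inv_cancel_left]
    · rintro ⟨_, ⟨x, rfl⟩, rfl⟩
      exact ⟨g l * x, rfl⟩
  | ZY s o r =>
    refine and_map _ _ ?_
    ext z
    constructor
    · rintro ⟨q, rfl⟩
      refine ⟨mi (.Y s o r (D.ml g⁻¹ q)), ⟨_, rfl⟩, ?_⟩
      change (mi (.Y s o r (D.ml g (D.ml g⁻¹ q))) : Lit (Nod D a)) = mi (.Y s o r q)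
      rw [ml_inv]
    · rintro ⟨_, ⟨q, rfl⟩, rfl⟩
      exact ⟨D.ml g q, rfl⟩
  | ZE s j =>
    refine and_map _ _ ?_
    ext z
    constructor
    · rintro ⟨q, rfl⟩
      refine ⟨mi (.E s j (D.ml g⁻¹ q)), ⟨_, rfl⟩, ?_⟩
      change (mi (.E s j (D.ml g (D.ml g⁻¹ q))) : Lit (Nod D a)) = mi (.E s j q)
      rw [ml_inv]
    · rintro ⟨_, ⟨q, rfl⟩, rfl⟩
      exact ⟨D.ml g q, rfl⟩
  | cv x =>
    refine and_map _ _ ?_
    ext z
    constructor
    · rintro ⟨s, hs, hx, rfl⟩
      exact ⟨_, ⟨s, hs, hx, rfl⟩, rfl⟩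
    · rintro ⟨_, ⟨s, hs, hx, rfl⟩, rfl⟩
      exact ⟨s, hs, hx, rfl⟩
  | W A v =>
    refine and_map _ _ ?_
    ext z
    constructor
    · rintro ⟨x, hx, rfl⟩
      exact ⟨_, ⟨x, hx, rfl⟩, rfl⟩
    · rintro ⟨_, ⟨x, hx, rfl⟩, rfl⟩
      exact ⟨x, hx, rfl⟩
  | W0 A v =>
    refine and_map _ _ ?_
    ext z
    constructor
    · rintro ⟨x', hx', rfl⟩
      obtain ⟨x, hx, rfl⟩ := (inst_ga D g A v x').1 hx'
      exact ⟨_, ⟨x, hx, rfl⟩, rfl⟩
    · rintro ⟨_, ⟨x, hx, rfl⟩, rfl⟩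
      exact ⟨_, (inst_ga D g A v _).2 ⟨x, hx, rfl⟩, rfl⟩

private theorem gate_map_map {N N' N'' : Type} (f f' : P → P) (g : N → N') (g' : N' → N'')
    (x : Gate (Atom Rel P) N) : (x.map f g).map f' g' = x.map (fun p => f' (f p)) (fun a => g' (g a)) := by
  cases x with
  | var v => rfl
  | and S =>
    change Gate.and (Lit.map g' '' (Lit.map g '' S)) = Gate.and _
    rw [image_image]
    rfl
  | sym A S =>
    change Gate.sym A (Lit.map g' '' (Lit.map g '' S)) = Gate.sym A _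
    rw [image_image]
    rfl

theorem gate_ac {T : Set (Ax Rel)} {D : Pd P m} {L k : ℕ} {a : ℕ → Atom Rel P} (h : Dat T D L k a)
    (g : ∀ l, D.G l) (x : (cir h).N) :
    (cir h).gate (ac h g x) = ((cir h).gate x).map (D.act g) (ac h g) := by
  have h1 : (cir h).gate (ac h g x) = ((gt D L a x.1).map (D.act g) (an D g)).map id (mk T D L k a) := by
    rw [← gt_an]
    rfl
  have h2 : ((cir h).gate x).map (D.act g) (ac h g) =
      (gt D L a x.1).map (D.act g) (fun y => ac h g (mk T D L k a y)) :=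
    gate_map_map id (D.act g) (mk T D L k a) (ac h g) (gt D L a x.1)
  have h3 : (fun y => ac h g (mk T D L k a y)) = fun y => mk T D L k a (an D g y) :=
    funext fun y => Subtype.ext (mk_an h g y).symm
  rw [h1, h2, h3, gate_map_map]
  rfl

theorem ac_cv {T : Set (Ax Rel)} {D : Pd P m} {L k : ℕ} {a : ℕ → Atom Rel P} (h : Dat T D L k a)
    (g : ∀ l, D.G l) (x : Atom Rel P) : ac h g (mk T D L k a (.cv x)) = mk T D L k a (.cv x) :=
  Subtype.ext (mk_an h g (.cv x)).symm

end Pool.Agent.H29.NS
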