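import Pool.Agent.H29.NS.Defs
import Pool.Agent.H42.CS.Sym
import Pool.Agent.H42.CS.Der

/-!
# [H29 NS Rfn] from an allowed derivation to a refutation

`of_dq`: the lines are `{Λ | Dq T C Q Λ}`. ORDER. `Set (Lit C.N)` is finite (`Lit C.N` embeds in `C.N × Bool`). Let `S 0 = ∅`, `S (i+1) = S i ∪ {Λ ∈ Q | Step T C (S i) Λ}` (monotone; `Step` is monotone in the premises: a private lemma by cases, or `Step.mono` if
it is in `H42/CS/Der.lean`: copy it). Every `Λ` with `Dq T C Q Λ` is in some `S i` (induction on `Dq`: the set `Pr` is finite, so `Pr ⊆ S i` for one `i`, `Step` monotone). `order Λ` := the least `i` with `Λ ∈ S i`. If `order Λ = i + 1` then `Λ ∈ Q` and `Step T C (S i) Λ`, the members of `S i` are lines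
(`S i ⊆ {Λ | Dq T C Q Λ}`, induction on `i`) of order `≤ i`. See also `good_ex`, `to_refutation` in `H42/CS/Der.lean`.
SYMMETRY. `act g` maps lines to lines: if `Step T C Pr Λ` then `Step T C (image of Pr) (image of Λ)` for an automorphism (`step_map` in `H42/CS/Sym.lean`; you may import `Pool.Agent.H42.CS.Sym`); by induction on `Dq`, with `hQ`.
SIZE. `lines ⊆ Q`.
-/

set_option autoImplicit false

open Set

namespace Pool.Agent.H29.NS

open Pool.Agent.H42.CS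

variable {Rel : ℕ → Type} {P : Type} {T : Set (Ax Rel)} {C : Circuit Rel P}

theorem Dq.mono {Q Q' : Set (Set (Lit C.N))} (h : Q ⊆ Q') {Λ : Set (Lit C.N)} (hΛ : Dq T C Q Λ) :
    Dq T C Q' Λ := by
  induction hΛ with
  | mk Λ Pr hΛ _ hs ih => exact Dq.mk Λ Pr (h hΛ) ih hs

private theorem rfn_fin (N : Type) [Finite N] : Finite (Lit N) :=
  Finite.of_injective (fun x : Lit N => (x.node, x.pos)) (by
    rintro ⟨a, s⟩ ⟨b, t⟩ h
    have h1 : a = b := congrArg Prod.fst h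
    have h2 : s = t := congrArg Prod.snd h
    rw [h1, h2])

/-- the lines which have a derivation of depth at most `i` -/
private def lay (T : Set (Ax Rel)) (C : Circuit Rel P) (Q : Set (Set (Lit C.N))) :
    ℕ → Set (Set (Lit C.N))
  | 0 => ∅
  | i + 1 => lay T C Q i ∪ {Λ | Λ ∈ Q ∧ Step T C (lay T C Q i) Λ}

private theorem lay_mono (Q : Set (Set (Lit C.N))) {i j : ℕ} (h : i ≤ j) :
    lay T C Q i ⊆ lay T C Q j := by
  induction j, h using Nat.le_induction with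
  | base => exact subset_rfl
  | succ j _ ih => exact ih.trans subset_union_left

private theorem lay_dq (Q : Set (Set (Lit C.N))) (i : ℕ) : ∀ Λ ∈ lay T C Q i, Dq T C Q Λ := by
  induction i with
  | zero => exact fun Λ h => absurd h (notMem_empty Λ)
  | succ i ih =>
    rintro Λ (h | h)
    · exact ih Λ h
    · exact Dq.mk Λ _ h.1 ih h.2

private theorem dq_lay (Q : Set (Set (Lit C.N))) {Λ : Set (Lit C.N)} (h : Dq T C Q Λ) :
    ∃ i, Λ ∈ lay T C Q i := by
  have : Finite (Lit C.N) := rfn_fin _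
  induction h with
  | mk Λ Pr hΛ _ hs ih =>
    choose! f hf using ih
    obtain ⟨m, hm⟩ := (Set.toFinite (f '' Pr)).bddAbove
    refine ⟨m + 1, Or.inr ⟨hΛ, hs.mono fun Δ hΔ => ?_⟩⟩
    exact lay_mono Q (hm ⟨Δ, hΔ, rfl⟩) (hf Δ hΔ)

theorem of_dq (Q : Set (Set (Lit C.N))) (h0 : Dq T C Q ∅) (Γ : Subgroup (Equiv.Perm P))
    (act : Γ →* Equiv.Perm C.N)
    (hact : ∀ (σ : Γ) a, C.gate (act σ a) = (C.gate a).map (σ : Equiv.Perm P) (act σ))
    (hQ : ∀ (σ : Γ), ∀ Λ ∈ Q, Lit.map (act σ) '' Λ ∈ Q) :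
    ∃ R : Refutation T P, R.Symm Γ ∧ R.size ≤ Nat.card C.N + Q.ncard := by
  have : Finite (Lit C.N) := rfn_fin _
  refine ⟨⟨C, {Λ | Dq T C Q Λ}, fun Λ => sInf {i | Λ ∈ lay T C Q i}, ?_, h0⟩, ?_, ?_⟩
  · intro Λ hΛ
    have h1 : sInf {i | Λ ∈ lay T C Q i} ∈ {i | Λ ∈ lay T C Q i} := Nat.sInf_mem (dq_lay Q hΛ)
    obtain ⟨i, hi⟩ : ∃ i, i = sInf {i | Λ ∈ lay T C Q i} := ⟨_, rfl⟩
    rw [← hi] at h1 ⊢
    cases i with
    | zero => exact absurd h1 (notMem_empty Λ)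
    | succ i =>
      rcases h1 with h1 | h1
      · exact absurd (Nat.sInf_le (s := {i | Λ ∈ lay T C Q i}) h1) (by omega)
      · refine h1.2.mono fun Δ hΔ => ⟨lay_dq Q i Δ hΔ, ?_⟩
        exact Nat.lt_succ_of_le (Nat.sInf_le (s := {i | Δ ∈ lay T C Q i}) hΔ)
  · refine ⟨act, fun σ => ⟨hact σ, fun Λ hΛ => ?_⟩⟩
    change Dq T C Q (Lit.map (act σ) '' Λ)
    have h2 : Dq T C Q Λ := hΛ
    clear hΛ
    induction h2 with
    | mk Λ Pr hΛ _ hs ih =>
      refine Dq.mk _ ((fun Δ => Lit.map (act σ) '' Δ) '' Pr) (hQ σ Λ hΛ) ?_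
        (step_map (σ : Equiv.Perm P) (act σ) (act σ).injective (hact σ)
          (fun Δ hΔ => mem_image_of_mem _ hΔ) hs)
      rintro _ ⟨Δ, hΔ, rfl⟩
      exact ih Δ hΔ
  · refine Nat.add_le_add_left (Set.ncard_le_ncard ?_ (Set.toFinite _)) _
    intro Λ hΛ
    have h2 : Dq T C Q Λ := hΛ
    cases h2 with
    | mk _ _ h _ _ => exact h

end Pool.Agent.H29.NS
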