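import Pool.Agent.H29.NS.Sum
import Pool.Agent.H29.NS.Rfn

/-!
# [H29 NS Asm] the lines of the refutation in the circuit with the gadget

`Qs Cg cv C Ls`: the lines of `Qw Cg`, and the lines of `Ls` with at most two signed nodes of `Cg`.
PROOFS. `sum_hyp` (`φ = Lit.map Sum.inl`, `ψ = Lit.map Sum.inr`): let `Δ = ψ '' Λ`. (1) `Dq {mi (inl w)}` in `Qs`: `dq_inl` of `hd` (`{y | ∃ x ∈ [pl w], y = x.neg} = {mi w}`) and `Dq.mono` (in `Rfn.lean`: import it). (2) `insert ⟨inl w, false⟩ Δ`: `Step.weak`. (3) for `x ∈ A.inst v`: the line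
`insert ⟨inl (cv x.1), !x.2⟩ (insert ⟨inl w, true⟩ Δ)` by `Step.ident`: `⟨inr b, x.2⟩ ∈ Δ`, the gates of `inr b` and `inl (cv x.1)` are equal (`sg` of `.var x.1`, `inr_gate`, `inl_gate`); for `x.2 = true` the positive one is `inr b`, for `x.2 = false` it is `inl (cv x.1)`.
(4) `insert ⟨inl w, true⟩ Δ`: `Step.andI` (`hW`: the members of the gate are `⟨inl (cv x.1), !x.2⟩`), premises (3). (5) `Step.cut` on `inl w`: `Δ`.
All lines are in `Qs` (`Y = ∅`, `{pl w}`, `{mi w}`, `{⟨cv x.1, !x.2⟩, pl w}`; `Set.image_union`, `Set.image_insert_eq`, `Set.ncard_insert_le`).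
`sum_dq`: strong induction on `R.order Λ`: `step_sum` of `R.step Λ hΛ`: the first alternative is `sum_hyp`; in the second use `Dq.mk` with the premises `{ψ '' Δ | Δ ∈ lines, order Δ < order Λ}`.
-/

set_option autoImplicit false

open Set

namespace Pool.Agent.H29.NS

open Pool.Agent.H42.CS

variable {Rel : ℕ → Type} {P : Type} {T : Set (Ax Rel)}

/-- the lines of the symmetric refutation -/
def Qs (Cg : Circuit Rel P) (cv : Atom Rel P → Cg.N) (C : Circuit Rel P) (Ls : Set (Set (Lit C.N))) :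
    Set (Set (Lit (sumC Cg cv C).N)) :=
  {Λ | (∃ Δ ∈ Qw Cg, Λ = Lit.map Sum.inl '' Δ) ∨
    ∃ Δ ∈ Ls, ∃ Y : Set (Lit Cg.N), Y.ncard ≤ 2 ∧ Λ = Lit.map Sum.inl '' Y ∪ Lit.map Sum.inr '' Δ}

private theorem qs_mem {Cg : Circuit Rel P} {cv : Atom Rel P → Cg.N} {C : Circuit Rel P}
    {Ls : Set (Set (Lit C.N))} {Λ : Set (Lit C.N)} (hΛ : Λ ∈ Ls) (Y : Set (Lit Cg.N))
    (hY : Y.ncard ≤ 2) {Θ : Set (Lit (sumC Cg cv C).N)}
    (h : Θ = Lit.map Sum.inl '' Y ∪ Lit.map Sum.inr '' Λ) : Θ ∈ Qs Cg cv C Ls :=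
  Or.inr ⟨Λ, hΛ, Y, hY, h⟩

theorem sum_hyp {Cg : Circuit Rel P} {cv : Atom Rel P → Cg.N} {C : Circuit Rel P} {Ls : Set (Set (Lit C.N))}
    {A : Ax Rel} {v : Fin A.k → P} (w : Cg.N)
    (hW : Cg.gate w = .and {z | ∃ x ∈ A.inst v, z = ⟨cv x.1, !x.2⟩}) (hd : Rf T Cg [pl w])
    {Λ : Set (Lit C.N)} (hΛ : Λ ∈ Ls) (hx : ∀ x ∈ A.inst v, ∃ a, C.gate a = .var x.1 ∧ ⟨a, x.2⟩ ∈ Λ) :
    Dq T (sumC Cg cv C) (Qs Cg cv C Ls) (Lit.map Sum.inr '' Λ) := by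
  obtain ⟨Δ, hΔ⟩ : ∃ Δ : Set (Lit (sumC Cg cv C).N), Δ = Lit.map Sum.inr '' Λ := ⟨_, rfl⟩
  have hone : {y : Lit Cg.N | ∃ x ∈ [pl w], y = x.neg} = {mi w} := by
    ext y
    simp [Lit.neg]
  have d1 : Dq T (sumC Cg cv C) (Qs Cg cv C Ls) {(⟨Sum.inl w, false⟩ : Lit (sumC Cg cv C).N)} := by
    have h1 : Dq T Cg (Qw Cg) {mi w} := by
      rw [← hone]
      exact hd
    have h2 := dq_inl (cv := cv) (C := C) h1
    rw [image_singleton] at h2
    refine Dq.mono ?_ h2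
    rintro _ ⟨Θ, hΘ, rfl⟩
    exact Or.inl ⟨Θ, hΘ, rfl⟩
  have d2 : Dq T (sumC Cg cv C) (Qs Cg cv C Ls)
      (insert (⟨Sum.inl w, false⟩ : Lit (sumC Cg cv C).N) Δ) := by
    refine Dq.mk _ {{(⟨Sum.inl w, false⟩ : Lit (sumC Cg cv C).N)}}
      (qs_mem hΛ {mi w} (by rw [ncard_singleton]; omega) ?_) (fun Θ hΘ => ?_)
      (Step.weak (mem_singleton _) ?_)
    · rw [image_singleton, hΔ]
      rfl
    · rw [mem_singleton_iff.1 hΘ]
      exact d1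
    · rintro _ rfl
      exact mem_insert _ _
  have d3 : ∀ x ∈ A.inst v, Dq T (sumC Cg cv C) (Qs Cg cv C Ls)
      (insert (⟨Sum.inl (cv x.1), !x.2⟩ : Lit (sumC Cg cv C).N)
        (insert (⟨Sum.inl w, true⟩ : Lit (sumC Cg cv C).N) Δ)) := by
    intro x hxi
    obtain ⟨b, hb, hbΛ⟩ := hx x hxi
    have hg : (sumC Cg cv C).gate (Sum.inr b) = (sumC Cg cv C).gate (Sum.inl (cv x.1)) := by
      rw [inr_gate, hb]
      rfl
    have hbm : (⟨Sum.inr b, x.2⟩ : Lit (sumC Cg cv C).N) ∈ Δ := by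
      rw [hΔ]
      exact ⟨⟨b, x.2⟩, hbΛ, rfl⟩
    refine Dq.mk _ ∅ (qs_mem hΛ {⟨cv x.1, !x.2⟩, pl w}
      ((ncard_insert_le _ _).trans (by rw [ncard_singleton])) ?_)
      (fun Θ hΘ => absurd hΘ (notMem_empty _)) ?_
    · rw [image_pair, insert_union, singleton_union, hΔ]
      rfl
    · rcases hx2 : x.2 with _ | _
      · rw [hx2] at hbm
        exact Step.ident (a := Sum.inl (cv x.1)) (b := Sum.inr b) hg.symm (mem_insert _ _)
          (mem_insert_of_mem _ (mem_insert_of_mem _ hbm))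
      · rw [hx2] at hbm
        exact Step.ident (a := Sum.inr b) (b := Sum.inl (cv x.1)) hg
          (mem_insert_of_mem _ (mem_insert_of_mem _ hbm)) (mem_insert _ _)
  have d4 : Dq T (sumC Cg cv C) (Qs Cg cv C Ls)
      (insert (⟨Sum.inl w, true⟩ : Lit (sumC Cg cv C).N) Δ) := by
    refine Dq.mk _ {Θ | ∃ x ∈ A.inst v, Θ =
        insert (⟨Sum.inl (cv x.1), !x.2⟩ : Lit (sumC Cg cv C).N)
        (insert (⟨Sum.inl w, true⟩ : Lit (sumC Cg cv C).N) Δ)}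
      (qs_mem hΛ {pl w} (by rw [ncard_singleton]; omega) ?_) ?_
      (Step.andI (a := Sum.inl w) (S := Lit.map Sum.inl '' {z | ∃ x ∈ A.inst v, z = ⟨cv x.1, !x.2⟩})
        ?_ (mem_insert _ _) ?_)
    · rw [image_singleton, hΔ]
      rfl
    · rintro _ ⟨x, hxi, rfl⟩
      exact d3 x hxi
    · rw [inl_gate, hW]
      rfl
    · rintro _ ⟨_, ⟨x, hxi, rfl⟩, rfl⟩
      exact ⟨x, hxi, rfl⟩
  have d5 : Dq T (sumC Cg cv C) (Qs Cg cv C Ls) Δ := by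
    refine Dq.mk _ {insert (⟨Sum.inl w, true⟩ : Lit (sumC Cg cv C).N) Δ,
      insert (⟨Sum.inl w, false⟩ : Lit (sumC Cg cv C).N) Δ}
      (qs_mem hΛ ∅ (by rw [ncard_empty]; omega) ?_) (fun Θ hΘ => ?_)
      (Step.cut (a := Sum.inl w) (Or.inl rfl) (Or.inr rfl))
    · rw [image_empty, empty_union, hΔ]
    · rcases hΘ with rfl | hΘ
      · exact d4
      · rw [mem_singleton_iff.1 hΘ]
        exact d2
  rw [hΔ] at d5
  exact d5

theorem sum_dq {Cg : Circuit Rel P} {cv : Atom Rel P → Cg.N}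
    (hW : ∀ A ∈ T, ∀ v : Fin A.k → P, ∃ w : Cg.N, Cg.gate w = .and {z | ∃ x ∈ A.inst v, z = ⟨cv x.1, !x.2⟩} ∧
      Rf T Cg [pl w])
    (R : Refutation T P) : ∀ Λ ∈ R.lines, Dq T (sumC Cg cv R.C) (Qs Cg cv R.C R.lines) (Lit.map Sum.inr '' Λ) := by
  have key : ∀ (N : ℕ), ∀ Λ ∈ R.lines, R.order Λ < N →
      Dq T (sumC Cg cv R.C) (Qs Cg cv R.C R.lines) (Lit.map Sum.inr '' Λ) := by
    intro N
    induction N with
    | zero => exact fun Λ _ h => absurd h (Nat.not_lt_zero _)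
    | succ N ih =>
      intro Λ hΛ hN
      rcases step_sum (Cg := Cg) (cv := cv) (R.step Λ hΛ) with ⟨A, hA, v, hx⟩ | h
      · obtain ⟨w, hw, hd⟩ := hW A hA v
        exact sum_hyp w hw hd hΛ hx
      · refine Dq.mk _ _ (qs_mem hΛ ∅ (by rw [ncard_empty]; omega) ?_) ?_ h
        · rw [image_empty, empty_union]
          rfl
        · rintro _ ⟨Δ, ⟨h1, h2⟩, rfl⟩
          exact ih Δ h1 (by omega)
  exact fun Λ hΛ => key (R.order Λ + 1) Λ hΛ (Nat.lt_succ_self _)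

end Pool.Agent.H29.NS
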