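import Pool.Agent.H29.NS.Asm
import Pool.Agent.H29.NS.Rfn

/-!
# [H29 NS AsmF] the symmetric refutation

PROOFS. `sac act`: `Sum.inl y ↦ Sum.inl (act σ y)`, `Sum.inr b ↦ Sum.inr b`. `gate_sac`: for `inl`: `hact` (a private lemma on `Gate.map` of `Gate.map`, see `gate_map_map` in `H42/CS/Sym.lean`, copy it); for `inr b` with `C.gate b = .var x`: `(Cg.gate (cv x)).map id Sum.inl` is mapped to itself by `hact σ (cv x)` and `hcv`; for `and`, `sym`:
`Lit.map Sum.inr '' S` is mapped to itself. `Qs_sac`: `Qw Cg` is mapped to itself (`ncard` of an image under an injective map; for the second kind of line the node is `act σ a`, with `hact`: the gate is `.and (Lit.map (act σ) '' S)`), the members `Y` are mapped to `Lit.map (act σ) '' Y`, the part `Lit.map Sum.inr '' Δ` is fixed.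
`Qs_ncard`: with `N = Nat.card Cg.N`: the number of sets of at most `c` literals of `Cg` is at most `(2 * N + 1) ^ c` (they are the values of `fun f : Fin c → Option (Lit Cg.N) => {y | ∃ i, f i = some y}`; `Nat.card (Lit N) = 2 * N`: `Lit N ≃ N × Bool`); `(Qw Cg).ncard ≤ (2 * N + 1) ^ 16 * (N + 1)` (values of a function of the small set and of an
`Option Cg.N`), the second kind: `Ls.ncard * (2 * N + 1) ^ 2`.
`asm`: `of_dq` for `Q = Qs Cg cv R.C R.lines` and the action `sac`, `h0` = `sum_dq` for `R.empty_mem` (`Set.image_empty`). Size: `x = 2 * N + 4`; `R.lines.ncard ≥ 1` (`R.empty_mem`, finite); `N + R.N + (2 * N + 1) ^ 16 * (N + 1) + R.lines.ncard * x ^ 2 ≤ R.size * (x + x ^ 17 + x ^ 2) ≤ R.size * x ^ 18` (`x ≥ 4`).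
-/

set_option autoImplicit false

open Set

namespace Pool.Agent.H29.NS

open Pool.Agent.H42.CS

variable {Rel : ℕ → Type} {P : Type} {T : Set (Ax Rel)}

/-- the action on the circuit with the gadget -/
def sac {Cg : Circuit Rel P} (cv : Atom Rel P → Cg.N) (C : Circuit Rel P) {Γ : Subgroup (Equiv.Perm P)}
    (act : Γ →* Equiv.Perm Cg.N) : Γ →* Equiv.Perm (sumC Cg cv C).N where
  toFun σ := Equiv.sumCongr (act σ) (Equiv.refl C.N)
  map_one' := by
    refine Equiv.ext fun x => ?_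
    rcases x with y | b
    · show Sum.inl (act 1 y) = Sum.inl y
      rw [map_one]
      rfl
    · rfl
  map_mul' σ τ := by
    refine Equiv.ext fun x => ?_
    rcases x with y | b
    · show Sum.inl (act (σ * τ) y) = Sum.inl (act σ (act τ y))
      rw [map_mul]
      rfl
    · rfl

private theorem af_gmm {N N' N'' : Type} (f f' : P → P) (g : N → N')
    (g' : N' → N'') (x : Gate (Atom Rel P) N) :
    (x.map f g).map f' g' = x.map (fun p => f' (f p)) (fun a => g' (g a)) := by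
  cases x with
  | var v => rfl
  | and S =>
    change Gate.and (Lit.map g' '' (Lit.map g '' S)) = Gate.and _
    rw [Set.image_image]
    rfl
  | sym A S =>
    change Gate.sym A (Lit.map g' '' (Lit.map g '' S)) = Gate.sym A _
    rw [Set.image_image]
    rfl

private theorem af_im {N N' N'' : Type} (f : N → N') (g : N' → N'') (S : Set (Lit N)) :
    Lit.map g '' (Lit.map f '' S) = Lit.map (fun a => g (f a)) '' S := image_image _ _ _

theorem gate_sac {Cg : Circuit Rel P} {cv : Atom Rel P → Cg.N} (C : Circuit Rel P)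
    {Γ : Subgroup (Equiv.Perm P)} (act : Γ →* Equiv.Perm Cg.N)
    (hact : ∀ (σ : Γ) x, Cg.gate (act σ x) = (Cg.gate x).map (σ : Equiv.Perm P) (act σ))
    (hcv : ∀ (σ : Γ) x, act σ (cv x) = cv x) (σ : Γ) (x : (sumC Cg cv C).N) :
    (sumC Cg cv C).gate (sac cv C act σ x) =
      ((sumC Cg cv C).gate x).map (σ : Equiv.Perm P) (sac cv C act σ) := by
  have hl : ∀ y : Cg.N, (Cg.gate (act σ y)).map id (Sum.inl : Cg.N → Cg.N ⊕ C.N) =
      ((Cg.gate y).map id (Sum.inl : Cg.N → Cg.N ⊕ C.N)).map (σ : Equiv.Perm P) (sac cv C act σ) := by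
    intro y
    have e1 := af_gmm (σ : Equiv.Perm P) id (act σ) (Sum.inl : Cg.N → Cg.N ⊕ C.N) (Cg.gate y)
    have e2 := af_gmm id (σ : Equiv.Perm P) (Sum.inl : Cg.N → Cg.N ⊕ C.N) (sac cv C act σ) (Cg.gate y)
    exact (congrArg (Gate.map id Sum.inl) (hact σ y)).trans (e1.trans e2.symm)
  rcases x with y | b
  · exact hl y
  · show sg Cg cv (C.gate b) = (sg Cg cv (C.gate b)).map (σ : Equiv.Perm P) (sac cv C act σ)
    cases C.gate b with
    | var x =>
      have h1 := hl (cv x)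
      rw [hcv] at h1
      exact h1
    | and S =>
      exact congrArg Gate.and (af_im (Sum.inr : C.N → Cg.N ⊕ C.N) (sac cv C act σ) S).symm
    | sym B S =>
      exact congrArg (Gate.sym B) (af_im (Sum.inr : C.N → Cg.N ⊕ C.N) (sac cv C act σ) S).symm

private theorem af_inj {N N' : Type} {f : N → N'} (hf : Function.Injective f) :
    Function.Injective (Lit.map f) := by
  rintro ⟨a, s⟩ ⟨b, t⟩ h
  have h1 : f a = f b := congrArg Lit.node h
  have h2 : s = t := congrArg Lit.pos h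
  rw [hf h1, h2]

theorem Qs_sac {Cg : Circuit Rel P} {cv : Atom Rel P → Cg.N} (C : Circuit Rel P) (Ls : Set (Set (Lit C.N)))
    {Γ : Subgroup (Equiv.Perm P)} (act : Γ →* Equiv.Perm Cg.N)
    (hact : ∀ (σ : Γ) x, Cg.gate (act σ x) = (Cg.gate x).map (σ : Equiv.Perm P) (act σ)) (σ : Γ) :
    ∀ Λ ∈ Qs Cg cv C Ls, Lit.map (sac cv C act σ) '' Λ ∈ Qs Cg cv C Ls := by
  rintro Λ (⟨Δ, hΔ, rfl⟩ | ⟨Δ, hΔ, Y, hY, rfl⟩)
  · refine Or.inl ⟨Lit.map (act σ) '' Δ, ?_, ?_⟩
    · obtain ⟨Λ0, h0, h1⟩ := hΔ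
      refine ⟨Lit.map (act σ) '' Λ0, ?_, ?_⟩
      · rw [ncard_image_of_injective _ (af_inj (act σ).injective)]
        exact h0
      · rcases h1 with rfl | ⟨b, S, hb, rfl⟩
        · exact Or.inl rfl
        · refine Or.inr ⟨act σ b, Lit.map (act σ) '' S, ?_, ?_⟩
          · rw [hact, hb]
            rfl
          · rw [image_union, image_image, image_image]
            rfl
    · exact (af_im (Sum.inl : Cg.N → Cg.N ⊕ C.N) (sac cv C act σ) Δ).trans
        (af_im (act σ) (Sum.inl : Cg.N → Cg.N ⊕ C.N) Δ).symm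
  · refine Or.inr ⟨Δ, hΔ, Lit.map (act σ) '' Y, ?_, ?_⟩
    · rw [ncard_image_of_injective _ (af_inj (act σ).injective)]
      exact hY
    · refine (image_union _ _ _).trans ?_
      exact congrArg₂ (fun U V => U ∪ V) ((af_im (Sum.inl : Cg.N → Cg.N ⊕ C.N) (sac cv C act σ) Y).trans
        (af_im (act σ) (Sum.inl : Cg.N → Cg.N ⊕ C.N) Y).symm)
        (af_im (Sum.inr : C.N → Cg.N ⊕ C.N) (sac cv C act σ) Δ)

private theorem af_fin (N : Type) [Finite N] : Finite (Lit N) :=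
  Finite.of_injective (fun x : Lit N => (x.node, x.pos)) (by
    rintro ⟨a, s⟩ ⟨b, t⟩ h
    have h1 : a = b := congrArg Prod.fst h
    have h2 : s = t := congrArg Prod.snd h
    rw [h1, h2])

private theorem af_card (N : Type) [Finite N] : Nat.card (Lit N) ≤ 2 * Nat.card N := by
  have h1 : Nat.card (Lit N) ≤ Nat.card (N × Bool) :=
    Nat.card_le_card_of_injective (fun x : Lit N => (x.node, x.pos)) (by
      rintro ⟨a, s⟩ ⟨b, t⟩ h
      have h1 : a = b := congrArg Prod.fst h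
      have h2 : s = t := congrArg Prod.snd h
      rw [h1, h2])
  rw [Nat.card_prod, Nat.card_eq_fintype_card (α := Bool), Fintype.card_bool] at h1
  omega

private theorem af_small (M : Type) [Finite M] (c : ℕ) :
    {Y : Set M | Y.ncard ≤ c}.ncard ≤ (Nat.card M + 1) ^ c := by
  have h1 : {Y : Set M | Y.ncard ≤ c} ⊆
      (fun f : Fin c → Option M => {y | ∃ i, f i = some y}) '' univ := by
    intro Y hY
    have hc : Nat.card Y = Y.ncard := rfl
    let e : Y ≃ Fin Y.ncard := (Finite.equivFinOfCardEq hc)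
    refine ⟨fun i => if h : i.1 < Y.ncard then some (e.symm ⟨i.1, h⟩).1 else none, mem_univ _, ?_⟩
    ext y
    constructor
    · rintro ⟨i, hi⟩
      dsimp only at hi
      split_ifs at hi with h
      · have h2 := Option.some.inj hi
        rw [← h2]
        exact (e.symm ⟨i.1, h⟩).2
    · intro hy
      have h2 : (e ⟨y, hy⟩).1 < Y.ncard := (e ⟨y, hy⟩).2
      refine ⟨⟨(e ⟨y, hy⟩).1, h2.trans_le hY⟩, ?_⟩
      dsimp only
      rw [dif_pos h2]
      have h3 : (⟨(e ⟨y, hy⟩).1, h2⟩ : Fin Y.ncard) = e ⟨y, hy⟩ := rfl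
      rw [h3, Equiv.symm_apply_apply]
  refine (ncard_le_ncard h1 (toFinite _)).trans ((ncard_image_le (toFinite _)).trans ?_)
  rw [ncard_univ, Nat.card_fun, Finite.card_option, Nat.card_eq_fintype_card (α := Fin c), Fintype.card_fin]

theorem Qs_ncard (Cg : Circuit Rel P) (cv : Atom Rel P → Cg.N) (C : Circuit Rel P) (Ls : Set (Set (Lit C.N))) :
    (Qs Cg cv C Ls).ncard ≤ (2 * Nat.card Cg.N + 1) ^ 16 * (Nat.card Cg.N + 1) +
      Ls.ncard * (2 * Nat.card Cg.N + 1) ^ 2 := by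
  have hf1 : Finite (Lit Cg.N) := af_fin _
  have hf2 : Finite (Lit C.N) := af_fin _
  have hs : ∀ c, {Y : Set (Lit Cg.N) | Y.ncard ≤ c}.ncard ≤ (2 * Nat.card Cg.N + 1) ^ c := fun c =>
    (af_small (Lit Cg.N) c).trans (Nat.pow_le_pow_left (Nat.succ_le_succ (af_card _)) c)
  have hQ : (Qw Cg).ncard ≤ (2 * Nat.card Cg.N + 1) ^ 16 * (Nat.card Cg.N + 1) := by
    have h1 : Qw Cg ⊆ (fun z : Set (Lit Cg.N) × Option Cg.N => match z.2 with
        | none => z.1
        | some b => z.1 ∪ Lit.neg '' (Cg.gate b).children) ''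
        ({Y : Set (Lit Cg.N) | Y.ncard ≤ 16} ×ˢ (univ : Set (Option Cg.N))) := by
      rintro Λ ⟨Λ0, h0, rfl | ⟨b, S, hb, rfl⟩⟩
      · exact ⟨(Λ, none), ⟨h0, mem_univ _⟩, rfl⟩
      · refine ⟨(Λ0, some b), ⟨h0, mem_univ _⟩, ?_⟩
        show Λ0 ∪ Lit.neg '' (Cg.gate b).children = _
        rw [hb]
        rfl
    refine (ncard_le_ncard h1 (toFinite _)).trans ((ncard_image_le (toFinite _)).trans ?_)
    rw [ncard_prod, ncard_univ, Finite.card_option]
    exact Nat.mul_le_mul_right _ (hs 16)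
  have h1 : Qs Cg cv C Ls ⊆ ((fun Δ : Set (Lit Cg.N) => Lit.map (Sum.inl : Cg.N → Cg.N ⊕ C.N) '' Δ) '' Qw Cg) ∪
      ((fun z : Set (Lit C.N) × Set (Lit Cg.N) => Lit.map (Sum.inl : Cg.N → Cg.N ⊕ C.N) '' z.2 ∪
        Lit.map (Sum.inr : C.N → Cg.N ⊕ C.N) '' z.1) '' (Ls ×ˢ {Y : Set (Lit Cg.N) | Y.ncard ≤ 2})) := by
    rintro Λ (⟨Δ, hΔ, rfl⟩ | ⟨Δ, hΔ, Y, hY, rfl⟩)
    · exact Or.inl ⟨Δ, hΔ, rfl⟩
    · exact Or.inr ⟨(Δ, Y), ⟨hΔ, hY⟩, rfl⟩
  have hf3 : Finite (Lit (Cg.N ⊕ C.N)) := af_fin _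
  refine (ncard_le_ncard h1 (toFinite _)).trans ((ncard_union_le _ _).trans (Nat.add_le_add ?_ ?_))
  · exact (ncard_image_le (toFinite _)).trans hQ
  · refine (ncard_image_le (toFinite _)).trans ?_
    rw [ncard_prod]
    exact Nat.mul_le_mul_left _ (hs 2)

private theorem af_num (N M q : ℕ) (h5 : 1 ≤ q) :
    N + M + ((2 * N + 1) ^ 16 * (N + 1) + q * (2 * N + 1) ^ 2) ≤ (M + q) * (2 * N + 4) ^ 18 := by
  have e1 : (2 * N + 1) ^ 16 * (N + 1) ≤ (2 * N + 4) ^ 17 := by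
    rw [pow_succ _ 16]
    exact Nat.mul_le_mul (Nat.pow_le_pow_left (by omega) 16) (by omega)
  have e2 : (2 * N + 1) ^ 2 ≤ (2 * N + 4) ^ 17 :=
    (Nat.pow_le_pow_left (by omega) 2).trans (Nat.pow_le_pow_right (by omega) (by omega))
  have e3 : N ≤ (2 * N + 4) ^ 17 :=
    (by omega : N ≤ (2 * N + 4)).trans (Nat.le_self_pow (by omega) _)
  have e4 : 1 ≤ (2 * N + 4) ^ 17 := Nat.one_le_pow _ _ (by omega)
  have e5 : (2 * N + 4) ^ 18 = (2 * N + 4) ^ 17 * (2 * N + 4) := pow_succ _ 17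
  rw [e5]
  generalize (2 * N + 4) ^ 17 = x at *
  generalize (2 * N + 1) ^ 16 * (N + 1) = y at *
  generalize (2 * N + 1) ^ 2 = z at *
  have e6 : q * z ≤ q * x := Nat.mul_le_mul_left _ e2
  have e7 : M ≤ M * x := Nat.le_mul_of_pos_right _ e4
  have e8 : (M + q) * (x * 4) ≤ (M + q) * (x * (2 * N + 4)) :=
    Nat.mul_le_mul_left _ (Nat.mul_le_mul_left _ (by omega))
  have e9 : (M + q) * (x * 4) = 4 * (M * x) + 4 * (q * x) := by ring
  have e10 : x ≤ q * x := Nat.le_mul_of_pos_left _ h5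
  omega

theorem asm {Cg : Circuit Rel P} {cv : Atom Rel P → Cg.N}
    (hW : ∀ A ∈ T, ∀ v : Fin A.k → P, ∃ w : Cg.N, Cg.gate w = .and {z | ∃ x ∈ A.inst v, z = ⟨cv x.1, !x.2⟩} ∧
      Rf T Cg [pl w])
    (Γ : Subgroup (Equiv.Perm P)) (act : Γ →* Equiv.Perm Cg.N)
    (hact : ∀ (σ : Γ) x, Cg.gate (act σ x) = (Cg.gate x).map (σ : Equiv.Perm P) (act σ))
    (hcv : ∀ (σ : Γ) x, act σ (cv x) = cv x) (R : Refutation T P) :
    ∃ R' : Refutation T P, R'.Symm Γ ∧ R'.size ≤ R.size * (2 * Nat.card Cg.N + 4) ^ 18 := by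
  have h0 : Dq T (sumC Cg cv R.C) (Qs Cg cv R.C R.lines) ∅ := by
    have h1 := sum_dq hW R ∅ R.empty_mem
    rw [image_empty] at h1
    exact h1
  obtain ⟨R', h1, h2⟩ := of_dq _ h0 Γ (sac cv R.C act) (fun σ x => gate_sac R.C act hact hcv σ x)
    (fun σ => Qs_sac R.C R.lines act hact σ)
  refine ⟨R', h1, h2.trans ?_⟩
  have h3 := Qs_ncard Cg cv R.C R.lines
  have hf2 : Finite (Lit R.C.N) := af_fin _
  have h4 : Nat.card (sumC Cg cv R.C).N = Nat.card Cg.N + Nat.card R.C.N := Nat.card_sum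
  have h5 : 1 ≤ R.lines.ncard := Nat.one_le_iff_ne_zero.2 (ncard_ne_zero_of_mem R.empty_mem (toFinite _))
  have h6 : R.size = Nat.card R.C.N + R.lines.ncard := rfl
  rw [h4, h6]
  exact (Nat.add_le_add_left h3 _).trans (af_num _ _ _ h5)

end Pool.Agent.H29.NS
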