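import Pool.Agent.H29.NS.Defs

/-!
# [H29 NS Grp] the direct product and its classes

PROOFS. `single_pow`: for the coprime numbers `|G l|` and `∏_(l' ≠ l) |G l'|` there is `e` (`Nat.chineseRemainder`) with `e ≡ 1` modulo `|G l|`, `e ≡ 0` modulo all
`|G l'|`, `l' ≠ l`: componentwise `u l ^ e = u l`, `u l' ^ e = 1` (`pow_card_eq_one'`, `pow_mod`-type lemmas with `Nat.card`, `orderOf_dvd_natCard`).
`act_of_K`: if `k l ∈ K o l` for all `l`, then `act k` fixes all points `act h p`, `p ∈ o`: for a finite set `S` of factors the element with components `k l` (`l ∈ S`), `1`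
otherwise, fixes them: induction over `S` (insert `l`: it is the product of `Pi.mulSingle l (k l)` and the one for `S`), `S = univ`.
`act_cl`: `cl g = cl g'` means `(g l)⁻¹ * g' l ∈ K o l` (`QuotientGroup.eq`), so `g' = g * k`.
`cl_rp`: `QuotientGroup.out_eq'` (or `Quotient.out_eq'`), `act_rp`: `act_cl` for `g' = rp (cl g)`.
`cl_up`: componentwise: at `l`: `g l * ((g l)⁻¹ * g' l) = g' l`; elsewhere `g l' * 1`. `cl_ml`: `σ l • (g l : quotient) = ((σ l * g l : G l) : quotient)` (`rfl` or
`MulAction.Quotient.smul_mk`). Atoms: `ga` acts through the points; an atom `y = ga h x` in the orbit of `x` has the points `act h p`, `p ∈ pts x`.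
`K_ga`: the orbits of the points of `ga g x` are those of `x`. `res_cl`, `rp_res`: both sides have the same class for `o'`.
-/

set_option autoImplicit false

open Set

namespace Pool.Agent.H29.NS

open Pool.Agent.H42.CS

variable {Rel : ℕ → Type} {P : Type} {m : ℕ} (D : Pd P m)

theorem single_pow (u : ∀ l, D.G l) (l : Fin m) : ∃ e : ℕ, u ^ e = Pi.mulSingle l (u l) := by
  classical
  have hco : Nat.Coprime (Nat.card (D.G l)) (∏ l' ∈ Finset.univ.erase l, Nat.card (D.G l')) :=
    Nat.Coprime.prod_right fun l' hl' => D.cop l l' (Finset.ne_of_mem_erase hl').symm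
  obtain ⟨e, he1, he2⟩ := Nat.chineseRemainder hco 1 0
  refine ⟨e, funext fun l' => ?_⟩
  rw [Pi.pow_apply]
  by_cases h : l' = l
  · subst h
    rw [Pi.mulSingle_eq_same, ← pow_mod_natCard, he1, pow_mod_natCard, pow_one]
  · rw [Pi.mulSingle_eq_of_ne h]
    have h1 : Nat.card (D.G l') ∣ e :=
      (Finset.dvd_prod_of_mem (fun l' => Nat.card (D.G l'))
        (Finset.mem_erase.2 ⟨h, Finset.mem_univ l'⟩)).trans ((Nat.modEq_zero_iff_dvd).1 he2)
    obtain ⟨c, hc⟩ := h1
    rw [hc, pow_mul, pow_card_eq_one', one_pow]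

theorem act_of_K {o : Set P} {k : ∀ l, D.G l} (hk : ∀ l, k l ∈ D.K o l) {p : P} (hp : p ∈ o)
    (h : ∀ l, D.G l) : D.act k (D.act h p) = D.act h p := by
  classical
  have key : ∀ S : Finset (Fin m), D.act (fun l => if l ∈ S then k l else 1) (D.act h p) = D.act h p := by
    intro S
    induction S using Finset.induction_on with
    | empty =>
      have : (fun l => if l ∈ (∅ : Finset (Fin m)) then k l else 1) = (1 : ∀ l, D.G l) := by
        funext l
        simp
      rw [this, map_one, Equiv.Perm.one_apply]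
    | insert l S hl ih =>
      have : (fun l' => if l' ∈ insert l S then k l' else 1) =
          Pi.mulSingle l (k l) * (fun l' => if l' ∈ S then k l' else (1 : D.G l')) := by
        funext l'
        rw [Pi.mul_apply]
        by_cases h' : l' = l
        · subst h'
          simp [hl]
        · rw [Pi.mulSingle_eq_of_ne h', one_mul]
          simp [Finset.mem_insert, h']
      rw [this, map_mul, Equiv.Perm.mul_apply, ih]
      exact hk l p hp h
  have h1 := key Finset.univ
  have h2 : (fun l => if l ∈ (Finset.univ : Finset (Fin m)) then k l else 1) = k := by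
    funext l
    simp
  rw [h2] at h1
  exact h1

theorem act_cl {o : Set P} {g g' : ∀ l, D.G l} (hg : D.cl o g = D.cl o g') {p : P} (hp : p ∈ o)
    (h : ∀ l, D.G l) : D.act g (D.act h p) = D.act g' (D.act h p) := by
  have h1 : ∀ l, (g⁻¹ * g') l ∈ D.K o l := by
    intro l
    have := congrFun hg l
    exact QuotientGroup.eq.1 this
  have h2 : g' = g * (g⁻¹ * g') := by group
  rw [h2, map_mul, Equiv.Perm.mul_apply, act_of_K D h1 hp h]

theorem cl_rp {o : Set P} (q : D.Q o) : D.cl o (D.rp q) = q :=
  funext fun l => QuotientGroup.out_eq' (q l)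

theorem act_rp (o : Set P) {p : P} (hp : p ∈ o) (g h : ∀ l, D.G l) :
    D.act (D.rp (D.cl o g)) (D.act h p) = D.act g (D.act h p) :=
  act_cl D (cl_rp D (D.cl o g)) hp h

theorem cl_up (o : Set P) (g g' : ∀ l, D.G l) (l : Fin m) :
    D.cl o (g * Pi.mulSingle l ((g⁻¹ * g') l)) = Function.update (D.cl o g) l (D.cl o g' l) := by
  funext l'
  by_cases h : l' = l
  · subst h
    rw [Function.update_self]
    unfold Pd.cl
    congr 1
    rw [Pi.mul_apply, Pi.mulSingle_eq_same, Pi.mul_apply, Pi.inv_apply, mul_inv_cancel_left]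
  · rw [Function.update_of_ne h]
    unfold Pd.cl
    congr 1
    rw [Pi.mul_apply, Pi.mulSingle_eq_of_ne h, mul_one]

theorem cl_ml {o : Set P} (σ : ∀ l, D.G l) (g : ∀ l, D.G l) : D.ml σ (D.cl o g) = D.cl o (σ * g) := by
  funext l
  rfl

end Pool.Agent.H29.NS
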