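import Pool.Agent.H29.NS.Tau
import Pool.Agent.H29.NS.Grp

/-!
# [H29 NS Be] the monotone nodes

PROOFS (rules: Nar, Tau; a fact `Rf T C [pl x, mi y]` reads `x → y`, `Rf T C [pl x, pl y]` reads `not both`; `(pl x).neg = mi x` and `(mi x).neg = pl x` by `rfl`).
* `be_down`: induction on `s'`: `Rf.andT` for `be (s' + 1) l x` (member `pl (be s' l x)`), transitivity by `Rf.taut2`; `s' = s`: `Rf.triv`.
* `be_D`: `Rf.andT` with the member `mi (Dn s l x)`. `be_bb`: `Rf.andT` for `bb s o l x` with the member `mi (be s l x)`.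
* `Y_pre`: induction on `r'` (`gY`, member `pl (Y s o r q)`). `Y_bb`: `Y_pre` to `r = l + 1`, then `Rf.andT` with the member `mi (bb ..)` (`⟨l.1, _⟩ = l`).
* `Y_mk`: induction on `r`: `r = 0`: `Rf.andF` for `Y s o 0 q` (no members). `r + 1`: `Rf.andF` for `mi (Y s o (r+1) q) :: Γ`: members: `pl (Y s o r q)`: the list
  `mi (Y s o r q) :: mi (Y s o (r+1) q) :: Γ` by the induction hypothesis and `Rf.mono`; `mi (bb ..)`: `pl (bb ..) :: mi (Y ..) :: Γ` by `h` and `Rf.mono`.
* `Y_eq`: `Y_mk` for `q'` with `Γ = [pl (Y s o r q)]`, `Y_bb` and `Rf.mono` (rewrite with `h`), then exchange the two members (`Rf.mono`).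
* `E_down`: induction on `j`: `gE1` or `gE2`. `E_Y`: `E_down` to `0`, `gE0`.
-/

set_option autoImplicit false

open Set

namespace Pool.Agent.H29.NS

open Pool.Agent.H42.CS

variable {Rel : ℕ → Type} {P : Type} {m : ℕ} {T : Set (Ax Rel)} {D : Pd P m} {C : Circuit Rel P} {L k : ℕ}
  {a : ℕ → Atom Rel P} (H : Gad T D C L k a)

private theorem be_trans {x y : C.N} {z : Lit C.N} (h : Rf T C [pl x, mi y]) (h' : Rf T C [pl y, z]) : Rf T C [pl x, z] := by
  refine Rf.taut2 h h' _ (by simp) fun σ h1 h2 => ?_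
  simp only [List.mem_cons, List.not_mem_nil, or_false, exists_eq_or_imp, exists_eq_left] at h1 h2 ⊢
  rcases h2 with h2 | h2
  · rcases h1 with h1 | h1
    · exact Or.inl h1
    · exfalso
      cases hy : σ y
      · exact h1 hy
      · exact h2 hy
  · exact Or.inr h2

private theorem be_swap {x y : Lit C.N} (h : Rf T C [x, y]) : Rf T C [y, x] := by
  refine Rf.mono h (fun z hz => ?_) (by simp)
  simp only [List.mem_cons, List.not_mem_nil, or_false] at hz ⊢
  exact hz.symm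

private theorem be_refl (x : C.N) : Rf T C [pl x, mi x] :=
  Rf.triv (pl x) (by simp) (by simp [Lit.neg]) (by simp)

private theorem be_ins {x y : Lit C.N} {Γ : List (Lit C.N)} (hΓ : Γ.length ≤ 12) (h : Rf T C (x :: Γ)) :
    Rf T C (x :: y :: Γ) := by
  refine Rf.mono h (fun z hz => ?_) (by simp only [List.length_cons]; omega)
  rcases List.mem_cons.1 hz with rfl | hz
  · exact List.mem_cons_self
  · exact List.mem_cons_of_mem _ (List.mem_cons_of_mem _ hz)

theorem Gad.be_down {s s' : ℕ} (hs : s ≤ s') (hs' : s' ≤ L) (l : Fin m) (x : D.G l) :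
    Rf T C [pl (H.be s' l x), mi (H.be s l x)] := by
  induction s', hs using Nat.le_induction with
  | base => exact be_refl _
  | succ t ht ih =>
    have h1 : Rf T C [pl (H.be (t + 1) l x), mi (H.be t l x)] :=
      Rf.andT (x := pl (H.be t l x)) (H.gbe t (by omega) l x) (Or.inl rfl)
    exact be_trans h1 (ih (by omega))

theorem Gad.be_D {s : ℕ} (hs : s < L) (l : Fin m) (x : D.G l) :
    Rf T C [pl (H.be (s + 1) l x), pl (H.Dn s l (x : D.G l ⧸ D.K (pts (a s)) l))] :=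
  Rf.andT (x := mi (H.Dn s l (x : D.G l ⧸ D.K (pts (a s)) l))) (H.gbe s hs l x) (Or.inr rfl)

theorem Gad.be_bb {s : ℕ} (hs : s ≤ L) {o : Set P} (ho : o.ncard ≤ k) (l : Fin m) (x : D.G l) :
    Rf T C [pl (H.be s l x), pl (H.bb s o l (x : D.G l ⧸ D.K o l))] :=
  be_swap (Rf.andT (x := mi (H.be s l x)) (H.gbb s hs o ho l (x : D.G l ⧸ D.K o l)) ⟨x, rfl, rfl⟩)

theorem Gad.Y_pre {s : ℕ} (hs : s ≤ L) {o : Set P} (ho : o.ncard ≤ k) {r r' : ℕ} (h : r ≤ r') (hr : r' ≤ m)
    (q : D.Q o) : Rf T C [pl (H.Y s o r' q), mi (H.Y s o r q)] := by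
  induction r', h using Nat.le_induction with
  | base => exact be_refl _
  | succ t ht ih =>
    have h1 : Rf T C [pl (H.Y s o (t + 1) q), mi (H.Y s o t q)] :=
      Rf.andT (x := pl (H.Y s o t q)) (H.gY s hs o ho t (by omega) q) (Or.inl rfl)
    exact be_trans h1 (ih (by omega))

theorem Gad.Y_bb {s : ℕ} (hs : s ≤ L) {o : Set P} (ho : o.ncard ≤ k) (l : Fin m) {r : ℕ} (hl : l.1 < r)
    (hr : r ≤ m) (q : D.Q o) : Rf T C [pl (H.Y s o r q), pl (H.bb s o l (q l))] := by
  have h1 : Rf T C [pl (H.Y s o (l.1 + 1) q), pl (H.bb s o l (q l))] :=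
    Rf.andT (x := mi (H.bb s o l (q l))) (H.gY s hs o ho l.1 l.2 q) (Or.inr rfl)
  exact be_trans (H.Y_pre hs ho hl hr q) h1

theorem Gad.Y_mk {s : ℕ} (hs : s ≤ L) {o : Set P} (ho : o.ncard ≤ k) {r : ℕ} (hr : r ≤ m) (q : D.Q o)
    (Γ : List (Lit C.N)) (hΓ : Γ.length ≤ 12)
    (h : ∀ l : Fin m, l.1 < r → Rf T C (pl (H.bb s o l (q l)) :: Γ)) :
    Rf T C (mi (H.Y s o r q) :: Γ) := by
  induction r with
  | zero =>
    exact Rf.andF (H.gY0 s hs o ho q) List.mem_cons_self (fun x hx => absurd hx (notMem_empty x))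
      (by simp only [List.length_cons]; omega)
  | succ r ih =>
    refine Rf.andF (H.gY s hs o ho r (by omega) q) List.mem_cons_self (fun x hx => ?_)
      (by simp only [List.length_cons]; omega)
    rcases hx with rfl | hx
    · exact be_ins hΓ (ih (by omega) fun l hl => h l (by omega))
    · rw [mem_singleton_iff.1 hx]
      exact be_ins hΓ (h ⟨r, by omega⟩ (Nat.lt_succ_self r))

theorem Gad.Y_eq {s : ℕ} (hs : s ≤ L) {o : Set P} (ho : o.ncard ≤ k) {r : ℕ} (hr : r ≤ m) {q q' : D.Q o}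
    (h : ∀ l : Fin m, l.1 < r → q l = q' l) : Rf T C [pl (H.Y s o r q), mi (H.Y s o r q')] := by
  refine be_swap (H.Y_mk hs ho hr q' [pl (H.Y s o r q)] (by simp) fun l hl => ?_)
  rw [← h l hl]
  exact be_swap (H.Y_bb hs ho l hl hr q)

theorem Gad.E_down {s : ℕ} (hs : s < L) {i j : ℕ} (hij : i ≤ j) (hj : j ≤ L) (q : D.Q (pts (a s))) :
    Rf T C [pl (H.E s j q), mi (H.E s i q)] := by
  induction j, hij using Nat.le_induction with
  | base => exact be_refl _
  | succ t ht ih =>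
    have h1 : Rf T C [pl (H.E s (t + 1) q), mi (H.E s t q)] := by
      by_cases hO : D.Orb (a s) (a t)
      · exact Rf.andT (x := pl (H.E s t q)) (H.gE1 s hs t (by omega) hO q) (Or.inl rfl)
      · exact Rf.andT (x := pl (H.E s t q)) (H.gE2 s hs t (by omega) hO q) rfl
    exact be_trans h1 (ih (by omega))

theorem Gad.E_Y {s : ℕ} (hs : s < L) {j : ℕ} (hj : j ≤ L) (q : D.Q (pts (a s))) :
    Rf T C [pl (H.E s j q), mi (H.Y s (pts (a s)) m q)] :=
  be_trans (H.E_down hs (Nat.zero_le j) hj q)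
    (Rf.andT (x := pl (H.Y s (pts (a s)) m q)) (H.gE0 s hs q) rfl)

end Pool.Agent.H29.NS
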