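import Pool.Agent.H29.NS.ExY

/-!
# [H29 NS ExE] existence, the comparisons

`exE`: induction on `j`. `j = 0`: for every `q`: `[pl (Y s o m q), pl (ZE s 0)]` (`o = pts (a s)`; `Rf.andF` for `E s 0 q` (`gE0`), `Rf.andT` for `ZE s 0` with the member `mi (E s 0 q)`), then `Rf.andF` for `mi (ZY s o m) :: [pl (ZE s 0)]` (`gZY`) and `Rf.cut` with `h0`.
`j → j + 1`, `Orb (a s) (a j)`: write `Z' = ZE s (j+1)`. For every `q`: (1) `[pl (U s j q), pl Z']`: `U → E s j q`, `U → ¬ V` (`Rf.andT`, `gU`); `K → V` (`gK`), so `¬ K`; `Rf.andF` for `E s (j+1) q` (`gE1`): `[pl (E s j q), mi (K s j q), mi (E s (j+1) q)]`; `Z' → ¬ E s (j+1) q`. In steps with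
`Rf.taut2`, `Rf.taut3`: `[pl (U s j q), pl (K s j q)]`, `[pl (U s j q), mi (E s (j+1) q)]`, then (1). (2) `[mi (b s j), pl Z']`: `Rf.andF` for `b s j` (`gb`, members `mi (U s j q)`). (3) `[pl (E s j q), pl Z']`: `E s j q` and `¬ E s (j+1) q` give `K s j q`, which gives `¬ b s j` (`Rf.andT`), contradiction to (2).
(4) `Rf.andF` for `mi (ZE s j) :: [pl Z']` (`gZE`) with (3), `Rf.cut` with the induction hypothesis. `¬ Orb`: `gE2`: `E s j q → E s (j+1) q`, as (3), (4).

`ex_all`: induction on `s`: `Zx 0 l`: for `x = 1`: `Rf.andT` for `Zx 0 l`: `[pl Zx, pl (be 0 l 1)]`; `[mi (be 0 l 1)]` by `Rf.andF` (`gbe0`). Step: `exY` for `o = pts (a s)` (`H.cd`), `exE`, `exB`.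
-/

set_option autoImplicit false

open Set

namespace Pool.Agent.H29.NS

open Pool.Agent.H42.CS

variable {Rel : ℕ → Type} {P : Type} {m : ℕ} {T : Set (Ax Rel)} {D : Pd P m} {C : Circuit Rel P} {L k : ℕ}
  {a : ℕ → Atom Rel P} (H : Gad T D C L k a)

private theorem xresE {l f g : List (Lit C.N)} (n : C.N) (h : Rf T C f) (hf : ∀ y ∈ f, y ∈ pl n :: l)
    (h' : Rf T C g) (hg : ∀ y ∈ g, y ∈ mi n :: l) (hw : l.length ≤ 15) : Rf T C l :=
  Rf.cut (pl n) (h.mono hf (by rw [List.length_cons]; omega))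
    (h'.mono hg (by rw [List.length_cons]; omega)) (by omega)

theorem Gad.exE {s : ℕ} (hs : s < L) (h0 : Rf T C [pl (H.ZY s (pts (a s)) m)]) :
    ∀ j ≤ L, Rf T C [pl (H.ZE s j)] := by
  intro j
  induction j with
  | zero =>
    intro _
    have ho := H.cd s hs
    have c1 : ∀ q : D.Q (pts (a s)), Rf T C [pl (H.Y s (pts (a s)) m q), pl (H.ZE s 0)] := by
      intro q
      have a1 : Rf T C [mi (H.E s 0 q), pl (H.Y s (pts (a s)) m q)] := by
        refine Rf.andF (H.gE0 s hs q) (by simp) (fun x hx => ?_) (by simp)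
        rw [mem_singleton_iff.1 hx]
        exact Rf.triv (pl (H.Y s (pts (a s)) m q)) (by simp) List.mem_cons_self (by simp)
      have a2 : Rf T C [pl (H.ZE s 0), pl (H.E s 0 q)] :=
        Rf.andT (x := mi (H.E s 0 q)) (H.gZE s hs 0 (Nat.zero_le _)) ⟨q, rfl⟩
      exact xresE (H.E s 0 q) a2 (by simp) a1 (by simp) (by simp)
    have c2 : Rf T C [mi (H.ZY s (pts (a s)) m), pl (H.ZE s 0)] := by
      refine Rf.andF (H.gZY s hs.le _ ho m le_rfl) (by simp) (fun x hx => ?_) (by simp)
      obtain ⟨q, rfl⟩ := hx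
      exact (c1 q).mono (by simp [Lit.neg]) (by simp)
    exact xresE (H.ZY s (pts (a s)) m) h0 (by simp) c2 (by simp) (by simp)
  | succ j ih =>
    intro hj
    have hjL : j < L := hj
    have c3 : ∀ q : D.Q (pts (a s)), Rf T C [pl (H.E s j q), pl (H.ZE s (j + 1))] := by
      by_cases hO : D.Orb (a s) (a j)
      · have a4 : ∀ q : D.Q (pts (a s)), Rf T C [mi (H.E s (j + 1) q), pl (H.E s j q),
            mi (H.K s j q)] := by
          intro q
          refine Rf.andF (H.gE1 s hs j hjL hO q) (by simp) (fun x hx => ?_) (by simp)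
          rcases hx with rfl | hx
          · exact Rf.triv (pl (H.E s j q)) (by simp) List.mem_cons_self (by simp)
          · rw [mem_singleton_iff.1 hx]
            exact Rf.triv (mi (H.K s j q)) (by simp) List.mem_cons_self (by simp)
        have a5 : ∀ q : D.Q (pts (a s)), Rf T C [pl (H.ZE s (j + 1)), pl (H.E s (j + 1) q)] :=
          fun q => Rf.andT (x := mi (H.E s (j + 1) q)) (H.gZE s hs (j + 1) hj) ⟨q, rfl⟩
        have b1 : ∀ q : D.Q (pts (a s)), Rf T C [pl (H.U s j q), pl (H.ZE s (j + 1))] := by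
          intro q
          have a1 : Rf T C [pl (H.U s j q), mi (H.E s j q)] :=
            Rf.andT (x := pl (H.E s j q)) (H.gU s hs j hjL hO q) (by simp)
          have a2 : Rf T C [pl (H.U s j q), pl (H.V (D.ga (D.rp q) (a j)))] :=
            Rf.andT (x := mi (H.V (D.ga (D.rp q) (a j)))) (H.gU s hs j hjL hO q) (by simp)
          have a3 : Rf T C [pl (H.K s j q), mi (H.V (D.ga (D.rp q) (a j)))] :=
            Rf.andT (x := pl (H.V (D.ga (D.rp q) (a j)))) (H.gK s hs j hjL hO q) (by simp)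
          have d1 : Rf T C [pl (H.U s j q), pl (H.K s j q)] :=
            xresE (H.V (D.ga (D.rp q) (a j))) a2 (by simp) a3 (by simp) (by simp)
          have d2 : Rf T C [pl (H.U s j q), mi (H.E s (j + 1) q)] := by
            refine xresE (H.K s j q) (f := pl (H.K s j q) ::
              [pl (H.U s j q), mi (H.E s (j + 1) q)]) ?_ (by simp) (g := mi (H.K s j q) ::
              [pl (H.U s j q), mi (H.E s (j + 1) q)]) ?_ (by simp) (by simp)
            · exact d1.mono (by simp) (by simp)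
            · exact xresE (H.E s j q) (a4 q) (by simp) a1 (by simp) (by simp)
          exact xresE (H.E s (j + 1) q) (a5 q) (by simp) d2 (by simp) (by simp)
        have b2 : Rf T C [mi (H.b s j), pl (H.ZE s (j + 1))] := by
          refine Rf.andF (H.gb s hs j hjL hO) (by simp) (fun x hx => ?_) (by simp)
          obtain ⟨q, rfl⟩ := hx
          exact (b1 q).mono (by simp [Lit.neg]) (by simp)
        intro q
        have a6 : Rf T C [pl (H.K s j q), pl (H.b s j)] :=
          Rf.andT (x := mi (H.b s j)) (H.gK s hs j hjL hO q) (by simp)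
        have d3 : Rf T C [pl (H.K s j q), pl (H.ZE s (j + 1))] :=
          xresE (H.b s j) a6 (by simp) b2 (by simp) (by simp)
        have d4 : Rf T C [mi (H.K s j q), pl (H.E s j q), pl (H.ZE s (j + 1))] :=
          xresE (H.E s (j + 1) q) (a5 q) (by simp) (a4 q) (by simp) (by simp)
        exact xresE (H.K s j q) d3 (by simp) d4 (by simp) (by simp)
      · intro q
        have a4 : Rf T C [mi (H.E s (j + 1) q), pl (H.E s j q)] := by
          refine Rf.andF (H.gE2 s hs j hjL hO q) (by simp) (fun x hx => ?_) (by simp)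
          rw [mem_singleton_iff.1 hx]
          exact Rf.triv (pl (H.E s j q)) (by simp) List.mem_cons_self (by simp)
        have a5 : Rf T C [pl (H.ZE s (j + 1)), pl (H.E s (j + 1) q)] :=
          Rf.andT (x := mi (H.E s (j + 1) q)) (H.gZE s hs (j + 1) hj) ⟨q, rfl⟩
        exact xresE (H.E s (j + 1) q) a5 (by simp) a4 (by simp) (by simp)
    have c4 : Rf T C [mi (H.ZE s j), pl (H.ZE s (j + 1))] := by
      refine Rf.andF (H.gZE s hs j hjL.le) (by simp) (fun x hx => ?_) (by simp)
      obtain ⟨q, rfl⟩ := hx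
      exact (c3 q).mono (by simp [Lit.neg]) (by simp)
    exact xresE (H.ZE s j) (ih hjL.le) (by simp) c4 (by simp) (by simp)

theorem Gad.ex_be {s : ℕ} (hs : s ≤ L) (l : Fin m) : Rf T C [pl (H.Zx s l)] := by
  induction s generalizing l with
  | zero =>
    have h1 : Rf T C [pl (H.Zx 0 l), pl (H.be 0 l 1)] :=
      Rf.andT (x := mi (H.be 0 l 1)) (H.gZx 0 hs l) ⟨1, rfl⟩
    have h2 : Rf T C [mi (H.be 0 l 1)] :=
      Rf.andF (H.gbe0 l 1) (by simp) (fun x hx => absurd hx (notMem_empty _)) (by simp)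
    exact xresE (H.be 0 l 1) h1 (by simp) h2 (by simp) (by simp)
  | succ s ih =>
    have hs' : s < L := hs
    exact H.exB hs' (H.exE hs' (H.exY hs'.le (fun l => ih hs'.le l) (H.cd s hs') m le_rfl) L le_rfl) l

theorem Gad.ex_Y {s : ℕ} (hs : s ≤ L) {o : Set P} (ho : o.ncard ≤ k) {r : ℕ} (hr : r ≤ m) :
    Rf T C [pl (H.ZY s o r)] := by
  exact H.exY hs (fun l => H.ex_be hs l) ho r hr

theorem Gad.ex_E {s : ℕ} (hs : s < L) {j : ℕ} (hj : j ≤ L) : Rf T C [pl (H.ZE s j)] := by
  exact H.exE hs (H.ex_Y hs.le (H.cd s hs) le_rfl) j hj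

end Pool.Agent.H29.NS
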