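import Pool.Agent.H29.NS.Mix
import Pool.Agent.H29.NS.ExE

/-!
# [H29 NS Can] the allowed classes give the canonical structure

`can_E`: `o = pts (a s)`. (1) for every `q` and factor `l`: `[pl (Y L o m q), pl (Dn s l (q l))]`: `Y L o m q` → not `bb L o l (q l)` (`Y_bb`); for every `x` with class `q l`: `be L l x → be (s+1) l x` (`be_down`) → not `Dn s l (q l)` (`be_D`): `Rf.andF` for `mi (bb L o l (q l)) :: [pl (Dn s l (q l))]` (`gbb`), `Rf.taut2`.
(2) for every `z` and `r ≤ m` let `z_r` have the components `q l` for `l < r` and `z l` for `l ≥ r` (`fun l => if l.1 < r then q l else z l`): `[pl (E s L z), pl (Y L o m q), mi (E s L z_r)]` by induction on `r`: `z_0 = z`: `Rf.triv`; `z_(r+1) = Function.update z_r ⟨r,_⟩ (q ⟨r,_⟩)`: `mixD` for `z_r` and (1): `Rf.taut3`.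
(3) `r = m`: `z_m = q`. `Rf.andF` for `mi (ZE s L) :: [pl (Y L o m q), mi (E s L q)]` (`gZE`), and `ex_E` (`[pl (ZE s L)]`), `Rf.cut`.
`can1`, `can2`: `can_E` with `E_b`, `b_E` for `j = s` (`orb_self`).
`Y_res`: `Y_mk` for `o'` with `Γ = [pl (Y L o m q)]`: for every `l`: `[pl (bb L o' l (res q l)), pl (Y L o m q)]`: for `x` with class `q l` for `o`, its class for `o'` is `res q l` (`Subgroup.quotientMapOfLE`, `rfl` after `subst`): `be_bb` for `o'`; `Rf.andF` for `mi (bb L o l (q l)) :: [pl (bb L o' l (res q l))]` (`gbb`), `Y_bb`.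
-/

set_option autoImplicit false

open Set

namespace Pool.Agent.H29.NS

open Pool.Agent.H42.CS

variable {Rel : ℕ → Type} {P : Type} {m : ℕ} {T : Set (Ax Rel)} {D : Pd P m} {C : Circuit Rel P} {L k : ℕ}
  {a : ℕ → Atom Rel P} (H : Gad T D C L k a)

private theorem can_cut {f g l : List (Lit C.N)} (x : Lit C.N) (hf : Rf T C f) (hg : Rf T C g)
    (h1 : ∀ y ∈ f, y = x ∨ y ∈ l) (h2 : ∀ y ∈ g, y = x.neg ∨ y ∈ l) (hw : l.length ≤ 15) :
    Rf T C l :=
  Rf.cut x (hf.mono (fun y hy => List.mem_cons.2 (h1 y hy)) (by rw [List.length_cons]; omega))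
    (hg.mono (fun y hy => List.mem_cons.2 (h2 y hy)) (by rw [List.length_cons]; omega)) (by omega)

private theorem can_D {s : ℕ} (hs : s < L) (q : D.Q (pts (a s))) (l : Fin m) :
    Rf T C [pl (H.Y L (pts (a s)) m q), pl (H.Dn s l (q l))] := by
  have ho := H.cd s hs
  have h1 := H.Y_bb le_rfl ho l l.2 le_rfl q
  have h2 : Rf T C [mi (H.bb L (pts (a s)) l (q l)), pl (H.Dn s l (q l))] := by
    refine Rf.andF (H.gbb L le_rfl _ ho l (q l)) (by simp) ?_ (by simp)
    rintro z ⟨x, hx, rfl⟩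
    have e1 := H.be_down (Nat.succ_le_of_lt hs) le_rfl l x
    have e2 := H.be_D hs l x
    rw [hx] at e2
    exact can_cut (pl (H.be (s + 1) l x)) e2 e1 (by simp) (by simp [Lit.neg]) (by simp)
  exact can_cut (pl (H.bb L (pts (a s)) l (q l))) h1 h2 (by simp) (by simp [Lit.neg]) (by simp)

private theorem can_z {s : ℕ} (hs : s < L) (q z : D.Q (pts (a s))) :
    ∀ r ≤ m, Rf T C [pl (H.E s L z), pl (H.Y L (pts (a s)) m q),
      mi (H.E s L (fun l => if l.1 < r then q l else z l))] := by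
  intro r
  induction r with
  | zero =>
    intro _
    have e : (fun l : Fin m => if l.1 < 0 then q l else z l) = z := by
      funext l
      rw [if_neg (Nat.not_lt_zero _)]
    rw [e]
    exact Rf.triv (pl (H.E s L z)) (by simp) (by simp [Lit.neg]) (by simp)
  | succ r ih =>
    intro hr
    have hrm : r < m := hr
    have ih := ih hrm.le
    have e : (fun l : Fin m => if l.1 < r + 1 then q l else z l) =
        Function.update (fun l : Fin m => if l.1 < r then q l else z l) ⟨r, hrm⟩ (q ⟨r, hrm⟩) := by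
      funext l
      by_cases hl : l = ⟨r, hrm⟩
      · subst hl
        rw [Function.update_self, if_pos (Nat.lt_succ_self _)]
      · rw [Function.update_of_ne hl]
        have hl' : l.1 ≠ r := fun h => hl (Fin.ext h)
        by_cases h2 : l.1 < r
        · rw [if_pos h2, if_pos (by omega)]
        · rw [if_neg h2, if_neg (by omega)]
    rw [e]
    have e1 := H.mixD hs (fun l : Fin m => if l.1 < r then q l else z l) ⟨r, hrm⟩ (q ⟨r, hrm⟩)
    have e2 := can_D H hs q ⟨r, hrm⟩
    have e3 : Rf T C [pl (H.E s L (fun l : Fin m => if l.1 < r then q l else z l)),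
        pl (H.Y L (pts (a s)) m q),
        mi (H.E s L (Function.update (fun l : Fin m => if l.1 < r then q l else z l) ⟨r, hrm⟩
          (q ⟨r, hrm⟩)))] :=
      can_cut (pl (H.Dn s ⟨r, hrm⟩ (q ⟨r, hrm⟩))) e2 e1 (by simp) (by simp [Lit.neg]) (by simp)
    exact can_cut (pl (H.E s L (fun l : Fin m => if l.1 < r then q l else z l))) e3 ih
      (by simp) (by simp [Lit.neg]) (by simp)

theorem Gad.can_E {s : ℕ} (hs : s < L) (q : D.Q (pts (a s))) :
    Rf T C [pl (H.Y L (pts (a s)) m q), mi (H.E s L q)] := by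
  have h1 : Rf T C [mi (H.ZE s L), pl (H.Y L (pts (a s)) m q), mi (H.E s L q)] := by
    refine Rf.andF (H.gZE s hs L le_rfl) (by simp) ?_ (by simp)
    rintro y ⟨z, rfl⟩
    have e := can_z H hs q z m le_rfl
    have e2 : (fun l : Fin m => if l.1 < m then q l else z l) = q := by
      funext l
      rw [if_pos l.2]
    rw [e2] at e
    exact e.mono (by simp [Lit.neg]) (by simp)
  exact can_cut (pl (H.ZE s L)) (H.ex_E hs le_rfl) h1 (by simp) (by simp [Lit.neg]) (by simp)

theorem Gad.can1 {s : ℕ} (hs : s < L) (q : D.Q (pts (a s))) :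
    Rf T C [pl (H.Y L (pts (a s)) m q), pl (H.V (D.ga (D.rp q) (a s))), mi (H.b s s)] := by
  exact can_cut (pl (H.E s L q)) (H.E_b hs hs (orb_self D _) q) (H.can_E hs q) (by simp)
    (by simp [Lit.neg]) (by simp)

theorem Gad.can2 {s : ℕ} (hs : s < L) (q : D.Q (pts (a s))) :
    Rf T C [pl (H.Y L (pts (a s)) m q), mi (H.V (D.ga (D.rp q) (a s))), pl (H.b s s)] := by
  exact can_cut (pl (H.E s L q)) (H.b_E hs hs (orb_self D _) q) (H.can_E hs q) (by simp)
    (by simp [Lit.neg]) (by simp)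

theorem Gad.Y_res {o o' : Set P} (ho : o.ncard ≤ k) (ho' : o'.ncard ≤ k) (h : ∀ l, D.K o l ≤ D.K o' l)
    (q : D.Q o) : Rf T C [pl (H.Y L o m q), mi (H.Y L o' m (D.res h q))] := by
  have h0 : Rf T C (mi (H.Y L o' m (D.res h q)) :: [pl (H.Y L o m q)]) := by
    refine H.Y_mk le_rfl ho' le_rfl (D.res h q) [pl (H.Y L o m q)] (by simp) ?_
    intro l _
    have h1 := H.Y_bb le_rfl ho l l.2 le_rfl q
    have h2 : Rf T C [mi (H.bb L o l (q l)), pl (H.bb L o' l (D.res h q l))] := by
      refine Rf.andF (H.gbb L le_rfl _ ho l (q l)) (by simp) ?_ (by simp)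
      rintro z ⟨x, hx, rfl⟩
      have e1 := H.be_bb le_rfl ho' l x
      have e2 : (x : D.G l ⧸ D.K o' l) = D.res h q l := by
        show (x : D.G l ⧸ D.K o' l) = Subgroup.quotientMapOfLE (h l) (q l)
        rw [← hx]
        rfl
      rw [e2] at e1
      exact e1.mono (by simp [Lit.neg]) (by simp)
    exact can_cut (pl (H.bb L o l (q l))) h1 h2 (by simp) (by simp [Lit.neg]) (by simp)
  exact h0.mono (by simp) (by simp)

end Pool.Agent.H29.NS
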