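import Pool.Agent.H29.NS.Defs

/-!
# [H29 NS Cir] THEOREM NIL: the circuit of the gadget (definitions, and the number of its nodes)

`Nod D a`: the names of the nodes, with natural numbers as indices; `gt` the gate of a name, `Good` the names which are used, `mk` the
node of a name (`tt` if the name is not good), `cir` the circuit; the gate of `mk x` is the gate of the name `x` (if `x` is good).

PROOF of `good_card`. `1 ≤ B` (`h1`). The set of the good names is contained in the union of 16 sets, one for each constructor, each the range of a function on a finite type with at most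
`B ^ 4` elements (a private lemma: if `S ⊆ range f`, `f : α → β`, `Finite α`, `Nat.card α ≤ c`, then `S.Finite ∧ S.ncard ≤ c`; a second one for unions: `Set.ncard_union_le`): `tt`: `Unit`; `V`, `cv`: `Fin L`; `be`: `Fin (L + 1) × Σ l, D.G l`
(`Nat.card (Σ l, D.G l) = ∑ l, Nat.card (D.G l) ≤ m * B`, `Nat.card_sigma`); `bb`: `Fin (L + 1) × Σ o : {o : Set P // o.ncard ≤ k}, Σ l, D.G l ⧸ D.K o l` (`Subgroup.card_quotient_dvd_card` or `Nat.card_le_card_of_surjective` for the quotients); `Y`: `Fin (L + 1) × Fin (m + 1) × Σ o, D.Q o`;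
`E`, `U`, `K`: `Fin (L + 1) × Σ s : Fin L, D.Q (pts (a s))` (`h5` with `h.cd`); `b`, `ZE`: `Fin L × Fin (L + 1)`; `Dn`: `Σ s : Fin L, Σ l, D.G l ⧸ D.K (pts (a s)) l`; `Zx`: `Fin (L + 1) × Fin m`; `ZY`: `Fin (L + 1) × {o // o.ncard ≤ k} × Fin (m + 1)`;
`W`, `W0`: `Σ A : T, (Fin A.1.k → P)`. (`h.fP`, `h.fT.to_subtype` give the instances.)
-/

set_option autoImplicit false

open Set

namespace Pool.Agent.H29.NS

open Pool.Agent.H42.CS

variable {Rel : ℕ → Type} {P : Type} {m : ℕ}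

/-- the names of the nodes -/
inductive Nod (D : Pd P m) (a : ℕ → Atom Rel P) : Type
  | tt
  | V (x : Atom Rel P)
  | be (s : ℕ) (l : Fin m) (x : D.G l)
  | bb (s : ℕ) (o : Set P) (l : Fin m) (y : D.G l ⧸ D.K o l)
  | Y (s : ℕ) (o : Set P) (r : ℕ) (q : D.Q o)
  | E (s j : ℕ) (q : D.Q (pts (a s)))
  | U (s j : ℕ) (q : D.Q (pts (a s)))
  | b (s j : ℕ)
  | K (s j : ℕ) (q : D.Q (pts (a s)))
  | Dn (s : ℕ) (l : Fin m) (y : D.G l ⧸ D.K (pts (a s)) l)
  | Zx (s : ℕ) (l : Fin m)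
  | ZY (s : ℕ) (o : Set P) (r : ℕ)
  | ZE (s j : ℕ)
  | cv (x : Atom Rel P)
  | W (A : Ax Rel) (v : Fin A.k → P)
  | W0 (A : Ax Rel) (v : Fin A.k → P)

/-- the gate of a name -/
def gt (D : Pd P m) (L : ℕ) (a : ℕ → Atom Rel P) : Nod D a → Gate (Atom Rel P) (Nod D a)
  | .tt => .and ∅
  | .V x => .var x
  | .be 0 _ _ => .and ∅
  | .be (s + 1) l x => .and {pl (.be s l x), mi (.Dn s l (x : D.G l ⧸ D.K (pts (a s)) l))}
  | .bb s o l y => .and {z | ∃ x : D.G l, (x : D.G l ⧸ D.K o l) = y ∧ z = mi (.be s l x)}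
  | .Y _ _ 0 _ => .and ∅
  | .Y s o (r + 1) q => .and {z | z = pl (.Y s o r q) ∨ ∃ h : r < m, z = mi (.bb s o ⟨r, h⟩ (q ⟨r, h⟩))}
  | .E s 0 q => .and {pl (.Y s (pts (a s)) m q)}
  | .E s (j + 1) q => .and {z | z = pl (.E s j q) ∨ D.Orb (a s) (a j) ∧ z = mi (.K s j q)}
  | .U s j q => .and {z | D.Orb (a s) (a j) ∧ (z = pl (.E s j q) ∨ z = mi (.V (D.ga (D.rp q) (a j))))}
  | .b s j => .and (range fun q => mi (.U s j q))
  | .K s j q => .and {z | D.Orb (a s) (a j) ∧ (z = pl (.V (D.ga (D.rp q) (a j))) ∨ z = mi (.b s j))}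
  | .Dn s l y => .and {z | ∃ q : D.Q (pts (a s)), q l = y ∧ z = mi (.E s L q)}
  | .Zx s l => .and (range fun x => mi (.be s l x))
  | .ZY s o r => .and (range fun q => mi (.Y s o r q))
  | .ZE s j => .and (range fun q => mi (.E s j q))
  | .cv x => .and {z | ∃ s < L, x = a s ∧ z = pl (.b s s)}
  | .W A v => .and {z | ∃ x ∈ A.inst v, z = ⟨.cv x.1, !x.2⟩}
  | .W0 A v => .and {z | ∃ x ∈ A.inst v, z = ⟨.V x.1, !x.2⟩}

/-- the level of a name -/
def rk (D : Pd P m) (L : ℕ) (a : ℕ → Atom Rel P) : Nod D a → ℕ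
  | .tt => 0
  | .V _ => 0
  | .be s _ _ => s * (m + 4 * L + 10) + 1
  | .bb s _ _ _ => s * (m + 4 * L + 10) + 2
  | .Y s _ r _ => s * (m + 4 * L + 10) + 3 + r
  | .E s j _ => s * (m + 4 * L + 10) + m + 4 + 4 * j
  | .U s j _ => s * (m + 4 * L + 10) + m + 5 + 4 * j
  | .b s j => s * (m + 4 * L + 10) + m + 6 + 4 * j
  | .K s j _ => s * (m + 4 * L + 10) + m + 7 + 4 * j
  | .Dn s _ _ => s * (m + 4 * L + 10) + m + 5 + 4 * L
  | .Zx s _ => s * (m + 4 * L + 10) + 2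
  | .ZY s _ r => s * (m + 4 * L + 10) + 4 + r
  | .ZE s j => s * (m + 4 * L + 10) + m + 5 + 4 * j
  | .cv _ => L * (m + 4 * L + 10) + 1
  | .W _ _ => L * (m + 4 * L + 10) + 2
  | .W0 _ _ => 1

/-- the names in use -/
def Good (T : Set (Ax Rel)) (D : Pd P m) (L k : ℕ) (a : ℕ → Atom Rel P) : Nod D a → Prop
  | .tt => True
  | .V x => ∃ s < L, x = a s
  | .be s _ _ => s ≤ L
  | .bb s o _ _ => s ≤ L ∧ o.ncard ≤ k
  | .Y s o r _ => s ≤ L ∧ o.ncard ≤ k ∧ r ≤ m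
  | .E s j _ => s < L ∧ j ≤ L
  | .U s j _ => s < L ∧ j < L
  | .b s j => s < L ∧ j < L
  | .K s j _ => s < L ∧ j < L
  | .Dn s _ _ => s < L
  | .Zx s _ => s ≤ L
  | .ZY s o r => s ≤ L ∧ o.ncard ≤ k ∧ r ≤ m
  | .ZE s j => s < L ∧ j ≤ L
  | .cv x => ∃ s < L, x = a s
  | .W A _ => A ∈ T
  | .W0 A _ => A ∈ T

/-- the data of the canonisation: `a 0, …, a (L - 1)` are all atoms of `T`, without repetition -/
structure Dat (T : Set (Ax Rel)) (D : Pd P m) (L k : ℕ) (a : ℕ → Atom Rel P) : Prop where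
  fP : Finite P
  fT : T.Finite
  st : ∀ s < L, ∀ g, ∃ s' < L, D.ga g (a s) = a s'
  inj : ∀ s < L, ∀ s' < L, a s = a s' → s = s'
  cd : ∀ s < L, (pts (a s)).ncard ≤ k
  inst : ∀ A ∈ T, ∀ (v : Fin A.k → P), ∀ x ∈ A.inst v, ∃ s < L, x.1 = a s
  vk : ∀ A ∈ T, A.k + 1 ≤ k

/-- the nodes -/
abbrev Gn (T : Set (Ax Rel)) (D : Pd P m) (L k : ℕ) (a : ℕ → Atom Rel P) : Type := {x : Nod D a // Good T D L k a x}

open Classical in
/-- the node of a name -/
noncomputable def mk (T : Set (Ax Rel)) (D : Pd P m) (L k : ℕ) (a : ℕ → Atom Rel P) (x : Nod D a) : Gn T D L k a :=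
  if h : Good T D L k a x then ⟨x, h⟩ else ⟨.tt, trivial⟩

theorem mk_good {T : Set (Ax Rel)} {D : Pd P m} {L k : ℕ} {a : ℕ → Atom Rel P} {x : Nod D a}
    (h : Good T D L k a x) : mk T D L k a x = ⟨x, h⟩ := dif_pos h

theorem mk_bad {T : Set (Ax Rel)} {D : Pd P m} {L k : ℕ} {a : ℕ → Atom Rel P} {x : Nod D a}
    (h : ¬ Good T D L k a x) : mk T D L k a x = ⟨.tt, trivial⟩ := dif_neg h

theorem rk_mk (T : Set (Ax Rel)) (D : Pd P m) (L k : ℕ) (a : ℕ → Atom Rel P) (x : Nod D a) :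
    rk D L a (mk T D L k a x).1 ≤ rk D L a x := by
  by_cases h : Good T D L k a x
  · rw [mk_good h]
  · rw [mk_bad h]
    exact Nat.zero_le _

theorem rk_lt (D : Pd P m) (L : ℕ) (a : ℕ → Atom Rel P) (x : Nod D a) :
    ∀ y ∈ (gt D L a x).children, rk D L a y.node < rk D L a x := by
  intro y hy
  cases x with
  | tt => exact absurd hy (Set.notMem_empty _)
  | V x => exact absurd hy (Set.notMem_empty _)
  | be s l x =>
    cases s with
    | zero => exact absurd hy (Set.notMem_empty _)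
    | succ s =>
      rcases hy with rfl | rfl
      · show s * (m + 4 * L + 10) + 1 < (s + 1) * (m + 4 * L + 10) + 1
        rw [Nat.succ_mul s]
        omega
      · show s * (m + 4 * L + 10) + m + 5 + 4 * L < (s + 1) * (m + 4 * L + 10) + 1
        rw [Nat.succ_mul s]
        omega
  | bb s o l y =>
    obtain ⟨x, -, rfl⟩ := hy
    exact Nat.lt_succ_self _
  | Y s o r q =>
    cases r with
    | zero => exact absurd hy (Set.notMem_empty _)
    | succ r =>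
      rcases hy with rfl | ⟨h, rfl⟩
      · exact Nat.lt_succ_self _
      · show s * (m + 4 * L + 10) + 2 < s * (m + 4 * L + 10) + 3 + (r + 1)
        omega
  | E s j q =>
    cases j with
    | zero =>
      rcases hy with rfl
      show s * (m + 4 * L + 10) + 3 + m < s * (m + 4 * L + 10) + m + 4 + 4 * 0
      omega
    | succ j =>
      rcases hy with rfl | ⟨h, rfl⟩
      · show s * (m + 4 * L + 10) + m + 4 + 4 * j < s * (m + 4 * L + 10) + m + 4 + 4 * (j + 1)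
        omega
      · show s * (m + 4 * L + 10) + m + 7 + 4 * j < s * (m + 4 * L + 10) + m + 4 + 4 * (j + 1)
        omega
  | U s j q =>
    rcases hy with ⟨h, rfl | rfl⟩
    · show s * (m + 4 * L + 10) + m + 4 + 4 * j < s * (m + 4 * L + 10) + m + 5 + 4 * j
      omega
    · show 0 < s * (m + 4 * L + 10) + m + 5 + 4 * j
      omega
  | b s j =>
    obtain ⟨q, rfl⟩ := hy
    show s * (m + 4 * L + 10) + m + 5 + 4 * j < s * (m + 4 * L + 10) + m + 6 + 4 * j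
    omega
  | K s j q =>
    rcases hy with ⟨h, rfl | rfl⟩
    · show 0 < s * (m + 4 * L + 10) + m + 7 + 4 * j
      omega
    · show s * (m + 4 * L + 10) + m + 6 + 4 * j < s * (m + 4 * L + 10) + m + 7 + 4 * j
      omega
  | Dn s l y =>
    obtain ⟨q, -, rfl⟩ := hy
    show s * (m + 4 * L + 10) + m + 4 + 4 * L < s * (m + 4 * L + 10) + m + 5 + 4 * L
    omega
  | Zx s l =>
    obtain ⟨q, rfl⟩ := hy
    exact Nat.lt_succ_self _
  | ZY s o r =>
    obtain ⟨q, rfl⟩ := hy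
    show s * (m + 4 * L + 10) + 3 + r < s * (m + 4 * L + 10) + 4 + r
    omega
  | ZE s j =>
    obtain ⟨q, rfl⟩ := hy
    show s * (m + 4 * L + 10) + m + 4 + 4 * j < s * (m + 4 * L + 10) + m + 5 + 4 * j
    omega
  | cv x =>
    obtain ⟨s, hs, -, rfl⟩ := hy
    show s * (m + 4 * L + 10) + m + 6 + 4 * s < L * (m + 4 * L + 10) + 1
    have h1 : (s + 1) * (m + 4 * L + 10) ≤ L * (m + 4 * L + 10) := Nat.mul_le_mul_right _ hs
    rw [Nat.succ_mul s] at h1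
    omega
  | W A v =>
    obtain ⟨x, -, rfl⟩ := hy
    exact Nat.lt_succ_self _
  | W0 A v =>
    obtain ⟨x, -, rfl⟩ := hy
    exact Nat.lt_succ_self _

private theorem cir_sig {α : Type*} {β : α → Type*} [Finite α] [∀ a, Finite (β a)] {x y : ℕ}
    (hx : Nat.card α ≤ x) (hy : ∀ a, Nat.card (β a) ≤ y) : Nat.card (Σ a, β a) ≤ x * y := by
  classical
  have := Fintype.ofFinite α
  rw [Nat.card_sigma]
  refine (Finset.sum_le_card_nsmul _ _ y fun a _ => hy a).trans ?_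
  rw [smul_eq_mul, Finset.card_univ, ← Nat.card_eq_fintype_card]
  exact Nat.mul_le_mul_right _ hx

private theorem cir_prd {α β : Type*} {x y : ℕ} (hx : Nat.card α ≤ x) (hy : Nat.card β ≤ y) :
    Nat.card (α × β) ≤ x * y := by
  rw [Nat.card_prod]
  exact Nat.mul_le_mul hx hy

private theorem cir_rc {α β : Type*} [Finite α] (f : α → β) {c : ℕ} (hc : Nat.card α ≤ c) :
    (range f).Finite ∧ (range f).ncard ≤ c := by
  refine ⟨finite_range f, ?_⟩
  rw [← image_univ]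
  refine (ncard_image_le finite_univ).trans ?_
  rw [ncard_univ]
  exact hc

private theorem cir_un {β : Type*} {S S' : Set β} {c c' : ℕ} (h : S.Finite ∧ S.ncard ≤ c)
    (h' : S'.Finite ∧ S'.ncard ≤ c') : (S ∪ S').Finite ∧ (S ∪ S').ncard ≤ c + c' :=
  ⟨h.1.union h'.1, (ncard_union_le S S').trans (Nat.add_le_add h.2 h'.2)⟩

private theorem cir_fin {β : Type*} {S S' : Set β} {c c' : ℕ} (h : S'.Finite ∧ S'.ncard ≤ c') (hc : c' ≤ c)
    (hS : S ⊆ S') : S.Finite ∧ S.ncard ≤ c :=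
  ⟨h.1.subset hS, (ncard_le_ncard hS h.1).trans (h.2.trans hc)⟩

/-- the number of the good names -/
theorem good_card {T : Set (Ax Rel)} {D : Pd P m} {L k : ℕ} {a : ℕ → Atom Rel P} (h : Dat T D L k a) (B : ℕ)
    (h1 : L + 1 ≤ B) (h2 : m + 1 ≤ B) (h3 : Nat.card {o : Set P // o.ncard ≤ k} ≤ B)
    (h4 : ∀ l, Nat.card (D.G l) ≤ B) (h5 : ∀ o : Set P, o.ncard ≤ k → Nat.card (D.Q o) ≤ B)
    (h6 : Nat.card (Σ A : T, (Fin A.1.k → P)) ≤ B) :
    {x | Good T D L k a x}.Finite ∧ {x | Good T D L k a x}.ncard ≤ 16 * B ^ 4 := by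
  have hfP := h.fP
  have hfT := h.fT.to_subtype
  have hB : 1 ≤ B := by omega
  have hp : ∀ {n : ℕ}, n ≤ 4 → B ^ n ≤ B ^ 4 := fun hn => Nat.pow_le_pow_right hB hn
  have hF0 : Nat.card (Fin L) ≤ B := by
    rw [Nat.card_fin]
    omega
  have hF1 : Nat.card (Fin (L + 1)) ≤ B := by
    rw [Nat.card_fin]
    omega
  have hM0 : Nat.card (Fin m) ≤ B := by
    rw [Nat.card_fin]
    omega
  have hM1 : Nat.card (Fin (m + 1)) ≤ B := by
    rw [Nat.card_fin]
    omega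
  have hq : ∀ (o : Set P) (l : Fin m), Nat.card (D.G l ⧸ D.K o l) ≤ B := fun o l =>
    (Nat.card_le_card_of_surjective _ (QuotientGroup.mk_surjective (s := D.K o l))).trans (h4 l)
  have c0 := cir_rc (fun _ : Unit => (Nod.tt : Nod D a)) (c := B ^ 4) (by
    rw [Nat.card_unique]
    exact Nat.one_le_pow _ _ hB)
  have c1 := cir_rc (fun s : Fin L => (Nod.V (a s) : Nod D a)) (c := B ^ 4)
    (hF0.trans (by simpa using hp (n := 1) (by norm_num)))
  have c2 := cir_rc (fun i : Fin (L + 1) × Σ l, D.G l => (Nod.be i.1 i.2.1 i.2.2 : Nod D a)) (c := B ^ 4)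
    ((cir_prd hF1 (cir_sig hM0 h4)).trans (by
      rw [show B * (B * B) = B ^ 3 by ring]
      exact hp (by norm_num)))
  have c3 := cir_rc (fun i : Fin (L + 1) × Σ o : {o : Set P // o.ncard ≤ k}, Σ l, D.G l ⧸ D.K o.1 l =>
    (Nod.bb i.1 i.2.1.1 i.2.2.1 i.2.2.2 : Nod D a)) (c := B ^ 4)
    ((cir_prd hF1 (cir_sig h3 fun o => cir_sig hM0 (hq o.1))).trans (by
      rw [show B * (B * (B * B)) = B ^ 4 by ring]))
  have c4 := cir_rc (fun i : Fin (L + 1) × Fin (m + 1) × Σ o : {o : Set P // o.ncard ≤ k}, D.Q o.1 =>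
    (Nod.Y i.1 i.2.2.1.1 i.2.1 i.2.2.2 : Nod D a)) (c := B ^ 4)
    ((cir_prd hF1 (cir_prd hM1 (cir_sig h3 fun o => h5 o.1 o.2))).trans (by
      rw [show B * (B * (B * B)) = B ^ 4 by ring]))
  have hQ : Nat.card (Fin (L + 1) × Σ s : Fin L, D.Q (pts (a s))) ≤ B ^ 4 :=
    (cir_prd hF1 (cir_sig hF0 fun s => h5 _ (h.cd s s.2))).trans (by
      rw [show B * (B * B) = B ^ 3 by ring]
      exact hp (by norm_num))
  have c5 := cir_rc (fun i : Fin (L + 1) × Σ s : Fin L, D.Q (pts (a s)) =>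
    (Nod.E i.2.1 i.1 i.2.2 : Nod D a)) (c := B ^ 4) hQ
  have c6 := cir_rc (fun i : Fin (L + 1) × Σ s : Fin L, D.Q (pts (a s)) =>
    (Nod.U i.2.1 i.1 i.2.2 : Nod D a)) (c := B ^ 4) hQ
  have hLL : Nat.card (Fin L × Fin (L + 1)) ≤ B ^ 4 := (cir_prd hF0 hF1).trans (by
    rw [show B * B = B ^ 2 by ring]
    exact hp (by norm_num))
  have c7 := cir_rc (fun i : Fin L × Fin (L + 1) => (Nod.b i.1 i.2 : Nod D a)) (c := B ^ 4) hLL
  have c8 := cir_rc (fun i : Fin (L + 1) × Σ s : Fin L, D.Q (pts (a s)) =>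
    (Nod.K i.2.1 i.1 i.2.2 : Nod D a)) (c := B ^ 4) hQ
  have c9 := cir_rc (fun i : Σ s : Fin L, Σ l, D.G l ⧸ D.K (pts (a s)) l =>
    (Nod.Dn i.1 i.2.1 i.2.2 : Nod D a)) (c := B ^ 4)
    ((cir_sig hF0 fun s => cir_sig hM0 (hq _)).trans (by
      rw [show B * (B * B) = B ^ 3 by ring]
      exact hp (by norm_num)))
  have c10 := cir_rc (fun i : Fin (L + 1) × Fin m => (Nod.Zx i.1 i.2 : Nod D a)) (c := B ^ 4)
    ((cir_prd hF1 hM0).trans (by
      rw [show B * B = B ^ 2 by ring]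
      exact hp (by norm_num)))
  have c11 := cir_rc (fun i : Fin (L + 1) × {o : Set P // o.ncard ≤ k} × Fin (m + 1) =>
    (Nod.ZY i.1 i.2.1.1 i.2.2 : Nod D a)) (c := B ^ 4)
    ((cir_prd hF1 (cir_prd h3 hM1)).trans (by
      rw [show B * (B * B) = B ^ 3 by ring]
      exact hp (by norm_num)))
  have c12 := cir_rc (fun i : Fin L × Fin (L + 1) => (Nod.ZE i.1 i.2 : Nod D a)) (c := B ^ 4) hLL
  have c13 := cir_rc (fun s : Fin L => (Nod.cv (a s) : Nod D a)) (c := B ^ 4)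
    (hF0.trans (by simpa using hp (n := 1) (by norm_num)))
  have c14 := cir_rc (fun i : Σ A : T, (Fin A.1.k → P) => (Nod.W i.1.1 i.2 : Nod D a)) (c := B ^ 4)
    (h6.trans (by simpa using hp (n := 1) (by norm_num)))
  have c15 := cir_rc (fun i : Σ A : T, (Fin A.1.k → P) => (Nod.W0 i.1.1 i.2 : Nod D a)) (c := B ^ 4)
    (h6.trans (by simpa using hp (n := 1) (by norm_num)))
  have c := cir_un c0 (cir_un c1 (cir_un c2 (cir_un c3 (cir_un c4 (cir_un c5 (cir_un c6 (cir_un c7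
    (cir_un c8 (cir_un c9 (cir_un c10 (cir_un c11 (cir_un c12 (cir_un c13 (cir_un c14 c15))))))))))))))
  refine cir_fin c (by omega) ?_
  · intro x hx
    cases x with
    | tt => exact Or.inl ⟨(), rfl⟩
    | V x =>
      obtain ⟨s, hs, rfl⟩ := hx
      exact Or.inr (Or.inl ⟨⟨s, hs⟩, rfl⟩)
    | be s l x =>
      exact Or.inr (Or.inr (Or.inl ⟨(⟨s, Nat.lt_succ_of_le hx⟩, ⟨l, x⟩), rfl⟩))
    | bb s o l y =>
      exact Or.inr (Or.inr (Or.inr (Or.inl ⟨(⟨s, Nat.lt_succ_of_le hx.1⟩, ⟨⟨o, hx.2⟩, ⟨l, y⟩⟩), rfl⟩)))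
    | Y s o r q =>
      exact Or.inr (Or.inr (Or.inr (Or.inr (Or.inl ⟨(⟨s, Nat.lt_succ_of_le hx.1⟩,
        ⟨r, Nat.lt_succ_of_le hx.2.2⟩, ⟨⟨o, hx.2.1⟩, q⟩), rfl⟩))))
    | E s j q =>
      exact Or.inr (Or.inr (Or.inr (Or.inr (Or.inr (Or.inl ⟨(⟨j, Nat.lt_succ_of_le hx.2⟩,
        ⟨⟨s, hx.1⟩, q⟩), rfl⟩)))))
    | U s j q =>
      exact Or.inr (Or.inr (Or.inr (Or.inr (Or.inr (Or.inr (Or.inl ⟨(⟨j, Nat.lt_succ_of_lt hx.2⟩,
        ⟨⟨s, hx.1⟩, q⟩), rfl⟩))))))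
    | b s j =>
      exact Or.inr (Or.inr (Or.inr (Or.inr (Or.inr (Or.inr (Or.inr (Or.inl
        ⟨(⟨s, hx.1⟩, ⟨j, Nat.lt_succ_of_lt hx.2⟩), rfl⟩)))))))
    | K s j q =>
      exact Or.inr (Or.inr (Or.inr (Or.inr (Or.inr (Or.inr (Or.inr (Or.inr (Or.inl
        ⟨(⟨j, Nat.lt_succ_of_lt hx.2⟩, ⟨⟨s, hx.1⟩, q⟩), rfl⟩))))))))
    | Dn s l y =>
      exact Or.inr (Or.inr (Or.inr (Or.inr (Or.inr (Or.inr (Or.inr (Or.inr (Or.inr (Or.inl
        ⟨⟨⟨s, hx⟩, ⟨l, y⟩⟩, rfl⟩)))))))))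
    | Zx s l =>
      exact Or.inr (Or.inr (Or.inr (Or.inr (Or.inr (Or.inr (Or.inr (Or.inr (Or.inr (Or.inr (Or.inl
        ⟨(⟨s, Nat.lt_succ_of_le hx⟩, l), rfl⟩))))))))))
    | ZY s o r =>
      exact Or.inr (Or.inr (Or.inr (Or.inr (Or.inr (Or.inr (Or.inr (Or.inr (Or.inr (Or.inr (Or.inr (Or.inl
        ⟨(⟨s, Nat.lt_succ_of_le hx.1⟩, ⟨o, hx.2.1⟩, ⟨r, Nat.lt_succ_of_le hx.2.2⟩), rfl⟩)))))))))))
    | ZE s j =>
      exact Or.inr (Or.inr (Or.inr (Or.inr (Or.inr (Or.inr (Or.inr (Or.inr (Or.inr (Or.inr (Or.inr (Or.inr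
        (Or.inl ⟨(⟨s, hx.1⟩, ⟨j, Nat.lt_succ_of_le hx.2⟩), rfl⟩))))))))))))
    | cv x =>
      obtain ⟨s, hs, rfl⟩ := hx
      exact Or.inr (Or.inr (Or.inr (Or.inr (Or.inr (Or.inr (Or.inr (Or.inr (Or.inr (Or.inr (Or.inr (Or.inr
        (Or.inr (Or.inl ⟨⟨s, hs⟩, rfl⟩)))))))))))))
    | W A v =>
      exact Or.inr (Or.inr (Or.inr (Or.inr (Or.inr (Or.inr (Or.inr (Or.inr (Or.inr (Or.inr (Or.inr (Or.inr
        (Or.inr (Or.inr (Or.inl ⟨⟨⟨A, hx⟩, v⟩, rfl⟩))))))))))))))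
    | W0 A v =>
      exact Or.inr (Or.inr (Or.inr (Or.inr (Or.inr (Or.inr (Or.inr (Or.inr (Or.inr (Or.inr (Or.inr (Or.inr
        (Or.inr (Or.inr (Or.inr ⟨⟨⟨A, hx⟩, v⟩, rfl⟩))))))))))))))

theorem good_fin {T : Set (Ax Rel)} {D : Pd P m} {L k : ℕ} {a : ℕ → Atom Rel P} (h : Dat T D L k a) :
    Finite (Gn T D L k a) := by
  have hP := h.fP
  obtain ⟨B4, h4⟩ := (Set.finite_range fun l => Nat.card (D.G l)).bddAbove
  obtain ⟨B5, h5⟩ := (Set.finite_range fun o : Set P => Nat.card (D.Q o)).bddAbove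
  refine (good_card h (L + 1 + (m + 1) + Nat.card {o : Set P // o.ncard ≤ k} + B4 + B5 +
    Nat.card (Σ A : T, (Fin A.1.k → P))) (by omega) (by omega) (by omega)
    (fun l => (h4 (mem_range_self l)).trans (by omega)) (fun o _ => (h5 (mem_range_self o)).trans (by omega))
    (by omega)).1.to_subtype

theorem gate_children' {N N' : Type} (f : P → P) (g : N → N')
    (x : Gate (Atom Rel P) N) : (x.map f g).children = Lit.map g '' x.children := by
  cases x with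
  | var v =>
    change (∅ : Set (Lit N')) = Lit.map g '' ∅
    rw [Set.image_empty]
  | and S => rfl
  | sym A S => rfl

/-- the circuit -/
noncomputable def cir {T : Set (Ax Rel)} {D : Pd P m} {L k : ℕ} {a : ℕ → Atom Rel P} (h : Dat T D L k a) :
    Circuit Rel P where
  N := Gn T D L k a
  fin := good_fin h
  gate x := (gt D L a x.1).map id (mk T D L k a)
  rank x := rk D L a x.1
  rank_lt := by
    rintro x y hy
    rw [gate_children'] at hy
    obtain ⟨z, hz, rfl⟩ := hy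
    exact (rk_mk T D L k a z.node).trans_lt (rk_lt D L a x.1 z hz)

/-- the gate of the node of a good name -/
theorem gate_mk {T : Set (Ax Rel)} {D : Pd P m} {L k : ℕ} {a : ℕ → Atom Rel P} (h : Dat T D L k a) {x : Nod D a}
    (hx : Good T D L k a x) : (cir h).gate (mk T D L k a x) = (gt D L a x).map id (mk T D L k a) := by
  rw [mk_good hx]
  rfl

end Pool.Agent.H29.NS
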