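import Pool.Agent.H29.NS.NilL

/-!
# THEOREM NIL (MP_576eff_lc): from a subgroup to the whole group

A refutation which is symmetric under a subgroup `H ≤ Γ` gives one which is symmetric under `Γ`, of size at most `[Γ : H]` times the size:
the translates by representatives of the cosets.
-/

set_option autoImplicit false

open Set

namespace Pool.Agent.H29.NS

open Pool.Agent.H42.CS

variable {Rel : ℕ → Type}

private theorem gmm {P N N' N'' : Type} (f f' : P → P) (g : N → N')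
    (g' : N' → N'') (x : Gate (Atom Rel P) N) :
    (x.map f g).map f' g' = x.map (fun p => f' (f p)) (fun a => g' (g a)) := by
  cases x with
  | var v => rfl
  | and S =>
    change Gate.and (Lit.map g' '' (Lit.map g '' S)) = Gate.and _
    rw [Set.image_image]
    rfl
  | sym A S =>
    change Gate.sym A (Lit.map g' '' (Lit.map g '' S)) = Gate.sym A _
    rw [Set.image_image]
    rfl

private theorem gch {P N N' : Type} (f : P → P) (g : N → N')
    (x : Gate (Atom Rel P) N) : (x.map f g).children = Lit.map g '' x.children := by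
  cases x with
  | var v =>
    change (∅ : Set (Lit N')) = Lit.map g '' ∅
    rw [Set.image_empty]
  | and S => rfl
  | sym A S => rfl

private theorem lfin (N : Type) [Finite N] : Finite (Lit N) :=
  Finite.of_injective (fun x : Lit N => (x.node, x.pos)) (by
    rintro ⟨a, s⟩ ⟨b, t⟩ h
    have h1 : a = b := congrArg Prod.fst h
    have h2 : s = t := congrArg Prod.snd h
    rw [h1, h2])

section

variable {n : ℕ} {G : Type} [Group G] (K : Subgroup G)

/-- the element of `K` with `σ * rep q = rep (σ q) * h` -/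
private noncomputable def hh (σ : G) (q : G ⧸ K) : K :=
  ⟨((σ • q).out)⁻¹ * (σ * q.out), by
    rw [← QuotientGroup.eq, QuotientGroup.out_eq']
    conv_lhs => rw [← QuotientGroup.out_eq' q]
    rfl⟩

private theorem hh_eq (σ : G) (q : G ⧸ K) : (σ • q).out * (hh K σ q : G) = σ * q.out := by
  show (σ • q).out * (((σ • q).out)⁻¹ * (σ * q.out)) = _
  rw [mul_inv_cancel_left]

private theorem hh_one (q : G ⧸ K) : hh K 1 q = 1 := by
  have h1 := hh_eq K 1 q
  rw [one_smul, one_mul] at h1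
  exact Subtype.ext (mul_left_cancel (h1.trans (mul_one _).symm))

private theorem hh_mul (σ τ : G) (q : G ⧸ K) : hh K (σ * τ) q = hh K σ (τ • q) * hh K τ q := by
  have h1 := hh_eq K (σ * τ) q
  have h2 := hh_eq K σ (τ • q)
  have h3 := hh_eq K τ q
  refine Subtype.ext ?_
  apply mul_left_cancel (a := ((σ * τ) • q).out)
  rw [h1]
  show _ = ((σ * τ) • q).out * ((hh K σ (τ • q) : G) * (hh K τ q : G))
  rw [← mul_assoc, mul_smul, h2, mul_assoc, mul_assoc, h3]

/-- the induced action -/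
private noncomputable def ind {N : Type} (a : K →* Equiv.Perm N) : G →* Equiv.Perm ((G ⧸ K) × N) where
  toFun σ :=
    { toFun := fun x => (σ • x.1, a (hh K σ x.1) x.2)
      invFun := fun x => (σ⁻¹ • x.1, a (hh K σ⁻¹ x.1) x.2)
      left_inv := by
        rintro ⟨q, x⟩
        show (σ⁻¹ • σ • q, a (hh K σ⁻¹ (σ • q)) (a (hh K σ q) x)) = (q, x)
        rw [← Equiv.Perm.mul_apply, ← map_mul, ← hh_mul, inv_mul_cancel, hh_one, map_one, inv_smul_smul]
        rfl
      right_inv := by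
        rintro ⟨q, x⟩
        show (σ • σ⁻¹ • q, a (hh K σ (σ⁻¹ • q)) (a (hh K σ⁻¹ q) x)) = (q, x)
        rw [← Equiv.Perm.mul_apply, ← map_mul, ← hh_mul, mul_inv_cancel, hh_one, map_one, smul_inv_smul]
        rfl }
  map_one' := by
    refine Equiv.ext ?_
    rintro ⟨q, x⟩
    show ((1 : G) • q, a (hh K 1 q) x) = (q, x)
    rw [hh_one, map_one, one_smul]
    rfl
  map_mul' σ τ := by
    refine Equiv.ext ?_
    rintro ⟨q, x⟩
    show ((σ * τ) • q, a (hh K (σ * τ) q) x) = (σ • τ • q, a (hh K σ (τ • q)) (a (hh K τ q) x))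
    rw [hh_mul, map_mul, mul_smul]
    rfl

end

/-- the circuit of the translates -/
private noncomputable def iC {n : ℕ} (C : Circuit Rel (Fin n)) (Γ : Subgroup (Equiv.Perm (Fin n)))
    (K : Subgroup Γ) : Circuit Rel (Fin n) where
  N := (Γ ⧸ K) × C.N
  fin := inferInstance
  gate x := (C.gate x.2).map ((x.1.out : Γ) : Equiv.Perm (Fin n)) (fun b => (x.1, b))
  rank x := C.rank x.2
  rank_lt := by
    rintro ⟨q, a⟩ x hx
    rw [gch] at hx
    obtain ⟨y, hy, rfl⟩ := hx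
    exact C.rank_lt a y hy

/-- the lines of the translates -/
private def iL {n : ℕ} {T : Set (Ax Rel)} (R : Refutation T (Fin n)) (Γ : Subgroup (Equiv.Perm (Fin n)))
    (K : Subgroup Γ) : Set (Set (Lit ((Γ ⧸ K) × R.C.N))) :=
  {Λ' | ∃ q : Γ ⧸ K, ∃ Λ ∈ R.lines, Λ' = Lit.map (fun b => (q, b)) '' Λ}

private theorem isnd {M N : Type} (q : M) (Λ : Set (Lit N)) :
    Lit.map Prod.snd '' (Lit.map (fun b => (q, b)) '' Λ) = Λ := by
  rw [Set.image_image]
  exact Set.image_id Λ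

/-- the refutation of the translates -/
private noncomputable def iR {n : ℕ} {T : Set (Ax Rel)}
    (R : Refutation T (Fin n)) (Γ : Subgroup (Equiv.Perm (Fin n))) (K : Subgroup Γ) : Refutation T (Fin n) where
  C := iC R.C Γ K
  lines := iL R Γ K
  order Λ' := R.order (Lit.map Prod.snd '' Λ')
  step := by
    rintro _ ⟨q, Λ, hΛ, rfl⟩
    refine step_map (C := R.C) (C' := iC R.C Γ K) ((q.out : Γ) : Equiv.Perm (Fin n)) (fun b => (q, b))
      (fun a b h => congrArg Prod.snd h) (fun a => rfl) ?_ (R.step Λ hΛ)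
    rintro Δ ⟨hΔ, hlt⟩
    refine ⟨⟨q, Δ, hΔ, rfl⟩, ?_⟩
    exact lt_of_eq_of_lt (congrArg R.order (isnd q Δ))
      (lt_of_lt_of_eq hlt (congrArg R.order (isnd q Λ)).symm)
  empty_mem := ⟨((1 : Γ) : Γ ⧸ K), ∅, R.empty_mem, (Set.image_empty _).symm⟩

private theorem ind_symm {n : ℕ} {T : Set (Ax Rel)} (R : Refutation T (Fin n))
    (Γ : Subgroup (Equiv.Perm (Fin n))) (K : Subgroup Γ) (a : K →* Equiv.Perm R.C.N)
    (ha : ∀ (h : K) x, R.C.gate (a h x) = (R.C.gate x).map ((h : Γ) : Equiv.Perm (Fin n)) (a h))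
    (hl : ∀ (h : K), ∀ Λ ∈ R.lines, Lit.map (a h) '' Λ ∈ R.lines) :
    (iR R Γ K).Symm Γ ∧ (iR R Γ K).size ≤ K.index * R.size := by
  constructor
  · refine ⟨ind K a, fun σ => ⟨?_, ?_⟩⟩
    · rintro ⟨q, x⟩
      change (R.C.gate (a (hh K σ q) x)).map (((σ • q).out : Γ) : Equiv.Perm (Fin n)) (fun b => (σ • q, b)) =
        ((R.C.gate x).map ((q.out : Γ) : Equiv.Perm (Fin n)) (fun b => (q, b))).map (σ : Equiv.Perm (Fin n))
          (ind K a σ)
      rw [ha, gmm, gmm]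
      have h1 : (fun p : Fin n => (((σ • q).out : Γ) : Equiv.Perm (Fin n)) (((hh K σ q : Γ) : Equiv.Perm (Fin n)) p)) =
          fun p => (σ : Equiv.Perm (Fin n)) (((q.out : Γ) : Equiv.Perm (Fin n)) p) := by
        funext p
        have h2 := congrArg (fun z : Γ => (z : Equiv.Perm (Fin n)) p) (hh_eq K σ q)
        exact h2
      rw [h1]
      rfl
    · rintro _ ⟨q, Λ, hΛ, rfl⟩
      refine ⟨σ • q, Lit.map (a (hh K σ q)) '' Λ, hl _ Λ hΛ, ?_⟩
      exact (Set.image_image (Lit.map (ind K a σ)) (Lit.map (fun b : R.C.N => (q, b))) Λ).trans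
        (Set.image_image (Lit.map (fun b : R.C.N => (σ • q, b))) (Lit.map (a (hh K σ q))) Λ).symm
  · have hN : Finite R.C.N := R.C.fin
    have hLit : Finite (Lit R.C.N) := lfin _
    have h1 : Nat.card (iR R Γ K).C.N = K.index * Nat.card R.C.N := Nat.card_prod _ _
    have h2 : (iR R Γ K).lines.ncard ≤ K.index * R.lines.ncard := by
      have e : (iR R Γ K).lines = (fun x : (Γ ⧸ K) × Set (Lit R.C.N) =>
          Lit.map (fun b => (x.1, b)) '' x.2) '' ((Set.univ : Set (Γ ⧸ K)) ×ˢ R.lines) := by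
        ext Λ'
        constructor
        · rintro ⟨σ, Λ, hΛ, rfl⟩
          exact ⟨(σ, Λ), ⟨Set.mem_univ _, hΛ⟩, rfl⟩
        · rintro ⟨⟨σ, Λ⟩, ⟨-, hΛ⟩, rfl⟩
          exact ⟨σ, Λ, hΛ, rfl⟩
      rw [e]
      refine (Set.ncard_image_le (Set.toFinite _)).trans ?_
      rw [Set.ncard_prod, Set.ncard_univ]
      rfl
    unfold Refutation.size
    rw [h1, mul_add]
    exact Nat.add_le_add_left h2 _

/-- from a subgroup to the group -/
theorem sym_index {n : ℕ} {T : Set (Ax Rel)} {Γ H : Subgroup (Equiv.Perm (Fin n))} (hH : H ≤ Γ)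
    (R : Refutation T (Fin n)) (hR : R.Symm H) :
    ∃ R' : Refutation T (Fin n), R'.Symm Γ ∧ R'.size ≤ H.relIndex Γ * R.size := by
  obtain ⟨act, hact⟩ := hR
  let j : H.subgroupOf Γ →* H := (Subgroup.subgroupOfEquivOfLe hH).toMonoidHom
  have hj : ∀ h : H.subgroupOf Γ, ((j h : H) : Equiv.Perm (Fin n)) = ((h : Γ) : Equiv.Perm (Fin n)) :=
    fun h => rfl
  have h1 := ind_symm R Γ (H.subgroupOf Γ) (act.comp j) (fun h x => (hact (j h)).1 x)
    (fun h Λ hΛ => (hact (j h)).2 Λ hΛ)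
  exact ⟨_, h1.1, h1.2⟩

/-- THEOREM NIL for all groups, with a nilpotent subgroup -/
theorem nil_index {T : Set (Ax Rel)} (hT : T.Finite) (hl : ∀ A ∈ T, A.lits.Finite ∧ A.ex.Finite) :
    ∃ c : ℕ, ∀ (n : ℕ) (Γ H : Subgroup (Equiv.Perm (Fin n))) (A S : ℕ), 2 ≤ n → H ≤ Γ → Group.IsNilpotent H →
      (∀ x : Fin n, (MulAction.stabilizer H x).normalCore.index ≤ A) →
      (∀ (p : ℕ) [Fact p.Prime] (P : Sylow p H), Nat.card P ≤ S) →
      ∀ R : Refutation T (Fin n), ∃ R' : Refutation T (Fin n), R'.Symm Γ ∧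
        R'.size ≤ H.relIndex Γ * (R.size * (n * A * S) ^ c) := by
  obtain ⟨c, hc⟩ := nil_main hT hl
  refine ⟨c, ?_⟩
  intro n Γ H A S hn hH hnil hA hS R
  obtain ⟨R1, h1, h2⟩ := hc n H A S hn hnil hA hS R
  obtain ⟨R2, h3, h4⟩ := sym_index hH R1 h1
  exact ⟨R2, h3, h4.trans (Nat.mul_le_mul_left _ h2)⟩

/-- the same in terms of the largest Sylow subgroup of the nilpotent subgroup -/
theorem nil_index_log {T : Set (Ax Rel)} (hT : T.Finite) (hl : ∀ A ∈ T, A.lits.Finite ∧ A.ex.Finite) :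
    ∃ c : ℕ, ∀ (n : ℕ) (Γ H : Subgroup (Equiv.Perm (Fin n))) (S : ℕ), 2 ≤ n → H ≤ Γ → Group.IsNilpotent H →
      (∀ (p : ℕ) [Fact p.Prime] (P : Sylow p H), Nat.card P ≤ S) →
      ∀ R : Refutation T (Fin n), ∃ R' : Refutation T (Fin n), R'.Symm Γ ∧
        R'.size ≤ H.relIndex Γ * (R.size * (n * S) ^ (c * (Nat.log 2 n + 1))) := by
  obtain ⟨c, hc⟩ := nil_log hT hl
  refine ⟨c, ?_⟩
  intro n Γ H S hn hH hnil hS R
  obtain ⟨R1, h1, h2⟩ := hc n H S hn hnil hS R
  obtain ⟨R2, h3, h4⟩ := sym_index hH R1 h1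
  exact ⟨R2, h3, h4.trans (Nat.mul_le_mul_left _ h2)⟩

/-- a nilpotent subgroup whose Sylow subgroups have small exponents -/
theorem nil_index_exp {T : Set (Ax Rel)} (hT : T.Finite) (hl : ∀ A ∈ T, A.lits.Finite ∧ A.ex.Finite) :
    ∃ c : ℕ, ∀ (n h : ℕ) (Γ H : Subgroup (Equiv.Perm (Fin n))), 2 ≤ n → H ≤ Γ → Group.IsNilpotent H →
      (∀ p : ℕ, p.Prime → ¬ p ^ (h + 1) ∣ Nat.card H) →
      ∀ R : Refutation T (Fin n), ∃ R' : Refutation T (Fin n), R'.Symm Γ ∧
        R'.size ≤ H.relIndex Γ * (R.size * n ^ (c * (h + 1))) := by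
  obtain ⟨c, hc⟩ := nil_exp hT hl
  refine ⟨c, ?_⟩
  intro n h Γ H hn hH hnil hh R
  obtain ⟨R1, h1, h2⟩ := hc n h H hn hnil hh R
  obtain ⟨R2, h3, h4⟩ := sym_index hH R1 h1
  exact ⟨R2, h3, h4.trans (Nat.mul_le_mul_left _ h2)⟩

/-- a cyclic subgroup -/
theorem nil_index_cyc {T : Set (Ax Rel)} (hT : T.Finite) (hl : ∀ A ∈ T, A.lits.Finite ∧ A.ex.Finite) :
    ∃ c : ℕ, ∀ (n : ℕ) (Γ H : Subgroup (Equiv.Perm (Fin n))), 2 ≤ n → H ≤ Γ → IsCyclic H →
      ∀ R : Refutation T (Fin n), ∃ R' : Refutation T (Fin n), R'.Symm Γ ∧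
        R'.size ≤ H.relIndex Γ * (R.size * n ^ c) := by
  obtain ⟨c, hc⟩ := nil_cyc hT hl
  refine ⟨c, ?_⟩
  intro n Γ H hn hH hcy R
  obtain ⟨R1, h1, h2⟩ := hc n H hn hcy R
  obtain ⟨R2, h3, h4⟩ := sym_index hH R1 h1
  exact ⟨R2, h3, h4.trans (Nat.mul_le_mul_left _ h2)⟩

end Pool.Agent.H29.NS
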