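import Pool.Agent.H42.CS.Defs

/-!
# THEOREM NIL (MP_576eff_lc): symmetric proofs for nilpotent groups, definitions

`Dq T C Q Λ`: the line `Λ` has a derivation all of whose lines belong to the family `Q`. `Qw C`: the narrow lines (at most `16` members)
and the narrow lines together with the negated members of an `and` node. `Rf T C l`: the signed nodes of the short list `l` cannot all be
true (the line of their negations has a derivation in `Qw C`).
`Pd P m`: `m` finite groups with pairwise coprime orders whose direct product acts on `P`. `D.K o l`: the elements of the factor `l` which fix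
all points of the orbits of the points of `o`. `D.Q o`: the elements of the product modulo these. `D.rp q`: a representative.
`Gad T D C L k a`: the gadget of the canonisation in the circuit `C`; `a 0, …, a (L - 1)` are all atoms of `T`:
* `V x`: the variable `x`;
* `be s l x`: after `s` stages `x` is still allowed in the factor `l`; `bb s o l y`: no member of the class `y` is allowed;
* `Y s o r q`: in the first `r` factors the classes of `q` have allowed members (after `s` stages);
* `E s j q`: `q` is allowed before stage `s` and survives the first `j` comparisons of stage `s` (on the orbit of the atom `a s`);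
* `b s j`: the value of the canonical structure at `a j`, as computed in stage `s`;
* `U s j q`: `E s j q` and the value at `q (a j)` is false; `K s j q`: the value at `q (a j)` is true and `b s j` is false;
* `Dn s l y`: no survivor of stage `s` has the component `y`;
* `Zx`, `ZY`, `ZE`: there is no allowed `x`, no `q` with `Y`, no `q` with `E`;
* `cv x`: the value of the canonical structure at the atom `x`; `W A v`, `W0 A v`: the instance of the axiom `A` at `v` fails in the canonical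
  structure, in the given structure.
-/

set_option autoImplicit false

open Set

namespace Pool.Agent.H29.NS

open Pool.Agent.H42.CS

variable {Rel : ℕ → Type} {P : Type}

/-! ### Allowed derivations and refutations of short lists -/

/-- a node, assumed to be true -/
abbrev pl {N : Type} (a : N) : Lit N := ⟨a, true⟩

/-- a node, assumed to be false -/
abbrev mi {N : Type} (a : N) : Lit N := ⟨a, false⟩

/-- derivations all of whose lines belong to `Q` -/
inductive Dq (T : Set (Ax Rel)) (C : Circuit Rel P) (Q : Set (Set (Lit C.N))) : Set (Lit C.N) → Prop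
  | mk (Λ : Set (Lit C.N)) (Pr : Set (Set (Lit C.N))) (hΛ : Λ ∈ Q) (h : ∀ Δ ∈ Pr, Dq T C Q Δ)
      (hs : Step T C Pr Λ) : Dq T C Q Λ

/-- narrow lines, and narrow lines together with the negated members of a node -/
def Qw (C : Circuit Rel P) : Set (Set (Lit C.N)) :=
  {Λ | ∃ Λ0 : Set (Lit C.N), Λ0.ncard ≤ 16 ∧
    (Λ = Λ0 ∨ ∃ (a : C.N) (S : Set (Lit C.N)), C.gate a = .and S ∧ Λ = Λ0 ∪ Lit.neg '' S)}

/-- the signed nodes in `l` cannot all be true -/
def Rf (T : Set (Ax Rel)) (C : Circuit Rel P) (l : List (Lit C.N)) : Prop :=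
  Dq T C (Qw C) {y | ∃ x ∈ l, y = x.neg}

/-! ### Direct products of groups with coprime orders -/

/-- `m` finite groups with pairwise coprime orders; their direct product acts on `P` -/
structure Pd (P : Type) (m : ℕ) where
  G : Fin m → Type
  [grp : ∀ l, Group (G l)]
  [fin : ∀ l, Finite (G l)]
  cop : ∀ l l', l ≠ l' → Nat.Coprime (Nat.card (G l)) (Nat.card (G l'))
  act : (∀ l, G l) →* Equiv.Perm P

attribute [instance] Pd.grp Pd.fin

variable {m : ℕ}

/-- the elements of the factor `l` which fix all points of the orbits of the points of `o` -/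
def Pd.K (D : Pd P m) (o : Set P) (l : Fin m) : Subgroup (D.G l) where
  carrier := {x | ∀ p ∈ o, ∀ g : (∀ l, D.G l), D.act (Pi.mulSingle l x) (D.act g p) = D.act g p}
  mul_mem' := by
    intro x y hx hy p hp g
    rw [Pi.mulSingle_mul, map_mul, Equiv.Perm.mul_apply, hy p hp g, hx p hp g]
  one_mem' := by
    intro p _ g
    rw [Pi.mulSingle_one, map_one, Equiv.Perm.one_apply]
  inv_mem' := by
    intro x hx p hp g
    rw [Pi.mulSingle_inv, map_inv, Equiv.Perm.inv_eq_iff_eq]
    exact (hx p hp g).symm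

/-- the product modulo the elements which act trivially on the orbits of `o` -/
abbrev Pd.Q (D : Pd P m) (o : Set P) : Type := ∀ l, D.G l ⧸ D.K o l

/-- a representative -/
noncomputable def Pd.rp (D : Pd P m) {o : Set P} (q : D.Q o) : ∀ l, D.G l := fun l => (q l).out

/-- the class -/
def Pd.cl (D : Pd P m) (o : Set P) (g : ∀ l, D.G l) : D.Q o := fun l => (g l : D.G l ⧸ D.K o l)

/-- the action on the classes -/
def Pd.ml (D : Pd P m) {o : Set P} (g : ∀ l, D.G l) (q : D.Q o) : D.Q o := fun l => g l • q l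

/-- the class for a set `o'` with more trivial elements -/
def Pd.res (D : Pd P m) {o o' : Set P} (h : ∀ l, D.K o l ≤ D.K o' l) (q : D.Q o) : D.Q o' :=
  fun l => Subgroup.quotientMapOfLE (h l) (q l)

/-- the points of an atom -/
def pts (x : Atom Rel P) : Set P := range x.2.2

/-- the action on the atoms -/
def Pd.ga (D : Pd P m) (g : ∀ l, D.G l) (x : Atom Rel P) : Atom Rel P :=
  ⟨x.1, x.2.1, fun i => D.act g (x.2.2 i)⟩

/-- `y` is in the orbit of `x` -/
def Pd.Orb (D : Pd P m) (x y : Atom Rel P) : Prop := ∃ g, y = D.ga g x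

/-! ### The gadget -/

/-- the gadget of the canonisation -/
structure Gad (T : Set (Ax Rel)) (D : Pd P m) (C : Circuit Rel P) (L k : ℕ) (a : ℕ → Atom Rel P) where
  V : Atom Rel P → C.N
  be : ℕ → (l : Fin m) → D.G l → C.N
  bb : ℕ → (o : Set P) → (l : Fin m) → (D.G l ⧸ D.K o l) → C.N
  Y : ℕ → (o : Set P) → ℕ → D.Q o → C.N
  E : (s : ℕ) → ℕ → D.Q (pts (a s)) → C.N
  U : (s : ℕ) → ℕ → D.Q (pts (a s)) → C.N
  b : ℕ → ℕ → C.N
  K : (s : ℕ) → ℕ → D.Q (pts (a s)) → C.N
  Dn : (s : ℕ) → (l : Fin m) → (D.G l ⧸ D.K (pts (a s)) l) → C.N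
  Zx : ℕ → Fin m → C.N
  ZY : ℕ → Set P → ℕ → C.N
  ZE : ℕ → ℕ → C.N
  cv : Atom Rel P → C.N
  W : (A : Ax Rel) → (Fin A.k → P) → C.N
  W0 : (A : Ax Rel) → (Fin A.k → P) → C.N
  st : ∀ s < L, ∀ g, ∃ s' < L, D.ga g (a s) = a s'
  cd : ∀ s < L, (pts (a s)).ncard ≤ k
  inst : ∀ A ∈ T, ∀ (v : Fin A.k → P), ∀ x ∈ A.inst v, ∃ s < L, x.1 = a s
  vk : ∀ A ∈ T, A.k + 1 ≤ k
  gV : ∀ s < L, C.gate (V (a s)) = .var (a s)
  gbe0 : ∀ l x, C.gate (be 0 l x) = .and ∅
  gbe : ∀ s < L, ∀ l (x : D.G l), C.gate (be (s + 1) l x) =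
    .and {pl (be s l x), mi (Dn s l (x : D.G l ⧸ D.K (pts (a s)) l))}
  gbb : ∀ s ≤ L, ∀ o : Set P, o.ncard ≤ k → ∀ l (y : D.G l ⧸ D.K o l), C.gate (bb s o l y) =
    .and {z | ∃ x : D.G l, (x : D.G l ⧸ D.K o l) = y ∧ z = mi (be s l x)}
  gY0 : ∀ s ≤ L, ∀ o : Set P, o.ncard ≤ k → ∀ q, C.gate (Y s o 0 q) = .and ∅
  gY : ∀ s ≤ L, ∀ o : Set P, o.ncard ≤ k → ∀ (r : ℕ) (h : r < m) (q : D.Q o), C.gate (Y s o (r + 1) q) =
    .and {pl (Y s o r q), mi (bb s o ⟨r, h⟩ (q ⟨r, h⟩))}
  gE0 : ∀ s < L, ∀ q, C.gate (E s 0 q) = .and {pl (Y s (pts (a s)) m q)}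
  gE1 : ∀ s < L, ∀ j < L, D.Orb (a s) (a j) → ∀ q, C.gate (E s (j + 1) q) =
    .and {pl (E s j q), mi (K s j q)}
  gE2 : ∀ s < L, ∀ j < L, ¬ D.Orb (a s) (a j) → ∀ q, C.gate (E s (j + 1) q) = .and {pl (E s j q)}
  gU : ∀ s < L, ∀ j < L, D.Orb (a s) (a j) → ∀ q, C.gate (U s j q) =
    .and {pl (E s j q), mi (V (D.ga (D.rp q) (a j)))}
  gb : ∀ s < L, ∀ j < L, D.Orb (a s) (a j) → C.gate (b s j) = .and (range fun q => mi (U s j q))
  gK : ∀ s < L, ∀ j < L, D.Orb (a s) (a j) → ∀ q, C.gate (K s j q) =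
    .and {pl (V (D.ga (D.rp q) (a j))), mi (b s j)}
  gDn : ∀ s < L, ∀ l y, C.gate (Dn s l y) = .and {z | ∃ q : D.Q (pts (a s)), q l = y ∧ z = mi (E s L q)}
  gZx : ∀ s ≤ L, ∀ l, C.gate (Zx s l) = .and (range fun x => mi (be s l x))
  gZY : ∀ s ≤ L, ∀ o : Set P, o.ncard ≤ k → ∀ r ≤ m, C.gate (ZY s o r) = .and (range fun q => mi (Y s o r q))
  gZE : ∀ s < L, ∀ j ≤ L, C.gate (ZE s j) = .and (range fun q => mi (E s j q))
  gcv : ∀ s < L, C.gate (cv (a s)) = .and {pl (b s s)}
  gW : ∀ A ∈ T, ∀ v, C.gate (W A v) = .and {z | ∃ x ∈ A.inst v, z = ⟨cv x.1, !x.2⟩}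
  gW0 : ∀ A ∈ T, ∀ v, C.gate (W0 A v) = .and {z | ∃ x ∈ A.inst v, z = ⟨V x.1, !x.2⟩}

end Pool.Agent.H29.NS
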