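import Pool.Agent.H29.NS.Be
import Pool.Agent.H29.NS.Gra

/-!
# [H29 NS Eb] the survivors have the values of the canonical structure; the powers of a quotient of two survivors

`E_b`: `E s L q → E s (j+1) q → ¬ K s j q` (`E_down`, `gE1`), `[pl V, mi (b s j), mi (K s j q)]` (`Rf.andF`, `gK`). `b_E`: `E s L q → E s j q`; `b s j → ¬ U s j q` (`Rf.andT`, `gb`), `[pl (E s j q), mi V, mi (U s j q)]` (`Rf.andF`, `gU`).

`powV` (the only place with content): let `z, z'` be two survivors, `g = rp z`, `g' = rp z'`, `u = g⁻¹ * g'`. For every `e` and every atom `a j` of the orbit: `V (ga (g * u ^ e) (a j)) ↔ b s j`. Induction on `e`. `e = 0`: `E_b`, `b_E` for `z`.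
`e + 1`: let `a i = ga (u ^ e) (a j)` (`H.st`, in the orbit of `a s`: `orb_ga`). `ga (g * u ^ (e+1)) (a j) = ga (g * u) (a i) = ga g' (a i)` (`pow_succ'`, `g * u = g'`, `ga_mul`). So (1) `V (ga (g * u^(e+1)) (a j)) ↔ b s i` (`E_b`, `b_E` for `z'`, atom `a i`), (2) `V (ga g (a i)) ↔ b s i` (for `z`), and `ga g (a i) = ga (g * u ^ e) (a j)`,
(3) `V (ga (g * u ^ e) (a j)) ↔ b s j` (induction hypothesis, it contains `pl (E s L z), pl (E s L z')`). Chain by `Rf.taut3` (lists of length `3`, `3`, `4` and `4`: total `14`; or in two steps).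
-/

set_option autoImplicit false

open Set

namespace Pool.Agent.H29.NS

open Pool.Agent.H42.CS

variable {Rel : ℕ → Type} {P : Type} {m : ℕ} {T : Set (Ax Rel)} {D : Pd P m} {C : Circuit Rel P} {L k : ℕ}
  {a : ℕ → Atom Rel P} (H : Gad T D C L k a)

/-- two facts with a common node -/
private theorem eb_t {A B V b X : C.N} {s t : Bool} (h1 : Rf T C [pl A, mi B])
    (h2 : Rf T C [pl B, pl X]) (h3 : Rf T C [⟨V, s⟩, ⟨b, t⟩, mi X]) :
    Rf T C [pl A, ⟨V, s⟩, ⟨b, t⟩] := by
  refine Rf.taut3 h1 h2 h3 _ (by simp) fun σ g1 g2 g3 => ?_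
  simp only [List.mem_cons, List.not_mem_nil, or_false, exists_eq_or_imp, exists_eq_left] at g1 g2 g3 ⊢
  rcases g3 with g3 | g3 | g3
  · exact Or.inr (Or.inl g3)
  · exact Or.inr (Or.inr g3)
  · have hX : σ X = true := by
      cases h : σ X
      · exact absurd h g3
      · rfl
    have hB : σ B ≠ true := by
      rcases g2 with g2 | g2
      · exact g2
      · exact absurd hX g2
    have hB2 : σ B = false := by
      cases h : σ B
      · rfl
      · exact absurd h hB
    rcases g1 with g1 | g1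
    · exact Or.inl g1
    · exact absurd hB2 g1

theorem Gad.E_b {s j : ℕ} (hs : s < L) (hj : j < L) (ho : D.Orb (a s) (a j)) (q : D.Q (pts (a s))) :
    Rf T C [pl (H.E s L q), pl (H.V (D.ga (D.rp q) (a j))), mi (H.b s j)] := by
  have h1 := H.E_down hs (show j + 1 ≤ L by omega) le_rfl q
  have h2 : Rf T C [pl (H.E s (j + 1) q), pl (H.K s j q)] :=
    Rf.andT (x := mi (H.K s j q)) (H.gE1 s hs j hj ho q) (Or.inr rfl)
  have h3 : Rf T C [pl (H.V (D.ga (D.rp q) (a j))), mi (H.b s j), mi (H.K s j q)] := by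
    refine Rf.andF (H.gK s hs j hj ho q) (by simp) (fun x hx => ?_) (by simp)
    rcases hx with rfl | hx
    · exact Rf.triv (pl (H.V (D.ga (D.rp q) (a j)))) (by simp) (by simp [Lit.neg]) (by simp)
    · rw [mem_singleton_iff.1 hx]
      exact Rf.triv (mi (H.b s j)) (by simp) (by simp [Lit.neg]) (by simp)
  exact eb_t h1 h2 h3

theorem Gad.b_E {s j : ℕ} (hs : s < L) (hj : j < L) (ho : D.Orb (a s) (a j)) (q : D.Q (pts (a s))) :
    Rf T C [pl (H.E s L q), mi (H.V (D.ga (D.rp q) (a j))), pl (H.b s j)] := by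
  have h1 := H.E_down hs (show j ≤ L by omega) le_rfl q
  have h2 : Rf T C [pl (H.b s j), pl (H.U s j q)] :=
    Rf.andT (x := mi (H.U s j q)) (H.gb s hs j hj ho) ⟨q, rfl⟩
  have h3 : Rf T C [pl (H.E s j q), mi (H.V (D.ga (D.rp q) (a j))), mi (H.U s j q)] := by
    refine Rf.andF (H.gU s hs j hj ho q) (by simp) (fun x hx => ?_) (by simp)
    rcases hx with rfl | hx
    · exact Rf.triv (pl (H.E s j q)) (by simp) (by simp [Lit.neg]) (by simp)
    · rw [mem_singleton_iff.1 hx]
      exact Rf.triv (mi (H.V (D.ga (D.rp q) (a j)))) (by simp) (by simp [Lit.neg]) (by simp)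
  refine Rf.taut3 h1 h2 h3 _ (by simp) fun σ g1 g2 g3 => ?_
  simp only [List.mem_cons, List.not_mem_nil, or_false, exists_eq_or_imp, exists_eq_left] at g1 g2 g3 ⊢
  generalize σ (H.E s L q) = x1 at *
  generalize σ (H.E s j q) = x2 at *
  generalize σ (H.b s j) = x3 at *
  generalize σ (H.U s j q) = x4 at *
  generalize σ (H.V (D.ga (D.rp q) (a j))) = x5 at *
  revert g1 g2 g3
  cases x1 <;> cases x2 <;> cases x3 <;> cases x4 <;> cases x5 <;> simp

theorem Gad.powV {s : ℕ} (hs : s < L) (z z' : D.Q (pts (a s))) (e : ℕ) :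
    ∀ j < L, D.Orb (a s) (a j) →
    Rf T C [pl (H.E s L z), pl (H.E s L z'),
      pl (H.V (D.ga (D.rp z * ((D.rp z)⁻¹ * D.rp z') ^ e) (a j))), mi (H.b s j)] ∧
    Rf T C [pl (H.E s L z), pl (H.E s L z'),
      mi (H.V (D.ga (D.rp z * ((D.rp z)⁻¹ * D.rp z') ^ e) (a j))), pl (H.b s j)] := by
  induction e with
  | zero =>
    intro j hj ho
    rw [pow_zero, mul_one]
    constructor
    · refine Rf.mono (H.E_b hs hj ho z) (fun x hx => ?_) (by simp)
      simp only [List.mem_cons, List.not_mem_nil, or_false] at hx ⊢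
      tauto
    · refine Rf.mono (H.b_E hs hj ho z) (fun x hx => ?_) (by simp)
      simp only [List.mem_cons, List.not_mem_nil, or_false] at hx ⊢
      tauto
  | succ e ih =>
    intro j hj ho
    obtain ⟨i, hi, hia⟩ := H.st j hj (((D.rp z)⁻¹ * D.rp z') ^ e)
    have hoi : D.Orb (a s) (a i) := by
      rw [← hia]
      exact orb_ga D ho _
    have e1 : D.ga (D.rp z * ((D.rp z)⁻¹ * D.rp z') ^ (e + 1)) (a j) = D.ga (D.rp z') (a i) := by
      rw [← hia, ← ga_mul, pow_succ', ← mul_assoc, mul_inv_cancel_left]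
    have e2 : D.ga (D.rp z * ((D.rp z)⁻¹ * D.rp z') ^ e) (a j) = D.ga (D.rp z) (a i) := by
      rw [← hia, ← ga_mul]
    obtain ⟨h3, h4⟩ := ih j hj ho
    rw [e2] at h3 h4
    rw [e1]
    have a1 := H.E_b hs hi hoi z'
    have a2 := H.b_E hs hi hoi z'
    have a3 := H.E_b hs hi hoi z
    have a4 := H.b_E hs hi hoi z
    constructor
    · refine Rf.taut3 a1 a4 h3 _ (by simp) fun σ g1 g2 g3 => ?_
      simp only [List.mem_cons, List.not_mem_nil, or_false, exists_eq_or_imp, exists_eq_left] at g1 g2 g3 ⊢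
      generalize σ (H.E s L z) = x1 at *
      generalize σ (H.E s L z') = x2 at *
      generalize σ (H.b s j) = x3 at *
      generalize σ (H.b s i) = x4 at *
      generalize σ (H.V (D.ga (D.rp z) (a i))) = x5 at *
      generalize σ (H.V (D.ga (D.rp z') (a i))) = x6 at *
      revert g1 g2 g3
      cases x1 <;> cases x2 <;> cases x3 <;> cases x4 <;> cases x5 <;> cases x6 <;> simp
    · refine Rf.taut3 a2 a3 h4 _ (by simp) fun σ g1 g2 g3 => ?_
      simp only [List.mem_cons, List.not_mem_nil, or_false, exists_eq_or_imp, exists_eq_left] at g1 g2 g3 ⊢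
      generalize σ (H.E s L z) = x1 at *
      generalize σ (H.E s L z') = x2 at *
      generalize σ (H.b s j) = x3 at *
      generalize σ (H.b s i) = x4 at *
      generalize σ (H.V (D.ga (D.rp z) (a i))) = x5 at *
      generalize σ (H.V (D.ga (D.rp z') (a i))) = x6 at *
      revert g1 g2 g3
      cases x1 <;> cases x2 <;> cases x3 <;> cases x4 <;> cases x5 <;> cases x6 <;> simp

end Pool.Agent.H29.NS
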