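import Pool.Agent.H29.NS.Cir

/-!
# [H29 NS Enu] the atoms of the axioms

`Sy T`: the relation symbols of the axioms in `T`. PROOFS. `sy_fin`: a finite union (over `T`) of images of the finite sets `A.lits`, `A.ex`.
`dat_ex`: `k` is larger than all `r` with `(r, _) ∈ Sy T` and all `A.k + 1` (`Set.Finite.bddAbove` of images). For given `n`, `D` let `At = {x : Atom Rel (Fin n) | ⟨x.1, x.2.1⟩ ∈ Sy T}`; it is finite with at most `(Sy T).ncard * n ^ k` elements (it is the union over the symbols `z ∈ Sy T` of the ranges of `fun v : Fin z.1 → Fin n => ⟨z.1, z.2, v⟩`; `n ^ z.1 ≤ n ^ k`).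
`L = At.ncard`, an enumeration `Fin L ≃ At` (`Finite.equivFinOfCardEq`, `Nat.card` of `At`), `a s` = the element number `s` for `s < L` and any atom otherwise. `st`: `ga g x` has the same symbol; `inj`; `cd`: `pts x` is the range of a function on `Fin r`, `r ≤ k`; `inst`: by the definition of `Ax.inst`; `vk`.
Numbers (`2 ≤ n`, `t + 1 ≤ 2 ^ t`... so `t + 1 ≤ n ^ t`): `L + 1 ≤ ((Sy T).ncard + 1) * n ^ k ≤ n ^ ((Sy T).ncard + k)`; the sets `o` with at most `k` elements are the values of `fun f : Fin k → Option (Fin n) => {p | ∃ i, f i = some p}`: at most `(n + 1) ^ k ≤ n ^ (2 * k)`; `Nat.card (Σ A : T, (Fin A.1.k → Fin n)) = ∑ A, n ^ A.k ≤ T.ncard * n ^ k`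
(`Nat.card_sigma`). `c` is a common exponent (`(Sy T).ncard + T.ncard + 3 * k`).
-/

set_option autoImplicit false

open Set

namespace Pool.Agent.H29.NS

open Pool.Agent.H42.CS

variable {Rel : ℕ → Type}

/-- the relation symbols of the axioms -/
def Sy (T : Set (Ax Rel)) : Set (Σ r : ℕ, Rel r) :=
  {z | ∃ A ∈ T, (∃ l ∈ A.lits, z = ⟨l.1.1, l.1.2.1⟩) ∨ ∃ l ∈ A.ex, z = ⟨l.1, l.2.1⟩}

theorem sy_fin {T : Set (Ax Rel)} (hT : T.Finite) (hl : ∀ A ∈ T, A.lits.Finite ∧ A.ex.Finite) : (Sy T).Finite := by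
  have h1 : Sy T ⊆ ⋃ A ∈ T, ((fun l : (Σ r : ℕ, Rel r × (Fin r → Fin A.k)) × Bool =>
      (⟨l.1.1, l.1.2.1⟩ : Σ r : ℕ, Rel r)) '' A.lits ∪
      (fun l : (Σ r : ℕ, Rel r × (Fin r → Fin (A.k + 1))) => (⟨l.1, l.2.1⟩ : Σ r : ℕ, Rel r)) '' A.ex) := by
    rintro z ⟨A, hA, hz⟩
    refine mem_iUnion₂.2 ⟨A, hA, ?_⟩
    rcases hz with ⟨l, hl', rfl⟩ | ⟨l, hl', rfl⟩
    · exact Or.inl ⟨l, hl', rfl⟩
    · exact Or.inr ⟨l, hl', rfl⟩
  refine (hT.biUnion fun A hA => ?_).subset h1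
  exact ((hl A hA).1.image _).union ((hl A hA).2.image _)

private theorem enu_two (t n : ℕ) (hn : 2 ≤ n) : t + 1 ≤ n ^ t :=
  (Nat.lt_two_pow_self (n := t)).trans_le (Nat.pow_le_pow_left hn t)

private theorem enu_range {r n : ℕ} (v : Fin r → Fin n) : (range v).ncard ≤ r := by
  rw [← image_univ]
  refine (ncard_image_le (toFinite _)).trans ?_
  rw [ncard_univ, Nat.card_eq_fintype_card, Fintype.card_fin]

private theorem enu_sets (n k : ℕ) (hn : 2 ≤ n) :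
    Nat.card {o : Set (Fin n) // o.ncard ≤ k} ≤ n ^ (2 * k) := by
  have h1 : ∀ o : {o : Set (Fin n) // o.ncard ≤ k}, ∃ f : Fin k → Option (Fin n),
      {p | ∃ i, f i = some p} = o.1 := by
    rintro ⟨o, ho⟩
    have hf : Finite o := Subtype.finite
    obtain ⟨e⟩ : Nonempty (o ≃ Fin o.ncard) := ⟨Finite.equivFinOfCardEq (Nat.card_coe_set_eq o)⟩
    refine ⟨fun i => if h : i.1 < o.ncard then some (e.symm ⟨i.1, h⟩).1 else none, ?_⟩
    ext p
    rw [mem_ofPred_eq]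
    constructor
    · rintro ⟨i, hi⟩
      beta_reduce at hi
      by_cases h : i.1 < o.ncard
      · rw [dif_pos h] at hi
        rw [← Option.some.inj hi]
        exact (e.symm ⟨i.1, h⟩).2
      · rw [dif_neg h] at hi
        exact absurd hi (by simp)
    · intro hp
      refine ⟨⟨(e ⟨p, hp⟩).1, (e ⟨p, hp⟩).2.trans_le ho⟩, ?_⟩
      beta_reduce
      rw [dif_pos (e ⟨p, hp⟩).2]
      simp
  choose F hF using h1
  have h2 : Nat.card {o : Set (Fin n) // o.ncard ≤ k} ≤ Nat.card (Fin k → Option (Fin n)) := by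
    refine Nat.card_le_card_of_injective F fun o o' h => Subtype.ext ?_
    rw [← hF o, ← hF o', h]
  refine h2.trans ?_
  rw [Nat.card_fun, Nat.card_eq_fintype_card (α := Option (Fin n)), Fintype.card_option,
    Fintype.card_fin, Nat.card_eq_fintype_card (α := Fin k), Fintype.card_fin, pow_mul]
  refine Nat.pow_le_pow_left ?_ k
  nlinarith

theorem dat_ex {T : Set (Ax Rel)} (hT : T.Finite) (hl : ∀ A ∈ T, A.lits.Finite ∧ A.ex.Finite) :
    ∃ k c : ℕ, ∀ (n m : ℕ) (D : Pd (Fin n) m), 2 ≤ n → Nonempty (Atom Rel (Fin n)) →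
      ∃ (L : ℕ) (a : ℕ → Atom Rel (Fin n)), Dat T D L k a ∧ L + 1 ≤ n ^ c ∧
        Nat.card {o : Set (Fin n) // o.ncard ≤ k} ≤ n ^ c ∧ Nat.card (Σ A : T, (Fin A.1.k → Fin n)) ≤ n ^ c := by
  have hS := sy_fin hT hl
  obtain ⟨k1, hk1⟩ := (hS.image Sigma.fst).bddAbove
  obtain ⟨k2, hk2⟩ := (hT.image fun A => A.k + 1).bddAbove
  obtain ⟨k, hk⟩ : ∃ k, k = max k1 k2 := ⟨_, rfl⟩
  have hkS : ∀ z ∈ Sy T, z.1 ≤ k := fun z hz => by
    rw [hk]
    exact (hk1 ⟨z, hz, rfl⟩).trans (le_max_left _ _)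
  have hkT : ∀ A ∈ T, A.k + 1 ≤ k := fun A hA => by
    rw [hk]
    exact (hk2 ⟨A, hA, rfl⟩).trans (le_max_right _ _)
  refine ⟨k, (Sy T).ncard + T.ncard + 3 * k, fun n m D hn hne => ?_⟩
  have hn0 : 0 < n := by omega
  have hmono : ∀ i, i ≤ (Sy T).ncard + T.ncard + 3 * k → n ^ i ≤ n ^ ((Sy T).ncard + T.ncard + 3 * k) :=
    fun i hi => Nat.pow_le_pow_right hn0 hi
  have hSf : Finite (Sy T) := hS
  have hTf : Finite T := hT
  -- the atoms
  obtain ⟨At, hAt⟩ : ∃ At : Set (Atom Rel (Fin n)),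
      At = {x | (⟨x.1, x.2.1⟩ : Σ r : ℕ, Rel r) ∈ Sy T} := ⟨_, rfl⟩
  have hmem : ∀ x : Atom Rel (Fin n), x ∈ At ↔ (⟨x.1, x.2.1⟩ : Σ r : ℕ, Rel r) ∈ Sy T := by
    intro x
    rw [hAt]
    rfl
  let F : At → Sy T × (Fin k → Fin n) := fun x => (⟨⟨x.1.1, x.1.2.1⟩, (hmem x.1).1 x.2⟩,
    fun i => if h : i.1 < x.1.1 then x.1.2.2 ⟨i.1, h⟩ else ⟨0, hn0⟩)
  have hFi : Function.Injective F := by
    rintro ⟨⟨r, R, v⟩, hx⟩ ⟨⟨r', R', v'⟩, hx'⟩ h
    have h1 : (⟨r, R⟩ : Σ r : ℕ, Rel r) = ⟨r', R'⟩ := congrArg (fun z => (Prod.fst z).1) h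
    have h2 : (fun i : Fin k => if h : i.1 < r then v ⟨i.1, h⟩ else (⟨0, hn0⟩ : Fin n)) =
        fun i : Fin k => if h : i.1 < r' then v' ⟨i.1, h⟩ else ⟨0, hn0⟩ := congrArg Prod.snd h
    obtain rfl : r = r' := congrArg Sigma.fst h1
    obtain rfl : R = R' := eq_of_heq (Sigma.mk.inj h1).2
    have hr : r ≤ k := hkS ⟨r, R⟩ ((hmem _).1 hx)
    have h3 : v = v' := by
      funext i
      have h4 := congrFun h2 ⟨i.1, i.2.trans_le hr⟩
      beta_reduce at h4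
      rw [dif_pos i.2, dif_pos i.2] at h4
      exact h4
    subst h3
    rfl
  have hAf : Finite At := Finite.of_injective F hFi
  obtain ⟨L, hL⟩ : ∃ L, L = Nat.card At := ⟨_, rfl⟩
  obtain ⟨e⟩ : Nonempty (At ≃ Fin L) := ⟨Finite.equivFinOfCardEq hL.symm⟩
  have hLle : L ≤ (Sy T).ncard * n ^ k := by
    have h1 := Nat.card_le_card_of_injective F hFi
    rw [Nat.card_prod, Nat.card_fun, Nat.card_eq_fintype_card (α := Fin n), Fintype.card_fin,
      Nat.card_eq_fintype_card (α := Fin k), Fintype.card_fin, Nat.card_coe_set_eq] at h1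
    rw [hL]
    exact h1
  obtain ⟨a, ha⟩ : ∃ a : ℕ → Atom Rel (Fin n), a = fun s =>
      if h : s < L then (e.symm ⟨s, h⟩).1 else Classical.arbitrary _ := ⟨_, rfl⟩
  have has : ∀ s (h : s < L), a s = (e.symm ⟨s, h⟩).1 := by
    intro s h
    rw [ha]
    exact dif_pos h
  have haA : ∀ s, s < L → a s ∈ At := by
    intro s h
    rw [has s h]
    exact (e.symm ⟨s, h⟩).2
  have hAa : ∀ x ∈ At, ∃ s < L, x = a s := by
    intro x hx
    refine ⟨(e ⟨x, hx⟩).1, (e ⟨x, hx⟩).2, ?_⟩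
    rw [has _ (e ⟨x, hx⟩).2]
    simp
  refine ⟨L, a, ⟨inferInstance, hT, ?_, ?_, ?_, ?_, hkT⟩, ?_, ?_, ?_⟩
  · intro s hs g
    exact hAa _ ((hmem _).2 ((hmem (a s)).1 (haA s hs)))
  · intro s hs s' hs' h
    rw [has s hs, has s' hs'] at h
    have h1 := e.symm.injective (Subtype.ext h)
    exact congrArg Fin.val h1
  · intro s hs
    exact (enu_range (a s).2.2).trans (hkS _ ((hmem (a s)).1 (haA s hs)))
  · intro A hA v x hx
    refine hAa _ ((hmem _).2 ?_)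
    rcases hx with ⟨l, hl', rfl⟩ | ⟨l, hl', y, rfl⟩
    · exact ⟨A, hA, Or.inl ⟨l, hl', rfl⟩⟩
    · exact ⟨A, hA, Or.inr ⟨l, hl', rfl⟩⟩
  · have h1 := enu_two (Sy T).ncard n hn
    have h2 : 1 ≤ n ^ k := Nat.one_le_pow _ _ hn0
    calc L + 1 ≤ (Sy T).ncard * n ^ k + 1 := Nat.add_le_add_right hLle 1
      _ ≤ ((Sy T).ncard + 1) * n ^ k := by rw [Nat.add_mul]; omega
      _ ≤ n ^ (Sy T).ncard * n ^ k := Nat.mul_le_mul_right _ h1
      _ = n ^ ((Sy T).ncard + k) := (pow_add _ _ _).symm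
      _ ≤ _ := hmono _ (by omega)
  · exact (enu_sets n k hn).trans (hmono _ (by omega))
  · let _ : Fintype T := hT.fintype
    rw [Nat.card_sigma]
    have h1 : ∀ A ∈ (Finset.univ : Finset T), Nat.card (Fin A.1.k → Fin n) ≤ n ^ k := by
      intro A _
      rw [Nat.card_fun, Nat.card_eq_fintype_card (α := Fin n), Fintype.card_fin,
        Nat.card_eq_fintype_card (α := Fin A.1.k), Fintype.card_fin]
      exact Nat.pow_le_pow_right hn0 ((Nat.le_succ _).trans (hkT A.1 A.2))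
    refine (Finset.sum_le_card_nsmul _ _ _ h1).trans ?_
    rw [smul_eq_mul, Finset.card_univ, ← Nat.card_eq_fintype_card, Nat.card_coe_set_eq]
    calc T.ncard * n ^ k ≤ n ^ T.ncard * n ^ k :=
          Nat.mul_le_mul_right _ ((Nat.le_succ _).trans (enu_two T.ncard n hn))
      _ = n ^ (T.ncard + k) := (pow_add _ _ _).symm
      _ ≤ _ := hmono _ (by omega)

end Pool.Agent.H29.NS
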