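import Pool.Agent.H29.NS.Be

/-!
# [H29 NS ExY] existence, the product part

`exY`: if every factor has an allowed element (after `s` stages) then some `q` has `Y s o r q`. PROOF by induction on `r`. `r = 0`: `[pl (ZY s o 0)]`: for any `q` (`D.cl o 1`): `Rf.andT` for `ZY`
with the member `mi (Y s o 0 q)`, i.e. `[pl ZY, pl (Y s o 0 q)]`, and `[mi (Y s o 0 q)]` by `Rf.andF` (`gY0`, no members); `Rf.taut2`.
`r → r + 1`, `l = ⟨r, _⟩`: CLAIM 1: for every `q`: `[pl (Y s o r q), pl (ZY s o (r+1))]`. For `x : D.G l` let `q' = Function.update q l x`. `[pl (be s l x), pl (Y s o r q), pl (ZY s o (r+1))]`: `Y_eq` gives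
`Y s o r q → Y s o r q'` (`q`, `q'` agree below `r`), `be_bb`: not both `be s l x` and `bb s o l x`; `q' l = x`; `Rf.andF` for `mi (Y s o (r+1) q')` (`gY`) gives `[pl (Y s o r q'), mi (bb s o l (q' l)), mi (Y s o (r+1) q')]`;
`Rf.andT` for `ZY s o (r+1)`: `[pl ZY, pl (Y s o (r+1) q')]`. Then `Rf.andF` for the list `mi (Zx s l) :: [pl (Y s o r q), pl (ZY s o (r+1))]` (`gZx`, members `mi (be s l x)`), and `hx l : [pl (Zx s l)]`, `Rf.cut`.
CLAIM 2: `Rf.andF` for `mi (ZY s o r) :: [pl (ZY s o (r+1))]` with claim 1, and the induction hypothesis `[pl (ZY s o r)]`, `Rf.cut`.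

`exB`: if some `q` survives stage `s` then every factor has an allowed element after stage `s`: for every `q`: `[pl (E s L q), pl (Zx (s+1) l)]`: `o = pts (a s)`. `E s L q → Y s o m q` (`E_Y`), not both `Y s o m q` and `bb s o l (q l)` (`Y_bb`). For `x` with
`(x : quotient) = q l`: `[pl (be s l x), pl (E s L q), pl (Zx (s+1) l)]`: `Rf.andT` for `Dn s l (q l)` with the member `mi (E s L q)` (`gDn`): not both `Dn` and `E s L q`; `Rf.andF` for `be (s+1) l x`: `[pl (be s l x), mi (Dn s l x), mi (be (s+1) l x)]`; `Rf.andT` for `Zx (s+1) l`: `[pl Zx, pl (be (s+1) l x)]`.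
`Rf.andF` for `mi (bb s o l (q l)) :: [pl (E s L q), pl (Zx (s+1) l)]` (`gbb`, members `mi (be s l x)`). Then `Rf.andF` for `mi (ZE s L) :: [pl (Zx (s+1) l)]` (`gZE`) and `Rf.cut` with `h`.
-/

set_option autoImplicit false

open Set

namespace Pool.Agent.H29.NS

open Pool.Agent.H42.CS

variable {Rel : ℕ → Type} {P : Type} {m : ℕ} {T : Set (Ax Rel)} {D : Pd P m} {C : Circuit Rel P} {L k : ℕ}
  {a : ℕ → Atom Rel P} (H : Gad T D C L k a)

private theorem xres {l f g : List (Lit C.N)} (n : C.N) (h : Rf T C f) (hf : ∀ y ∈ f, y ∈ pl n :: l)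
    (h' : Rf T C g) (hg : ∀ y ∈ g, y ∈ mi n :: l) (hw : l.length ≤ 15) : Rf T C l :=
  Rf.cut (pl n) (h.mono hf (by rw [List.length_cons]; omega))
    (h'.mono hg (by rw [List.length_cons]; omega)) (by omega)

theorem Gad.exY {s : ℕ} (hs : s ≤ L) (hx : ∀ l, Rf T C [pl (H.Zx s l)]) {o : Set P} (ho : o.ncard ≤ k) :
    ∀ r ≤ m, Rf T C [pl (H.ZY s o r)] := by
  intro r
  induction r with
  | zero =>
    intro hr
    have h1 : Rf T C [pl (H.ZY s o 0), pl (H.Y s o 0 (D.cl o 1))] :=
      Rf.andT (x := mi (H.Y s o 0 (D.cl o 1))) (H.gZY s hs o ho 0 hr) ⟨D.cl o 1, rfl⟩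
    have h2 : Rf T C [mi (H.Y s o 0 (D.cl o 1))] :=
      Rf.andF (H.gY0 s hs o ho (D.cl o 1)) (by simp) (fun x hx => absurd hx (notMem_empty _)) (by simp)
    exact xres (H.Y s o 0 (D.cl o 1)) h1 (by simp) h2 (by simp) (by simp)
  | succ r ih =>
    intro hr
    obtain ⟨l, hl⟩ : ∃ l : Fin m, l = ⟨r, hr⟩ := ⟨_, rfl⟩
    have c1 : ∀ q : D.Q o, Rf T C [pl (H.Y s o r q), pl (H.ZY s o (r + 1))] := by
      intro q
      have hB : ∀ x : D.G l, Rf T C [pl (H.be s l x), pl (H.Y s o r q), pl (H.ZY s o (r + 1))] := by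
        intro x
        obtain ⟨q', hq'⟩ : ∃ q' : D.Q o, q' = Function.update q l (x : D.G l ⧸ D.K o l) := ⟨_, rfl⟩
        have hql : q' l = (x : D.G l ⧸ D.K o l) := by rw [hq', Function.update_self]
        have a1 : Rf T C [pl (H.Y s o r q), mi (H.Y s o r q')] := by
          refine H.Y_eq hs ho (by omega) fun l' hl' => ?_
          rw [hq', Function.update_of_ne]
          rintro rfl
          rw [hl] at hl'
          exact lt_irrefl _ hl'
        have a2 : Rf T C [pl (H.be s l x), pl (H.bb s o l (q' l))] := by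
          rw [hql]
          exact H.be_bb hs ho l x
        have hg : C.gate (H.Y s o (r + 1) q') = .and {pl (H.Y s o r q'), mi (H.bb s o l (q' l))} := by
          rw [hl]
          exact H.gY s hs o ho r hr q'
        have a3 : Rf T C [mi (H.Y s o (r + 1) q'), pl (H.Y s o r q'), mi (H.bb s o l (q' l))] := by
          refine Rf.andF hg (by simp) (fun x hx => ?_) (by simp)
          rcases hx with rfl | hx
          · exact Rf.triv (pl (H.Y s o r q')) (by simp) List.mem_cons_self (by simp)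
          · rw [mem_singleton_iff.1 hx]
            exact Rf.triv (mi (H.bb s o l (q' l))) (by simp) List.mem_cons_self (by simp)
        have a4 : Rf T C [pl (H.ZY s o (r + 1)), pl (H.Y s o (r + 1) q')] :=
          Rf.andT (x := mi (H.Y s o (r + 1) q')) (H.gZY s hs o ho (r + 1) hr) ⟨q', rfl⟩
        refine xres (H.Y s o (r + 1) q') a4 (by simp) (g := mi (H.Y s o (r + 1) q') ::
          [pl (H.be s l x), pl (H.Y s o r q), pl (H.ZY s o (r + 1))]) ?_ (by simp) (by simp)
        refine xres (H.Y s o r q') (f := pl (H.Y s o r q') :: mi (H.Y s o (r + 1) q') ::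
          [pl (H.be s l x), pl (H.Y s o r q), pl (H.ZY s o (r + 1))]) ?_ (by simp) a1 (by simp) (by simp)
        exact xres (H.bb s o l (q' l)) a2 (by simp) a3 (by simp) (by simp)
      have c3 : Rf T C [mi (H.Zx s l), pl (H.Y s o r q), pl (H.ZY s o (r + 1))] := by
        refine Rf.andF (H.gZx s hs l) (by simp) (fun x hx => ?_) (by simp)
        obtain ⟨x', rfl⟩ := hx
        exact (hB x').mono (by simp [Lit.neg]) (by simp)
      exact xres (H.Zx s l) (hx l) (by simp) c3 (by simp) (by simp)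
    have c2 : Rf T C [mi (H.ZY s o r), pl (H.ZY s o (r + 1))] := by
      refine Rf.andF (H.gZY s hs o ho r (by omega)) (by simp) (fun x hx => ?_) (by simp)
      obtain ⟨q, rfl⟩ := hx
      exact (c1 q).mono (by simp [Lit.neg]) (by simp)
    exact xres (H.ZY s o r) (ih (by omega)) (by simp) c2 (by simp) (by simp)

theorem Gad.exB {s : ℕ} (hs : s < L) (h : Rf T C [pl (H.ZE s L)]) (l : Fin m) :
    Rf T C [pl (H.Zx (s + 1) l)] := by
  have ho := H.cd s hs
  have c1 : ∀ q : D.Q (pts (a s)), Rf T C [pl (H.E s L q), pl (H.Zx (s + 1) l)] := by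
    intro q
    have b1 := H.E_Y hs le_rfl q
    have b2 := H.Y_bb hs.le ho l l.2 le_rfl q
    have hB : ∀ x : D.G l, (x : D.G l ⧸ D.K (pts (a s)) l) = q l →
        Rf T C [pl (H.be s l x), pl (H.E s L q), pl (H.Zx (s + 1) l)] := by
      intro x hx
      have a1 : Rf T C [pl (H.Dn s l (x : D.G l ⧸ D.K (pts (a s)) l)), pl (H.E s L q)] :=
        Rf.andT (x := mi (H.E s L q)) (H.gDn s hs l _) ⟨q, hx.symm, rfl⟩
      have a2 : Rf T C [mi (H.be (s + 1) l x), pl (H.be s l x),
          mi (H.Dn s l (x : D.G l ⧸ D.K (pts (a s)) l))] := by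
        refine Rf.andF (H.gbe s hs l x) (by simp) (fun y hy => ?_) (by simp)
        rcases hy with rfl | hy
        · exact Rf.triv (pl (H.be s l x)) (by simp) List.mem_cons_self (by simp)
        · rw [mem_singleton_iff.1 hy]
          exact Rf.triv (mi (H.Dn s l (x : D.G l ⧸ D.K (pts (a s)) l))) (by simp) List.mem_cons_self (by simp)
      have a3 : Rf T C [pl (H.Zx (s + 1) l), pl (H.be (s + 1) l x)] :=
        Rf.andT (x := mi (H.be (s + 1) l x)) (H.gZx (s + 1) hs l) ⟨x, rfl⟩
      refine xres (H.be (s + 1) l x) a3 (by simp) (g := mi (H.be (s + 1) l x) ::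
        [pl (H.be s l x), pl (H.E s L q), pl (H.Zx (s + 1) l)]) ?_ (by simp) (by simp)
      exact xres (H.Dn s l (x : D.G l ⧸ D.K (pts (a s)) l)) a1 (by simp) a2 (by simp) (by simp)
    have c3 : Rf T C [mi (H.bb s (pts (a s)) l (q l)), pl (H.E s L q), pl (H.Zx (s + 1) l)] := by
      refine Rf.andF (H.gbb s hs.le _ ho l (q l)) (by simp) (fun y hy => ?_) (by simp)
      obtain ⟨x, hx, rfl⟩ := hy
      exact (hB x hx).mono (by simp [Lit.neg]) (by simp)
    refine xres (H.bb s (pts (a s)) l (q l)) (f := pl (H.bb s (pts (a s)) l (q l)) ::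
      [pl (H.E s L q), pl (H.Zx (s + 1) l)]) ?_ (by simp) c3 (by simp) (by simp)
    exact xres (H.Y s (pts (a s)) m q) b2 (by simp) b1 (by simp) (by simp)
  have c2 : Rf T C [mi (H.ZE s L), pl (H.Zx (s + 1) l)] := by
    refine Rf.andF (H.gZE s hs L le_rfl) (by simp) (fun y hy => ?_) (by simp)
    obtain ⟨q, rfl⟩ := hy
    exact (c1 q).mono (by simp [Lit.neg]) (by simp)
  exact xres (H.ZE s L) h (by simp) c2 (by simp) (by simp)

end Pool.Agent.H29.NS
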