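import Pool.Agent.H29.NS.ExE

/-!
# [H29 NS Ext] extension of an allowed class to a finer one

`ext`: CLAIM for `r ≤ m` and `q' : D.Q o'` with `res q' l = q l` for all `l` with `l.1 < r` (and arbitrary other components): `[pl (Y L o' r q'), pl (Y L o m q)] ++ Γ` is refuted. Downward induction on `r` (induction on `m - r`).
`r = m`: `res q' = q`, the hypothesis `hq` and `Rf.mono`. `r < m`, `l = ⟨r, _⟩`, list `Γ' = pl (Y L o' r q') :: pl (Y L o m q) :: Γ`. For every `x : D.G l` with class (for `o`) equal to `q l`: `pl (be L l x) :: Γ'` is refuted: let `q'' = Function.update q' l x` (class for `o'`); `res q'' l = q l`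
(`Subgroup.quotientMapOfLE` of the class of `x` is the class of `x`), so the claim for `r + 1` and `q''`: `pl (Y L o' (r+1) q'') :: pl (Y L o m q) :: Γ`; `Y L o' r q' → Y L o' r q''` (`Y_eq`), `be_bb` for `o'`: not both `be L l x` and `bb L o' l (q'' l)`;
`Rf.andF` for `mi (Y L o' (r+1) q'')` (`gY`). (Cut on `pl (Y L o' (r+1) q'')`, `Rf.cut`, with `Rf.mono`; `Γ` is arbitrary, so `Rf.taut` is used only for the lists without `Γ`, e.g. `[pl (be L l x), pl (Y L o' r q'), mi (Y L o' (r+1) q'')]`.)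
Then `Rf.andF` for `mi (bb L o l (q l)) :: Γ'` (`gbb`, members `mi (be L l x)`, `x` in the class `q l`), and `[pl (Y L o m q), pl (bb L o l (q l))]` (`Y_bb`), `Rf.cut`. The claim for `r = 0`, any `q'` (`D.cl o' 1`): `[pl (Y L o' 0 q'), pl (Y L o m q)] ++ Γ`, and `[mi (Y L o' 0 q')]` (`Rf.andF`, `gY0`): `Rf.cut`.
`ext0`: `Rf.andF` for `mi (ZY L o m) :: Γ` (`gZY`) and `ex_Y`, `Rf.cut`.
-/

set_option autoImplicit false

open Set

namespace Pool.Agent.H29.NS

open Pool.Agent.H42.CS

variable {Rel : ℕ → Type} {P : Type} {m : ℕ} {T : Set (Ax Rel)} {D : Pd P m} {C : Circuit Rel P} {L k : ℕ}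
  {a : ℕ → Atom Rel P} (H : Gad T D C L k a)

private theorem ext_cut {f g l : List (Lit C.N)} (x : Lit C.N) (hf : Rf T C f) (hg : Rf T C g)
    (h1 : ∀ y ∈ f, y = x ∨ y ∈ l) (h2 : ∀ y ∈ g, y = x.neg ∨ y ∈ l) (hw : l.length ≤ 15) :
    Rf T C l :=
  Rf.cut x (hf.mono (fun y hy => List.mem_cons.2 (h1 y hy)) (by rw [List.length_cons]; omega))
    (hg.mono (fun y hy => List.mem_cons.2 (h2 y hy)) (by rw [List.length_cons]; omega)) (by omega)

private theorem ext_ind {o o' : Set P} (ho : o.ncard ≤ k) (ho' : o'.ncard ≤ k) (h : ∀ l, D.K o' l ≤ D.K o l)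
    (q : D.Q o) (Γ : List (Lit C.N)) (hΓ : Γ.length ≤ 8)
    (hq : ∀ q' : D.Q o', D.res h q' = q → Rf T C (pl (H.Y L o' m q') :: Γ)) (d : ℕ) :
    ∀ r : ℕ, r + d = m → ∀ q' : D.Q o', (∀ l : Fin m, l.1 < r → D.res h q' l = q l) →
      Rf T C (pl (H.Y L o' r q') :: pl (H.Y L o m q) :: Γ) := by
  induction d with
  | zero =>
    intro r hr q' hq'
    have hr : r = m := hr
    subst hr
    exact (hq q' (funext fun l => hq' l l.2)).mono (by
      intro x hx
      rcases List.mem_cons.1 hx with rfl | hx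
      · exact List.mem_cons_self
      · exact List.mem_cons_of_mem _ (List.mem_cons_of_mem _ hx)) (by
      rw [List.length_cons, List.length_cons]
      omega)
  | succ d ih =>
    intro r hr q' hq'
    have hrm : r < m := by omega
    have h2 : Rf T C (mi (H.bb L o ⟨r, hrm⟩ (q ⟨r, hrm⟩)) :: pl (H.Y L o' r q') :: pl (H.Y L o m q) :: Γ) := by
      refine Rf.andF (H.gbb L le_rfl _ ho ⟨r, hrm⟩ (q ⟨r, hrm⟩)) List.mem_cons_self ?_ (by
        rw [List.length_cons, List.length_cons, List.length_cons]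
        omega)
      rintro z ⟨x, hx, rfl⟩
      obtain ⟨q'', hq''⟩ : ∃ q'' : D.Q o', q'' = Function.update q' ⟨r, hrm⟩ (x : D.G ⟨r, hrm⟩ ⧸ D.K o' ⟨r, hrm⟩) :=
        ⟨_, rfl⟩
      have hs : q'' ⟨r, hrm⟩ = (x : D.G ⟨r, hrm⟩ ⧸ D.K o' ⟨r, hrm⟩) := by
        rw [hq'', Function.update_self]
      have hne : ∀ l : Fin m, l.1 ≠ r → q'' l = q' l := by
        intro l hl
        rw [hq'', Function.update_of_ne fun h => hl (congrArg Fin.val h)]
      have e0 := ih (r + 1) (by omega) q'' (by
        intro l hl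
        by_cases hl' : l.1 = r
        · have hl2 : l = ⟨r, hrm⟩ := Fin.ext hl'
          subst hl2
          change Subgroup.quotientMapOfLE (h _) (q'' _) = _
          rw [hs, ← hx]
          rfl
        · change Subgroup.quotientMapOfLE (h _) (q'' _) = _
          rw [hne l hl']
          exact hq' l (by omega))
      have e1 : Rf T C [pl (H.Y L o' r q'), mi (H.Y L o' r q'')] :=
        H.Y_eq le_rfl ho' hrm.le fun l hl => (hne l (by omega)).symm
      have e2 : Rf T C [pl (H.be L ⟨r, hrm⟩ x), pl (H.bb L o' ⟨r, hrm⟩ (q'' ⟨r, hrm⟩))] := by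
        rw [hs]
        exact H.be_bb le_rfl ho' _ x
      have e3 : Rf T C [mi (H.Y L o' (r + 1) q''), pl (H.Y L o' r q'), pl (H.be L ⟨r, hrm⟩ x)] := by
        refine Rf.andF (H.gY L le_rfl _ ho' r hrm q'') List.mem_cons_self ?_ (by simp)
        intro z hz
        rcases hz with rfl | rfl
        · exact e1.mono (by simp [Lit.neg]) (by simp)
        · exact e2.mono (by simp [Lit.neg]) (by simp)
      refine ext_cut (pl (H.Y L o' (r + 1) q'')) e0 e3 ?_ ?_ ?_
      · intro y hy
        rcases List.mem_cons.1 hy with rfl | hy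
        · exact Or.inl rfl
        · exact Or.inr (List.mem_cons_of_mem _ (List.mem_cons_of_mem _ (List.mem_cons_of_mem _ hy)))
      · intro y hy
        simp only [List.mem_cons, List.not_mem_nil, or_false] at hy
        rcases hy with rfl | rfl | rfl
        · exact Or.inl rfl
        · exact Or.inr (by simp)
        · exact Or.inr (by simp [Lit.neg])
      · rw [List.length_cons, List.length_cons, List.length_cons, List.length_cons]
        omega
    refine ext_cut (pl (H.bb L o ⟨r, hrm⟩ (q ⟨r, hrm⟩))) (H.Y_bb le_rfl ho ⟨r, hrm⟩ hrm le_rfl q) h2 ?_ ?_ ?_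
    · intro y hy
      simp only [List.mem_cons, List.not_mem_nil, or_false] at hy
      rcases hy with rfl | rfl
      · exact Or.inr (by simp)
      · exact Or.inl rfl
    · intro y hy
      rcases List.mem_cons.1 hy with rfl | hy
      · exact Or.inl rfl
      · exact Or.inr hy
    · rw [List.length_cons, List.length_cons]
      omega

theorem Gad.ext {o o' : Set P} (ho : o.ncard ≤ k) (ho' : o'.ncard ≤ k) (h : ∀ l, D.K o' l ≤ D.K o l)
    (q : D.Q o) (Γ : List (Lit C.N)) (hΓ : Γ.length ≤ 8)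
    (hq : ∀ q' : D.Q o', D.res h q' = q → Rf T C (pl (H.Y L o' m q') :: Γ)) :
    Rf T C (pl (H.Y L o m q) :: Γ) := by
  have h1 := ext_ind H ho ho' h q Γ hΓ hq m 0 (Nat.zero_add m) (D.cl o' 1) fun l hl =>
    absurd hl (Nat.not_lt_zero _)
  have h2 : Rf T C [mi (H.Y L o' 0 (D.cl o' 1))] :=
    Rf.andF (H.gY0 L le_rfl _ ho' _) List.mem_cons_self (fun x hx => absurd hx (notMem_empty _)) (by simp)
  refine ext_cut (pl (H.Y L o' 0 (D.cl o' 1))) h1 h2 ?_ ?_ ?_
  · intro y hy
    rcases List.mem_cons.1 hy with rfl | hy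
    · exact Or.inl rfl
    · exact Or.inr hy
  · intro y hy
    exact Or.inl (List.mem_singleton.1 hy)
  · rw [List.length_cons]
    omega

theorem Gad.ext0 {o : Set P} (ho : o.ncard ≤ k) (Γ : List (Lit C.N)) (hΓ : Γ.length ≤ 8)
    (hq : ∀ q : D.Q o, Rf T C (pl (H.Y L o m q) :: Γ)) : Rf T C Γ := by
  have h1 : Rf T C (mi (H.ZY L o m) :: Γ) := by
    refine Rf.andF (H.gZY L le_rfl _ ho m le_rfl) List.mem_cons_self ?_ (by
      rw [List.length_cons]
      omega)
    rintro x ⟨q, rfl⟩
    refine (hq q).mono (fun y hy => ?_) (by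
      rw [List.length_cons, List.length_cons]
      omega)
    rcases List.mem_cons.1 hy with rfl | hy
    · exact List.mem_cons_self
    · exact List.mem_cons_of_mem _ (List.mem_cons_of_mem _ hy)
  refine ext_cut (pl (H.ZY L o m)) (H.ex_Y le_rfl ho le_rfl) h1 ?_ ?_ (by omega)
  · intro y hy
    exact Or.inl (List.mem_singleton.1 hy)
  · intro y hy
    rcases List.mem_cons.1 hy with rfl | hy
    · exact Or.inl rfl
    · exact Or.inr hy

end Pool.Agent.H29.NS
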