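import Pool.Agent.H29.NS.Cir

/-!
# [H29 NS GadC] the circuit contains the gadget

The fields are the gate equations. PROOFS. Each equation: `gate_mk h` (the name is good, from the hypotheses on the indices), then `gt` unfolds (`rfl`/`show`), and the image of the set of the children under `Lit.map (mk T D L k a)` is computed:
`Lit.map f ⟨x, s⟩ = ⟨f x, s⟩` is `rfl`; for `{pl u, mi w}`: `Set.image_pair`; for set-builders and ranges: `Set.ext` / `Set.range_comp`-like, `Set.image_setOf`-like (a private lemma: `Lit.map f '' {z | ∃ x, p x ∧ z = ⟨u x, s x⟩} = {z | ∃ x, p x ∧ z = ⟨f (u x), s x⟩}`).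
`Y (r+1)`: for `h : r < m` the set `{z | z = pl … ∨ ∃ h : r < m, z = mi …}` is the pair. `E (j+1)`: with `D.Orb (a s) (a j)` the set is the pair, without it the singleton. `U`, `K` with `D.Orb`: the pair. `cv (a s)`: the set `{z | ∃ s' < L, a s = a s' ∧ z = pl (b s' s')}` is `{pl (b s s)}` by `h.inj`.
`gV`: `Gate.map id` of `.var x` is `.var x` (`rfl` after eta). `st`, `cd`, `inst`, `vk`: fields of `h`.
-/

set_option autoImplicit false

open Set

namespace Pool.Agent.H29.NS

open Pool.Agent.H42.CS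

variable {Rel : ℕ → Type} {P : Type} {m : ℕ}

private theorem im_empty {N N' : Type} (f : N → N') : Lit.map f '' (∅ : Set (Lit N)) = ∅ := image_empty _

private theorem im_pair {N N' : Type} (f : N → N') (x y : Lit N) :
    Lit.map f '' {x, y} = {Lit.map f x, Lit.map f y} := image_pair _ _ _

private theorem im_single {N N' : Type} (f : N → N') (x : Lit N) :
    Lit.map f '' {x} = {Lit.map f x} := image_singleton

private theorem im_ex {N N' α : Type} (f : N → N') (p : α → Prop) (u : α → Lit N) :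
    Lit.map f '' {z | ∃ x, p x ∧ z = u x} = {z | ∃ x, p x ∧ z = Lit.map f (u x)} := by
  ext z
  constructor
  · rintro ⟨_, ⟨x, hx, rfl⟩, rfl⟩
    exact ⟨x, hx, rfl⟩
  · rintro ⟨x, hx, rfl⟩
    exact ⟨u x, ⟨x, hx, rfl⟩, rfl⟩

private theorem im_range {N N' α : Type} (f : N → N') (u : α → Lit N) :
    Lit.map f '' range u = range fun x => Lit.map f (u x) := by
  rw [← range_comp]
  rfl

/-- the gadget in the circuit -/
noncomputable def gadC {T : Set (Ax Rel)} {D : Pd P m} {L k : ℕ} {a : ℕ → Atom Rel P} (h : Dat T D L k a) :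
    Gad T D (cir h) L k a where
  V x := mk T D L k a (.V x)
  be s l x := mk T D L k a (.be s l x)
  bb s o l y := mk T D L k a (.bb s o l y)
  Y s o r q := mk T D L k a (.Y s o r q)
  E s j q := mk T D L k a (.E s j q)
  U s j q := mk T D L k a (.U s j q)
  b s j := mk T D L k a (.b s j)
  K s j q := mk T D L k a (.K s j q)
  Dn s l y := mk T D L k a (.Dn s l y)
  Zx s l := mk T D L k a (.Zx s l)
  ZY s o r := mk T D L k a (.ZY s o r)
  ZE s j := mk T D L k a (.ZE s j)
  cv x := mk T D L k a (.cv x)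
  W A v := mk T D L k a (.W A v)
  W0 A v := mk T D L k a (.W0 A v)
  st := h.st
  cd := h.cd
  inst := h.inst
  vk := h.vk
  gV := by
    intro s hs
    exact gate_mk h (x := .V (a s)) ⟨s, hs, rfl⟩
  gbe0 := by
    intro l x
    refine (gate_mk h (x := .be 0 l x) (Nat.zero_le _)).trans ?_
    exact congrArg Gate.and (im_empty _)
  gbe := by
    intro s hs l x
    refine (gate_mk h (x := .be (s + 1) l x) hs).trans ?_
    show Gate.and (Lit.map _ '' {_, _}) = _
    rw [im_pair]
    rfl
  gbb := by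
    intro s hs o ho l y
    refine (gate_mk h (x := .bb s o l y) ⟨hs, ho⟩).trans ?_
    show Gate.and (Lit.map _ '' {z : Lit (Nod D a) | ∃ x : D.G l, (x : D.G l ⧸ D.K o l) = y ∧ z = mi (.be s l x)}) = _
    rw [im_ex]
    rfl
  gY0 := by
    intro s hs o ho q
    refine (gate_mk h (x := .Y s o 0 q) ⟨hs, ho, Nat.zero_le _⟩).trans ?_
    exact congrArg Gate.and (im_empty _)
  gY := by
    intro s hs o ho r hr q
    refine (gate_mk h (x := .Y s o (r + 1) q) ⟨hs, ho, hr⟩).trans ?_
    have e : {z : Lit (Nod D a) | z = pl (.Y s o r q) ∨ ∃ h : r < m, z = mi (.bb s o ⟨r, h⟩ (q ⟨r, h⟩))} =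
        {pl (.Y s o r q), mi (.bb s o ⟨r, hr⟩ (q ⟨r, hr⟩))} := by
      ext z
      constructor
      · rintro (rfl | ⟨h', rfl⟩)
        · exact Or.inl rfl
        · exact Or.inr rfl
      · rintro (rfl | rfl)
        · exact Or.inl rfl
        · exact Or.inr ⟨hr, rfl⟩
    show Gate.and (Lit.map _ '' {z : Lit (Nod D a) | z = pl (.Y s o r q) ∨ ∃ h : r < m, z = mi (.bb s o ⟨r, h⟩ (q ⟨r, h⟩))}) = _
    rw [e, im_pair]
    rfl
  gE0 := by
    intro s hs q
    refine (gate_mk h (x := .E s 0 q) ⟨hs, Nat.zero_le _⟩).trans ?_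
    show Gate.and (Lit.map _ '' {_}) = _
    rw [im_single]
    rfl
  gE1 := by
    intro s hs j hj ho q
    refine (gate_mk h (x := .E s (j + 1) q) ⟨hs, hj⟩).trans ?_
    have e : {z : Lit (Nod D a) | z = pl (.E s j q) ∨ D.Orb (a s) (a j) ∧ z = mi (.K s j q)} =
        {pl (.E s j q), mi (.K s j q)} := by
      ext z
      constructor
      · rintro (rfl | ⟨h', rfl⟩)
        · exact Or.inl rfl
        · exact Or.inr rfl
      · rintro (rfl | rfl)
        · exact Or.inl rfl
        · exact Or.inr ⟨ho, rfl⟩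
    show Gate.and (Lit.map _ '' {z : Lit (Nod D a) | z = pl (.E s j q) ∨ D.Orb (a s) (a j) ∧ z = mi (.K s j q)}) = _
    rw [e, im_pair]
    rfl
  gE2 := by
    intro s hs j hj ho q
    refine (gate_mk h (x := .E s (j + 1) q) ⟨hs, hj⟩).trans ?_
    have e : {z : Lit (Nod D a) | z = pl (.E s j q) ∨ D.Orb (a s) (a j) ∧ z = mi (.K s j q)} =
        {pl (.E s j q)} := by
      ext z
      constructor
      · rintro (rfl | ⟨h', rfl⟩)
        · rfl
        · exact absurd h' ho
      · rintro rfl
        exact Or.inl rfl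
    show Gate.and (Lit.map _ '' {z : Lit (Nod D a) | z = pl (.E s j q) ∨ D.Orb (a s) (a j) ∧ z = mi (.K s j q)}) = _
    rw [e, im_single]
    rfl
  gU := by
    intro s hs j hj ho q
    refine (gate_mk h (x := .U s j q) ⟨hs, hj⟩).trans ?_
    have e : {z : Lit (Nod D a) | D.Orb (a s) (a j) ∧
        (z = pl (.E s j q) ∨ z = mi (.V (D.ga (D.rp q) (a j))))} =
        {pl (.E s j q), mi (.V (D.ga (D.rp q) (a j)))} := by
      ext z
      constructor
      · rintro ⟨-, h'⟩
        exact h'
      · intro h'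
        exact ⟨ho, h'⟩
    show Gate.and (Lit.map _ '' {z : Lit (Nod D a) | D.Orb (a s) (a j) ∧
        (z = pl (.E s j q) ∨ z = mi (.V (D.ga (D.rp q) (a j))))}) = _
    rw [e, im_pair]
    rfl
  gb := by
    intro s hs j hj _
    refine (gate_mk h (x := .b s j) ⟨hs, hj⟩).trans ?_
    show Gate.and (Lit.map _ '' range _) = _
    rw [im_range]
    rfl
  gK := by
    intro s hs j hj ho q
    refine (gate_mk h (x := .K s j q) ⟨hs, hj⟩).trans ?_
    have e : {z : Lit (Nod D a) | D.Orb (a s) (a j) ∧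
        (z = pl (.V (D.ga (D.rp q) (a j))) ∨ z = mi (.b s j))} =
        {pl (.V (D.ga (D.rp q) (a j))), mi (.b s j)} := by
      ext z
      constructor
      · rintro ⟨-, h'⟩
        exact h'
      · intro h'
        exact ⟨ho, h'⟩
    show Gate.and (Lit.map _ '' {z : Lit (Nod D a) | D.Orb (a s) (a j) ∧
        (z = pl (.V (D.ga (D.rp q) (a j))) ∨ z = mi (.b s j))}) = _
    rw [e, im_pair]
    rfl
  gDn := by
    intro s hs l y
    refine (gate_mk h (x := .Dn s l y) hs).trans ?_
    show Gate.and (Lit.map _ '' {z : Lit (Nod D a) | ∃ q : D.Q (pts (a s)), q l = y ∧ z = mi (.E s L q)}) = _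
    rw [im_ex]
    rfl
  gZx := by
    intro s hs l
    refine (gate_mk h (x := .Zx s l) hs).trans ?_
    show Gate.and (Lit.map _ '' range _) = _
    rw [im_range]
    rfl
  gZY := by
    intro s hs o ho r hr
    refine (gate_mk h (x := .ZY s o r) ⟨hs, ho, hr⟩).trans ?_
    show Gate.and (Lit.map _ '' range _) = _
    rw [im_range]
    rfl
  gZE := by
    intro s hs j hj
    refine (gate_mk h (x := .ZE s j) ⟨hs, hj⟩).trans ?_
    show Gate.and (Lit.map _ '' range _) = _
    rw [im_range]
    rfl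
  gcv := by
    intro s hs
    refine (gate_mk h (x := .cv (a s)) ⟨s, hs, rfl⟩).trans ?_
    have e : {z : Lit (Nod D a) | ∃ s' < L, a s = a s' ∧ z = pl (.b s' s')} = {pl (.b s s)} := by
      ext z
      constructor
      · rintro ⟨s', hs', e', rfl⟩
        have h1 := h.inj s hs s' hs' e'
        subst h1
        rfl
      · rintro rfl
        exact ⟨s, hs, rfl, rfl⟩
    show Gate.and (Lit.map _ '' {z : Lit (Nod D a) | ∃ s' < L, a s = a s' ∧ z = pl (.b s' s')}) = _
    rw [e, im_single]
    rfl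
  gW := by
    intro A hA v
    refine (gate_mk h (x := .W A v) hA).trans ?_
    show Gate.and (Lit.map _ '' {z : Lit (Nod D a) | ∃ x, x ∈ A.inst v ∧ z = ⟨.cv x.1, !x.2⟩}) = _
    rw [im_ex]
    rfl
  gW0 := by
    intro A hA v
    refine (gate_mk h (x := .W0 A v) hA).trans ?_
    show Gate.and (Lit.map _ '' {z : Lit (Nod D a) | ∃ x, x ∈ A.inst v ∧ z = ⟨.V x.1, !x.2⟩}) = _
    rw [im_ex]
    rfl

end Pool.Agent.H29.NS
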