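import Pool.Agent.H29.NS.Can
import Pool.Agent.H29.NS.Ext
import Pool.Agent.H29.NS.Gra

/-!
# [H29 NS Ins] the axioms hold in the canonical structure

`can_lit` (atom `a s` with `K o ≤ K (pts (a s))`): `Y_res` (`o' = pts (a s)`), `can1`, `can2` for `res h q` (`ga_res`: same atom), and `cv (a s) ↔ b s s` (`gcv`: `Rf.andT` and `Rf.andF`); both values of `β`; `Rf.taut3`.

`inst_sub`: for `x ∈ A.inst (fun i => D.act (D.rp q) (v i))`, `q : D.Q (range v)`: either `x = (D.ga (D.rp q) y.1, y.2)` for some `y ∈ A.inst v` with `pts y.1 ⊆ range v` (the literals), or there are `e ∈ A.ex` and a point `p` with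
`x = (⟨e.1, e.2.1, fun i => Fin.snoc (fun i => D.act (D.rp q) (v i)) p (e.2.2 i)⟩, true)`. (Definition of `Ax.inst`.)
`can_W`: for `q : D.Q (range v)`, `g = D.rp q`, `u = fun i => D.act g (v i)`: `[mi (W0 A u), pl (W A v), pl (Y L (range v) m q)]`: `Rf.andF` for `W0 A u` (`gW0`): for `x ∈ A.inst u` with the member `⟨V x.1, !x.2⟩` refute `⟨V x.1, x.2⟩ :: ...`.
* literal: `x = (ga g y.1, y.2)`: `[pl (W A v), ⟨cv y.1, y.2⟩]` (`Rf.andT`, `gW`: member `⟨cv y.1, !y.2⟩`), `can_lit` for `y.1 = a s` (`H.inst`; `K_mono`).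
* `ex`, point `p`: `o' = insert p (range v)` (`ncard ≤ A.k + 1 ≤ k`). `Gad.ext` (`o = range v`, `K_mono`) with `Γ = [pl (V x.1), pl (W A v), mi (W0 A u)]`: for `q'` with `res q' = q` let `g' = D.rp q'`, `p0 = D.act g'⁻¹ p` and `y = (⟨e.1, e.2.1, fun i => Fin.snoc v p0 (e.2.2 i)⟩, true) ∈ A.inst v`.
  `D.act g' (v i) = D.act g (v i)` (`act_cl` with `h = 1`: `cl (range v) g' = res q' = q = cl (range v) g`: `cl_out`, `cl_rp`) and `D.act g' p0 = p`, so `x.1 = D.ga g' y.1`. `K o' ≤ K (pts y.1)`: `K_le` (the points of `y.1` are points of `v` or `p0 = D.act g'⁻¹ p`). `can_lit` for `o'`, `q'`, and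
  `[pl (W A v), pl (cv y.1)]` (`gW`).
`can_inst`: `Rf.hyp` for `W0 A u` (`gW0`, `gV`): `[pl (W0 A u)]`; with `can_W`, `Rf.cut`: `[pl (Y L (range v) m q), pl (W A v)]` for all `q`; `ext0`. (`(range v).ncard ≤ A.k`: `Set.ncard_range_le`-like / `Nat.card_range_le`.)
-/

set_option autoImplicit false

open Set

namespace Pool.Agent.H29.NS

open Pool.Agent.H42.CS

variable {Rel : ℕ → Type} {P : Type} {m : ℕ} {T : Set (Ax Rel)} {D : Pd P m} {C : Circuit Rel P} {L k : ℕ}
  {a : ℕ → Atom Rel P} (H : Gad T D C L k a)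

private theorem ins_cut {f g l : List (Lit C.N)} (x : Lit C.N) (hf : Rf T C f) (hg : Rf T C g)
    (h1 : ∀ y ∈ f, y = x ∨ y ∈ l) (h2 : ∀ y ∈ g, y = x.neg ∨ y ∈ l) (hw : l.length ≤ 15) :
    Rf T C l :=
  Rf.cut x (hf.mono (fun y hy => List.mem_cons.2 (h1 y hy)) (by rw [List.length_cons]; omega))
    (hg.mono (fun y hy => List.mem_cons.2 (h2 y hy)) (by rw [List.length_cons]; omega)) (by omega)

private theorem ins_range {n : ℕ} (v : Fin n → P) : (range v).ncard ≤ n := by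
  rw [← image_univ]
  refine (ncard_image_le (toFinite _)).trans ?_
  rw [ncard_univ, Nat.card_eq_fintype_card, Fintype.card_fin]

theorem Gad.can_lit {s : ℕ} (hs : s < L) {o : Set P} (ho : o.ncard ≤ k)
    (h : ∀ l, D.K o l ≤ D.K (pts (a s)) l) (q : D.Q o) (β : Bool) :
    Rf T C [pl (H.Y L o m q), ⟨H.V (D.ga (D.rp q) (a s)), β⟩, ⟨H.cv (a s), !β⟩] := by
  have h1 := H.Y_res ho (H.cd s hs) h q
  have h2 := H.can1 hs (D.res h q)
  have h3 := H.can2 hs (D.res h q)
  rw [ga_res D h q] at h2 h3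
  cases β with
  | true =>
    have h4 : Rf T C [pl (H.Y L o m q), pl (H.V (D.ga (D.rp q) (a s))), mi (H.b s s)] :=
      ins_cut (pl (H.Y L (pts (a s)) m (D.res h q))) h2 h1 (by simp) (by simp [Lit.neg]) (by simp)
    have h5 : Rf T C [mi (H.cv (a s)), pl (H.b s s)] := by
      refine Rf.andF (H.gcv s hs) (by simp) ?_ (by simp)
      intro x hx
      rw [mem_singleton_iff.1 hx]
      exact Rf.triv (pl (H.b s s)) (by simp) (by simp) (by simp)
    exact ins_cut (pl (H.b s s)) h5 h4 (by simp) (by simp [Lit.neg]) (by simp)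
  | false =>
    have h4 : Rf T C [pl (H.Y L o m q), mi (H.V (D.ga (D.rp q) (a s))), pl (H.b s s)] :=
      ins_cut (pl (H.Y L (pts (a s)) m (D.res h q))) h3 h1 (by simp) (by simp [Lit.neg]) (by simp)
    have h5 : Rf T C [pl (H.cv (a s)), (pl (H.b s s)).neg] :=
      Rf.andT (H.gcv s hs) (mem_singleton _)
    exact ins_cut (pl (H.b s s)) h4 h5 (by simp) (by simp [Lit.neg]) (by simp)

theorem Gad.can_W {A : Ax Rel} (hA : A ∈ T) (v : Fin A.k → P) (q : D.Q (range v)) :
    Rf T C [mi (H.W0 A (fun i => D.act (D.rp q) (v i))), pl (H.W A v), pl (H.Y L (range v) m q)] := by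
  have hvk := H.vk A hA
  have ho : (range v).ncard ≤ k := (ins_range v).trans (by omega)
  refine Rf.andF (H.gW0 A hA (fun i => D.act (D.rp q) (v i))) (by simp) ?_ (by simp)
  rintro _ ⟨x, hx, rfl⟩
  have hnn : (⟨H.V x.1, !x.2⟩ : Lit C.N).neg = ⟨H.V x.1, x.2⟩ := neg_neg' ⟨H.V x.1, x.2⟩
  rw [hnn]
  rcases hx with ⟨l, hl, rfl⟩ | ⟨e, he, p, rfl⟩
  · obtain ⟨y, hy⟩ : ∃ y : Atom Rel P × Bool,
        y = (⟨l.1.1, l.1.2.1, fun i => v (l.1.2.2 i)⟩, l.2) := ⟨_, rfl⟩
    have hyi : y ∈ A.inst v := Or.inl ⟨l, hl, hy⟩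
    obtain ⟨s, hs, hys⟩ := H.inst A hA v y hyi
    have hK : ∀ l', D.K (range v) l' ≤ D.K (pts (a s)) l' := by
      refine K_mono D ?_
      rw [← hys, hy]
      rintro _ ⟨i, rfl⟩
      exact mem_range_self _
    have h1 := H.can_lit hs ho hK q y.2
    have h2 : Rf T C [pl (H.W A v), (⟨H.cv y.1, !y.2⟩ : Lit C.N).neg] :=
      Rf.andT (H.gW A hA v) ⟨y, hyi, rfl⟩
    rw [← hys] at h1
    have h3 : D.ga (D.rp q) y.1 = ⟨l.1.1, l.1.2.1, fun i => D.act (D.rp q) (v (l.1.2.2 i))⟩ := by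
      rw [hy]
      rfl
    rw [h3] at h1
    have h4 : y.2 = l.2 := by rw [hy]
    rw [h4] at h1 h2
    refine ins_cut (⟨H.cv y.1, !l.2⟩ : Lit C.N) h1 h2 ?_ ?_ (by simp)
    · intro z hz
      simp only [List.mem_cons, List.not_mem_nil, or_false] at hz ⊢
      tauto
    · intro z hz
      simp only [List.mem_cons, List.not_mem_nil, or_false] at hz ⊢
      tauto
  · obtain ⟨g, hg⟩ : ∃ g, g = D.rp q := ⟨_, rfl⟩
    rw [← hg]
    obtain ⟨o', ho'⟩ : ∃ o' : Set P, o' = insert p (range v) := ⟨_, rfl⟩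
    have hoc : o'.ncard ≤ k := by
      rw [ho']
      exact (ncard_insert_le _ _).trans ((Nat.add_le_add_right (ins_range v) 1).trans hvk)
    have hKo : ∀ l', D.K o' l' ≤ D.K (range v) l' := by
      refine K_mono D ?_
      rw [ho']
      exact subset_insert _ _
    have key := H.ext ho hoc hKo q [pl (H.V (⟨e.1, e.2.1, fun i =>
        (Fin.snoc (fun i => D.act g (v i)) p : Fin (A.k + 1) → P) (e.2.2 i)⟩ : Atom Rel P)),
        pl (H.W A v), mi (H.W0 A (fun i => D.act g (v i)))] (by simp) ?_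
    · refine key.mono ?_ (by simp)
      intro z hz
      simp only [List.mem_cons, List.not_mem_nil, or_false] at hz ⊢
      tauto
    · intro q' hq'
      obtain ⟨g', hg'⟩ : ∃ g', g' = D.rp q' := ⟨_, rfl⟩
      obtain ⟨p0, hp0⟩ : ∃ p0, p0 = D.act g'⁻¹ p := ⟨_, rfl⟩
      obtain ⟨y, hy⟩ : ∃ y : Atom Rel P × Bool, y = (⟨e.1, e.2.1, fun i =>
          (Fin.snoc v p0 : Fin (A.k + 1) → P) (e.2.2 i)⟩, true) := ⟨_, rfl⟩
      have hyi : y ∈ A.inst v := Or.inr ⟨e, he, p0, hy⟩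
      obtain ⟨s, hs, hys⟩ := H.inst A hA v y hyi
      have hcl : D.cl (range v) g' = D.cl (range v) g := by
        rw [hg', cl_out D hKo q', hq', hg, cl_rp]
      have hact : ∀ i, D.act g' (v i) = D.act g (v i) := by
        intro i
        have h1 := act_cl D hcl (mem_range_self i) 1
        rwa [map_one, Equiv.Perm.one_apply] at h1
      have hp1 : D.act g' p0 = p := by
        rw [hp0, ← Equiv.Perm.mul_apply, ← map_mul, mul_inv_cancel, map_one, Equiv.Perm.one_apply]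
      have hsn : ∀ i : Fin (A.k + 1), D.act g' ((Fin.snoc v p0 : Fin (A.k + 1) → P) i) =
          (Fin.snoc (fun i => D.act g (v i)) p : Fin (A.k + 1) → P) i := by
        intro i
        refine Fin.lastCases ?_ (fun j => ?_) i
        · rw [Fin.snoc_last, Fin.snoc_last, hp1]
        · rw [Fin.snoc_castSucc, Fin.snoc_castSucc, hact]
      have hga : D.ga (D.rp q') (a s) = ⟨e.1, e.2.1, fun i =>
          (Fin.snoc (fun i => D.act g (v i)) p : Fin (A.k + 1) → P) (e.2.2 i)⟩ := by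
        rw [← hys, hy, ← hg']
        have h1 : (fun i => D.act g' ((Fin.snoc v p0 : Fin (A.k + 1) → P) (e.2.2 i))) =
            fun i => (Fin.snoc (fun i => D.act g (v i)) p : Fin (A.k + 1) → P) (e.2.2 i) :=
          funext fun i => hsn (e.2.2 i)
        show (⟨e.1, e.2.1, fun i => D.act g' ((Fin.snoc v p0 : Fin (A.k + 1) → P) (e.2.2 i))⟩ :
          Atom Rel P) = _
        rw [h1]
      have hK : ∀ l', D.K o' l' ≤ D.K (pts (a s)) l' := by
        refine K_le D ?_
        rw [← hys, hy]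
        rintro _ ⟨i, rfl⟩
        show ∃ p1 ∈ o', ∃ g1, (Fin.snoc v p0 : Fin (A.k + 1) → P) (e.2.2 i) = D.act g1 p1
        refine Fin.lastCases (motive := fun j => ∃ p1 ∈ o', ∃ g1,
          (Fin.snoc v p0 : Fin (A.k + 1) → P) j = D.act g1 p1) ?_ (fun j => ?_) (e.2.2 i)
        · rw [Fin.snoc_last]
          exact ⟨p, by rw [ho']; exact mem_insert _ _, g'⁻¹, hp0⟩
        · rw [Fin.snoc_castSucc]
          refine ⟨v j, by rw [ho']; exact mem_insert_of_mem _ (mem_range_self j), 1, ?_⟩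
          rw [map_one, Equiv.Perm.one_apply]
      have h1 := H.can_lit hs hoc hK q' true
      have h2 : Rf T C [pl (H.W A v), (⟨H.cv y.1, !y.2⟩ : Lit C.N).neg] :=
        Rf.andT (H.gW A hA v) ⟨y, hyi, rfl⟩
      have h4 : y.2 = true := by rw [hy]
      rw [h4, hys] at h2
      rw [hga] at h1
      refine ins_cut (⟨H.cv (a s), !true⟩ : Lit C.N) h1 h2 ?_ ?_ (by simp)
      · intro z hz
        simp only [List.mem_cons, List.not_mem_nil, or_false] at hz ⊢
        tauto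
      · intro z hz
        simp only [List.mem_cons, List.not_mem_nil, or_false] at hz ⊢
        tauto

theorem Gad.can_inst {A : Ax Rel} (hA : A ∈ T) (v : Fin A.k → P) : Rf T C [pl (H.W A v)] := by
  have hvk := H.vk A hA
  have ho : (range v).ncard ≤ k := (ins_range v).trans (by omega)
  refine H.ext0 ho _ (by simp) fun q => ?_
  have h1 : Rf T C [pl (H.W0 A (fun i => D.act (D.rp q) (v i)))] := by
    refine Rf.hyp hA (v := fun i => D.act (D.rp q) (v i)) (H.gW0 A hA _) fun x hx => ?_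
    obtain ⟨s, hs, hxs⟩ := H.inst A hA _ x hx
    refine ⟨H.V x.1, ?_, x, hx, rfl⟩
    rw [hxs]
    exact H.gV s hs
  refine ins_cut (pl (H.W0 A (fun i => D.act (D.rp q) (v i)))) h1 (H.can_W hA v q) (by simp) ?_
    (by simp)
  intro z hz
  simp only [List.mem_cons, List.not_mem_nil, or_false] at hz ⊢
  rcases hz with rfl | rfl | rfl
  · exact Or.inl rfl
  · exact Or.inr (Or.inr rfl)
  · exact Or.inr (Or.inl rfl)

end Pool.Agent.H29.NS
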