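import Pool.Agent.H29.NS.Eb

/-!
# [H29 NS Mix] mixing the components of survivors

`mix`: `w = Function.update z l (z' l)`. Let `g = rp z`, `u = g⁻¹ * rp z'`, `e` from `single_pow` (`u ^ e = Pi.mulSingle l (u l)`): `cl (g * u ^ e) = w` (`cl_up`, `cl_rp`), so `ga (rp w) (a j) = ga (g * u ^ e) (a j)` (`ga_rp`), and `powV` gives
(1) `[pl (E z), pl (E z'), pl (V (ga (rp w) (a j))), mi (b s j)]`. Then for all `j ≤ L`: `[pl (E s L z), pl (E s L z'), mi (E s j w)]` by induction on `j`:
`j = 0`: `Rf.andF` for `mi (E s 0 w)` (`gE0`): need `[mi (Y s o m w), pl (E z), pl (E z')]`, `o = pts (a s)`: `Y_mk` with `Γ = [pl (E z), pl (E z')]`: for every factor `l'`: `w l'` is `z l'` or `z' l'`: `[pl (bb s o l' (z l')), pl (E z)]` from `E_Y` and `Y_bb`.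
`j + 1`, `Orb (a s) (a j)`: `Rf.andF` for `mi (E s (j+1) w)` (`gE1`): members `pl (E s j w)` (induction hypothesis) and `mi (K s j w)`: need `[pl (K s j w), pl (E z), pl (E z')]`: `K → V (ga (rp w) (a j))`, `K → ¬ b s j` (`Rf.andT`, `gK`), (1). `¬ Orb`: `gE2`.

`mixD`: `[pl (E s L z), mi (Dn s l y), mi (E s L (update z l y))]`: `Rf.andF` for `mi (Dn s l y) :: [pl (E s L z), mi (E s L w)]` (`gDn`): for `z'` with `z' l = y`: `mix z z' l`, with `z' l = y` rewritten, `Rf.mono`.
-/

set_option autoImplicit false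

open Set

namespace Pool.Agent.H29.NS

open Pool.Agent.H42.CS

variable {Rel : ℕ → Type} {P : Type} {m : ℕ} {T : Set (Ax Rel)} {D : Pd P m} {C : Circuit Rel P} {L k : ℕ}
  {a : ℕ → Atom Rel P} (H : Gad T D C L k a)

private theorem mix_cut {f g l : List (Lit C.N)} (x : Lit C.N) (hf : Rf T C f) (hg : Rf T C g)
    (h1 : ∀ y ∈ f, y = x ∨ y ∈ l) (h2 : ∀ y ∈ g, y = x.neg ∨ y ∈ l) (hw : l.length ≤ 15) :
    Rf T C l :=
  Rf.cut x (hf.mono (fun y hy => List.mem_cons.2 (h1 y hy)) (by rw [List.length_cons]; omega))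
    (hg.mono (fun y hy => List.mem_cons.2 (h2 y hy)) (by rw [List.length_cons]; omega)) (by omega)

private theorem mix_bb {s : ℕ} (hs : s < L) (q : D.Q (pts (a s))) (l : Fin m) :
    Rf T C [pl (H.bb s (pts (a s)) l (q l)), pl (H.E s L q)] := by
  have h1 := H.Y_bb hs.le (H.cd s hs) l l.2 le_rfl q
  have h2 := H.E_Y hs le_rfl q
  exact mix_cut (pl (H.Y s (pts (a s)) m q)) h1 h2 (by simp) (by simp [Lit.neg]) (by simp)

private theorem mix_V {s : ℕ} (hs : s < L) (z z' : D.Q (pts (a s))) (l : Fin m) {j : ℕ} (hj : j < L)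
    (ho : D.Orb (a s) (a j)) :
    Rf T C [pl (H.E s L z), pl (H.E s L z'),
      pl (H.V (D.ga (D.rp (Function.update z l (z' l) : D.Q (pts (a s)))) (a j))), mi (H.b s j)] := by
  obtain ⟨e, he⟩ := single_pow D ((D.rp z)⁻¹ * D.rp z') l
  have h1 := (H.powV hs z z' e j hj ho).1
  have h2 : D.cl (pts (a s)) (D.rp z * ((D.rp z)⁻¹ * D.rp z') ^ e) =
      (Function.update z l (z' l) : D.Q (pts (a s))) := by
    rw [he]
    have h3 := cl_up D (pts (a s)) (D.rp z) (D.rp z') l
    rw [cl_rp, cl_rp] at h3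
    exact h3
  have h4 := ga_rp D ho (D.rp z * ((D.rp z)⁻¹ * D.rp z') ^ e)
  rw [h2] at h4
  rw [h4]
  exact h1

private theorem mix_j {s : ℕ} (hs : s < L) (z z' : D.Q (pts (a s))) (l : Fin m) :
    ∀ j ≤ L, Rf T C [pl (H.E s L z), pl (H.E s L z'),
      mi (H.E s j (Function.update z l (z' l) : D.Q (pts (a s))))] := by
  intro j
  induction j with
  | zero =>
    intro _
    refine Rf.andF (H.gE0 s hs (Function.update z l (z' l) : D.Q (pts (a s)))) (by simp) ?_ (by simp)
    intro x hx
    rw [mem_singleton_iff] at hx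
    subst hx
    have h0 : Rf T C (mi (H.Y s (pts (a s)) m (Function.update z l (z' l) : D.Q (pts (a s)))) ::
        [pl (H.E s L z), pl (H.E s L z')]) := by
      refine H.Y_mk hs.le (H.cd s hs) le_rfl _ [pl (H.E s L z), pl (H.E s L z')] (by simp) ?_
      intro l' _
      by_cases h : l' = l
      · subst h
        rw [Function.update_self]
        exact (mix_bb H hs z' l').mono (by simp) (by simp)
      · rw [Function.update_of_ne h]
        exact (mix_bb H hs z l').mono (by simp) (by simp)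
    exact h0.mono (by simp [Lit.neg]) (by simp)
  | succ j ih =>
    intro hj
    have hj' : j < L := hj
    have ih := ih hj'.le
    by_cases ho : D.Orb (a s) (a j)
    · refine Rf.andF (H.gE1 s hs j hj' ho (Function.update z l (z' l) : D.Q (pts (a s)))) (by simp) ?_ (by simp)
      intro x hx
      rw [mem_insert_iff, mem_singleton_iff] at hx
      rcases hx with rfl | rfl
      · exact ih.mono (by simp [Lit.neg]) (by simp)
      · have h1 := mix_V H hs z z' l hj' ho
        have h2 := Rf.andT (T := T) (H.gK s hs j hj' ho (Function.update z l (z' l) : D.Q (pts (a s))))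
          (mem_insert _ _)
        have h3 := Rf.andT (T := T) (H.gK s hs j hj' ho (Function.update z l (z' l) : D.Q (pts (a s))))
          (mem_insert_of_mem _ (mem_singleton _))
        have h4 : Rf T C [pl (H.K s j (Function.update z l (z' l) : D.Q (pts (a s)))),
            pl (H.E s L z), pl (H.E s L z'), mi (H.b s j)] :=
          mix_cut (pl (H.V (D.ga (D.rp (Function.update z l (z' l) : D.Q (pts (a s)))) (a j)))) h1 h2
            (by simp) (by simp [Lit.neg]) (by simp)
        have h5 : Rf T C [pl (H.K s j (Function.update z l (z' l) : D.Q (pts (a s)))),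
            pl (H.E s L z), pl (H.E s L z')] :=
          mix_cut (pl (H.b s j)) h3 h4 (by simp [Lit.neg]) (by simp [Lit.neg]) (by simp)
        exact h5.mono (by simp [Lit.neg]) (by simp)
    · refine Rf.andF (H.gE2 s hs j hj' ho (Function.update z l (z' l) : D.Q (pts (a s)))) (by simp) ?_ (by simp)
      intro x hx
      rw [mem_singleton_iff] at hx
      subst hx
      exact ih.mono (by simp [Lit.neg]) (by simp)

theorem Gad.mix {s : ℕ} (hs : s < L) (z z' : D.Q (pts (a s))) (l : Fin m) :
    Rf T C [pl (H.E s L z), pl (H.E s L z'), mi (H.E s L (Function.update z l (z' l)))] := by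
  exact mix_j H hs z z' l L le_rfl

theorem Gad.mixD {s : ℕ} (hs : s < L) (z : D.Q (pts (a s))) (l : Fin m) (y : D.G l ⧸ D.K (pts (a s)) l) :
    Rf T C [pl (H.E s L z), mi (H.Dn s l y), mi (H.E s L (Function.update z l y))] := by
  refine Rf.andF (H.gDn s hs l y) (by simp) ?_ (by simp)
  rintro x ⟨q, hq, rfl⟩
  have h := H.mix hs z q l
  rw [hq] at h
  exact h.mono (by simp [Lit.neg]) (by simp)

end Pool.Agent.H29.NS
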