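import Pool.Agent.H29.NS.Defs

/-!
# [H29 NS Nar] rules for the refutation of short lists

`Rf T C l` is `Dq T C (Qw C) {y | ∃ x ∈ l, y = x.neg}`. PROOFS. The line of `l` has at most `l.length` members (it is the image of `l.toFinset` or
of `{x | x ∈ l}`: `Set.ncard_image_le`, `List.toFinset_card_le`), so it is in `Qw C` (first alternative) if `l.length ≤ 16`. The line of `x :: l` is
`insert x.neg` of the line of `l`; `x.neg.neg = x` (`Lit.neg` negates the sign; `Lit.ext`).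
* `mono`: `Step.weak`. `triv`: `Step.ident` with `a = b = x.node`. `same`: `Step.ident` with the roles of `a`, `b` exchanged.
* `cut`: `Step.cut` for the node of `x` (case distinction on the sign of `x`), premises: the lines of `x :: l` and `x.neg :: l`.
* `andT`: the line of `[pl a, x.neg]` is `{mi a, x}`. `Step.andE` from the wide line `{mi a, x} ∪ Lit.neg '' S`, which is in `Qw C` (second alternative) and
  holds by `Step.ident` (it contains `x` and `x.neg`).
* `andF`: the line of `l` contains `pl a`: `Step.andI`, premises: the lines of `x.neg :: l`, which are `insert x` of the line of `l`.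
* `hyp`: the line of `[pl a]` is `{mi a}`: `Step.andE` from `{mi a} ∪ Lit.neg '' S`, which holds by `Step.hyp`: `⟨b, !x.2⟩ ∈ S` gives `⟨b, x.2⟩` in the line.
-/

set_option autoImplicit false

open Set

namespace Pool.Agent.H29.NS

open Pool.Agent.H42.CS

variable {Rel : ℕ → Type} {P : Type} {T : Set (Ax Rel)} {C : Circuit Rel P} {l l' : List (Lit C.N)}

theorem neg_neg' {N : Type} (x : Lit N) : x.neg.neg = x := by
  rcases x with ⟨n, s⟩
  cases s <;> rfl

/-- the line of a list -/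
private def ln {N : Type} (l : List (Lit N)) : Set (Lit N) := {y | ∃ x ∈ l, y = x.neg}

private theorem ln_cons {N : Type} (x : Lit N) (l : List (Lit N)) : ln (x :: l) = insert x.neg (ln l) := by
  ext y
  simp only [ln, List.mem_cons, mem_ofPred_eq, mem_insert_iff, exists_eq_or_imp]

private theorem ln_ncard {N : Type} (l : List (Lit N)) : (ln l).ncard ≤ l.length := by
  classical
  have h1 : ln l = Lit.neg '' (l.toFinset : Set (Lit N)) := by
    ext y
    simp only [ln, mem_ofPred_eq, mem_image, List.coe_toFinset, eq_comm]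
  rw [h1]
  refine (ncard_image_le (Finset.finite_toSet _)).trans ?_
  rw [ncard_coe_finset]
  exact List.toFinset_card_le l

private theorem ln_q (C : Circuit Rel P) (l : List (Lit C.N)) (hw : l.length ≤ 16) : ln l ∈ Qw C :=
  ⟨ln l, (ln_ncard l).trans hw, Or.inl rfl⟩

private theorem ln_of {N : Type} {l : List (Lit N)} {x : Lit N} (h : x ∈ l) : x.neg ∈ ln l := ⟨x, h, rfl⟩

private theorem ln_of' {N : Type} {l : List (Lit N)} {x : Lit N} (h : x.neg ∈ l) : x ∈ ln l :=
  ⟨x.neg, h, (neg_neg' x).symm⟩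

private theorem id_step {Pr : Set (Set (Lit C.N))} {Λ : Set (Lit C.N)} (x : Lit C.N) (h : x ∈ Λ)
    (h' : x.neg ∈ Λ) : Step T C Pr Λ := by
  rcases x with ⟨n, s⟩
  cases s
  · exact Step.ident (a := n) (b := n) rfl h' h
  · exact Step.ident (a := n) (b := n) rfl h h'

theorem Rf.mono (h : Rf T C l) (hl : ∀ x ∈ l, x ∈ l') (hw : l'.length ≤ 16) : Rf T C l' := by
  refine Dq.mk _ {ln l} (ln_q C l' hw) (fun Δ hΔ => ?_) (Step.weak (Δ := ln l) rfl ?_)
  · rw [mem_singleton_iff.1 hΔ]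
    exact h
  · rintro _ ⟨x, hx, rfl⟩
    exact ⟨x, hl x hx, rfl⟩

theorem Rf.triv (x : Lit C.N) (h : x ∈ l) (h' : x.neg ∈ l) (hw : l.length ≤ 16) : Rf T C l := by
  exact Dq.mk _ ∅ (ln_q C l hw) (fun Δ hΔ => absurd hΔ (notMem_empty _))
    (id_step x (ln_of' h') (ln_of h))

theorem Rf.same {a b : C.N} (hg : C.gate a = C.gate b) (ha : pl a ∈ l) (hb : mi b ∈ l)
    (hw : l.length ≤ 16) : Rf T C l := by
  exact Dq.mk _ ∅ (ln_q C l hw) (fun Δ hΔ => absurd hΔ (notMem_empty _))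
    (Step.ident (a := b) (b := a) hg.symm (ln_of hb) (ln_of ha))

theorem Rf.cut (x : Lit C.N) (h : Rf T C (x :: l)) (h' : Rf T C (x.neg :: l)) (hw : l.length ≤ 16) :
    Rf T C l := by
  have h1 : Dq T C (Qw C) (insert x.neg (ln l)) := by
    rw [← ln_cons]
    exact h
  have h2 : Dq T C (Qw C) (insert x (ln l)) := by
    have h3 : Dq T C (Qw C) (ln (x.neg :: l)) := h'
    rw [ln_cons, neg_neg'] at h3
    exact h3
  refine Dq.mk _ {insert x.neg (ln l), insert x (ln l)} (ln_q C l hw) (fun Δ hΔ => ?_) ?_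
  · rcases hΔ with rfl | hΔ
    · exact h1
    · rw [mem_singleton_iff.1 hΔ]
      exact h2
  · rcases x with ⟨n, s⟩
    cases s
    · exact Step.cut (a := n) (Or.inl rfl) (Or.inr rfl)
    · exact Step.cut (a := n) (Or.inr rfl) (Or.inl rfl)

/-- a true conjunction: every member is true -/
theorem Rf.andT {a : C.N} {S : Set (Lit C.N)} {x : Lit C.N} (hg : C.gate a = .and S) (hx : x ∈ S) :
    Rf T C [pl a, x.neg] := by
  have hm : ⟨a, false⟩ ∈ ln [pl a, x.neg] := ln_of (x := pl a) (by simp)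
  have hx2 : x ∈ ln [pl a, x.neg] := ln_of' (by simp)
  have h1 : Dq T C (Qw C) (ln [pl a, x.neg] ∪ Lit.neg '' S) :=
    Dq.mk _ ∅ ⟨ln [pl a, x.neg], (ln_ncard _).trans (by simp), Or.inr ⟨a, S, hg, rfl⟩⟩
      (fun Δ hΔ => absurd hΔ (notMem_empty _)) (id_step x (Or.inl hx2) (Or.inr ⟨x, hx, rfl⟩))
  refine Dq.mk _ {ln [pl a, x.neg] ∪ Lit.neg '' S} (ln_q C _ (by simp)) (fun Δ hΔ => ?_)
    (Step.andE hg hm rfl)
  rw [mem_singleton_iff.1 hΔ]
  exact h1

/-- a false conjunction: some member is false -/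
theorem Rf.andF {a : C.N} {S : Set (Lit C.N)} (hg : C.gate a = .and S) (ha : mi a ∈ l)
    (h : ∀ x ∈ S, Rf T C (x.neg :: l)) (hw : l.length ≤ 16) : Rf T C l := by
  refine Dq.mk _ {Δ | ∃ x ∈ S, Δ = insert x (ln l)} (ln_q C l hw) (fun Δ hΔ => ?_)
    (Step.andI hg (ln_of (x := mi a) ha) fun x hx => ⟨x, hx, rfl⟩)
  obtain ⟨x, hx, rfl⟩ := hΔ
  have h3 : Dq T C (Qw C) (ln (x.neg :: l)) := h x hx
  rw [ln_cons, neg_neg'] at h3
  exact h3

/-- the failure of an instance of an axiom -/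
theorem Rf.hyp {A : Ax Rel} (hA : A ∈ T) {v : Fin A.k → P} {a : C.N} {S : Set (Lit C.N)}
    (hg : C.gate a = .and S)
    (hS : ∀ x ∈ A.inst v, ∃ b : C.N, C.gate b = .var x.1 ∧ (⟨b, !x.2⟩ : Lit C.N) ∈ S) :
    Rf T C [pl a] := by
  have hm : ⟨a, false⟩ ∈ ln [pl a] := ln_of (x := pl a) (by simp)
  have h1 : Dq T C (Qw C) (ln [pl a] ∪ Lit.neg '' S) := by
    refine Dq.mk _ ∅ ⟨ln [pl a], (ln_ncard _).trans (by simp), Or.inr ⟨a, S, hg, rfl⟩⟩
      (fun Δ hΔ => absurd hΔ (notMem_empty _)) (Step.hyp (v := v) hA fun x hx => ?_)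
    obtain ⟨b, hb1, hb2⟩ := hS x hx
    refine ⟨b, hb1, Or.inr ⟨_, hb2, ?_⟩⟩
    show (⟨b, !!x.2⟩ : Lit C.N) = ⟨b, x.2⟩
    rw [Bool.not_not]
  refine Dq.mk _ {ln [pl a] ∪ Lit.neg '' S} (ln_q C _ (by simp)) (fun Δ hΔ => ?_)
    (Step.andE hg hm rfl)
  rw [mem_singleton_iff.1 hΔ]
  exact h1

end Pool.Agent.H29.NS
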