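import Mathlib

/-!
# [H29 NS NilG] Sylow subgroups and transitive constituents of nilpotent groups of permutations

PROOFS. `prime_le`: `p ∣ Nat.card Γ ∣ n !` (`Subgroup.card_subgroup_dvd_card`, `Nat.Prime.dvd_factorial`).
`dvd_orbit`: let `H` be the stabilizer of `x`, `p ∣ H.normalCore.index`, and suppose `¬ p ∣ H.index`. Let `P : Sylow p Γ`; it is normal (`isNilpotent_of_finite_tfae`). `P ≤ H`: `(H ⊓ P).relIndex P`-like: `H.relIndex P` is a power of `p` (it divides `Nat.card P`) and divides `H.index` because `P` is normal (`H.relIndex P = H.relIndex (H ⊔ P)`, which divides `H.index`;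
or: the group `P` acts on the orbit of `x`, which has a number of elements prime to `p`, so it fixes a point `γ x`, `γ⁻¹ P γ = P` fixes `x`). Since `P` is normal, `P ≤ H.normalCore` (`Subgroup.normal_le_normalCore`), so `H.normalCore.index ∣ P.index`, which is prime to `p` (`Sylow.not_dvd_index'`-like): contradiction. `H.index` is the number of points of the orbit (`MulAction.index_stabilizer`).
`core_exp`: for `i = H.normalCore.index` (`i ∣ Nat.card Γ`): `i = ∏ p ∈ i.primeFactors, p ^ i.factorization p ≤ (∏ p ∈ i.primeFactors, p) ^ h` (`i.factorization p ≤ h` by the hypothesis, `Nat.factorization_prod_pow_eq_self`), and `∏ p ∈ i.primeFactors, p` divides the number of points of the orbit (`Finset.prod_primes_dvd`, `dvd_orbit`), which is at most `n`.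
`sylow_exp`: `Nat.card H = p ^ (Nat.card Γ).factorization p` (`Sylow.card_eq_multiplicity`), the exponent is at most `h`, and if it is not `0` then `p ≤ n` (`prime_le`); if it is `0`: `1 ≤ n ^ h`.
`core_comm`: the stabilizer `H` is normal, `H.normalCore = H` (`Subgroup.normalCore_eq_self`), its index is the number of points of the orbit, at most `n`.
`sylow_cyc`: `H` is a `p`-group and cyclic (`Subgroup.isCyclic`), `g` a generator, `Nat.card H = orderOf g = p ^ j` (`Nat.card_zpowers`); `j = 0`: `1 ≤ n`. `j = i + 1`: `g ^ (p ^ i) ≠ 1`, so it moves a point `x : Fin n`; the minimal period of `x` under the permutation `g` divides `p ^ (i + 1)` and does not divide `p ^ i`, so it is `p ^ (i + 1)`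
(`Nat.dvd_prime_pow`), and the points `g ^ t x`, `t < p ^ (i + 1)`, are different: `p ^ (i + 1) ≤ n`.
-/

set_option autoImplicit false

open Set

namespace Pool.Agent.H29.NS

variable {n : ℕ} {Γ : Subgroup (Equiv.Perm (Fin n))}

theorem prime_le {p : ℕ} (hp : p.Prime) (h : p ∣ Nat.card Γ) : p ≤ n := by
  have h1 : Nat.card Γ ∣ Nat.card (Equiv.Perm (Fin n)) := Subgroup.card_subgroup_dvd_card Γ
  rw [Nat.card_perm, Nat.card_eq_fintype_card (α := Fin n), Fintype.card_fin] at h1
  exact (hp.dvd_factorial).1 (h.trans h1)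

private theorem ng_orbit (x : Fin n) : Nat.card (MulAction.orbit Γ x) ≤ n := by
  have h1 : Nat.card (MulAction.orbit Γ x) ≤ Nat.card (Fin n) :=
    Nat.card_le_card_of_injective (fun y => (y : Fin n)) Subtype.val_injective
  rwa [Nat.card_eq_fintype_card (α := Fin n), Fintype.card_fin] at h1

private theorem ng_index (x : Fin n) :
    (MulAction.stabilizer Γ x).index = Nat.card (MulAction.orbit Γ x) := by
  rw [MulAction.index_stabilizer, Nat.card_coe_set_eq]

theorem dvd_orbit (hΓ : Group.IsNilpotent Γ) (x : Fin n) {p : ℕ} (hp : p.Prime)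
    (h : p ∣ (MulAction.stabilizer Γ x).normalCore.index) : p ∣ Nat.card (MulAction.orbit Γ x) := by
  have := Fact.mk hp
  rw [← ng_index]
  by_contra hcon
  obtain ⟨P⟩ : Nonempty (Sylow p Γ) := inferInstance
  have hN : (P : Subgroup Γ).Normal := (Group.isNilpotent_of_finite_tfae.out 0 3 rfl rfl).mp hΓ p this P
  rw [ng_index] at hcon
  obtain ⟨y, hy⟩ := P.2.nonempty_fixed_point_of_prime_not_dvd_card (MulAction.orbit Γ x) hcon
  obtain ⟨⟨g, hg⟩⟩ : Nonempty {g : Γ // g • x = (y : Fin n)} := by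
    obtain ⟨g, hg⟩ := y.2
    exact ⟨⟨g, hg⟩⟩
  have hP : (P : Subgroup Γ) ≤ MulAction.stabilizer Γ x := by
    intro q hq
    rw [MulAction.mem_stabilizer_iff]
    have h1 : g * q * g⁻¹ ∈ (P : Subgroup Γ) := hN.conj_mem q hq g
    have h2 := hy ⟨g * q * g⁻¹, h1⟩
    have h3 : (g * q * g⁻¹) • (y : Fin n) = y := congrArg Subtype.val h2
    rw [← hg, smul_smul, inv_mul_cancel_right, mul_smul, smul_left_cancel_iff] at h3
    exact h3
  have h1 : (P : Subgroup Γ) ≤ (MulAction.stabilizer Γ x).normalCore := Subgroup.normal_le_normalCore.2 hP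
  exact P.not_dvd_index (h.trans (Subgroup.index_dvd_of_le h1))

theorem core_exp (hΓ : Group.IsNilpotent Γ) {h : ℕ} (hh : ∀ p : ℕ, p.Prime → ¬ p ^ (h + 1) ∣ Nat.card Γ)
    (x : Fin n) : (MulAction.stabilizer Γ x).normalCore.index ≤ n ^ h := by
  obtain ⟨i, hi⟩ : ∃ i, i = (MulAction.stabilizer Γ x).normalCore.index := ⟨_, rfl⟩
  have hi0 : i ≠ 0 := by
    rw [hi]
    exact Subgroup.index_ne_zero_of_finite
  have hidvd : i ∣ Nat.card Γ := by
    rw [hi]
    exact Subgroup.index_dvd_card _
  have h1 : ∀ p ∈ i.primeFactors, i.factorization p ≤ h := by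
    intro p hp
    by_contra hc
    push Not at hc
    exact hh p (Nat.prime_of_mem_primeFactors hp) ((pow_dvd_pow p hc).trans ((Nat.ordProj_dvd i p).trans hidvd))
  have h2 : (∏ p ∈ i.primeFactors, p) ∣ Nat.card (MulAction.orbit Γ x) := by
    refine Finset.prod_primes_dvd _ (fun p hp => (Nat.prime_of_mem_primeFactors hp).prime) fun p hp => ?_
    refine dvd_orbit hΓ x (Nat.prime_of_mem_primeFactors hp) ?_
    rw [← hi]
    exact Nat.dvd_of_mem_primeFactors hp
  have h4 : i ≤ (∏ p ∈ i.primeFactors, p) ^ h := by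
    conv_lhs => rw [← Nat.prod_factorization_pow_eq_self hi0]
    rw [Finsupp.prod, Nat.support_factorization, ← Finset.prod_pow]
    exact Finset.prod_le_prod' fun p hp =>
      Nat.pow_le_pow_right (Nat.prime_of_mem_primeFactors hp).pos (h1 p hp)
  have := (MulAction.nonempty_orbit (M := Γ) x).to_subtype
  have hc0 : 0 < Nat.card (MulAction.orbit Γ x) := Nat.card_pos
  rw [← hi]
  exact h4.trans (Nat.pow_le_pow_left ((Nat.le_of_dvd hc0 h2).trans (ng_orbit x)) h)

theorem sylow_exp (hn : 1 ≤ n) {h : ℕ} (hh : ∀ p : ℕ, p.Prime → ¬ p ^ (h + 1) ∣ Nat.card Γ) {p : ℕ}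
    [Fact p.Prime] (H : Sylow p Γ) : Nat.card H ≤ n ^ h := by
  rw [H.card_eq_multiplicity]
  have hp : p.Prime := Fact.out
  rcases Nat.eq_zero_or_pos ((Nat.card Γ).factorization p) with h0 | h0
  · rw [h0, pow_zero]
    exact Nat.one_le_pow _ _ hn
  · have h2 : (Nat.card Γ).factorization p ≤ h := by
      by_contra hc
      push Not at hc
      exact hh p hp ((pow_dvd_pow p hc).trans (Nat.ordProj_dvd _ _))
    have h3 : p ∣ Nat.card Γ := Nat.dvd_of_factorization_pos h0.ne'
    exact (Nat.pow_le_pow_left (prime_le hp h3) _).trans (Nat.pow_le_pow_right hn h2)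

theorem core_comm (hc : ∀ σ τ : Γ, σ * τ = τ * σ) (x : Fin n) :
    (MulAction.stabilizer Γ x).normalCore.index ≤ n := by
  have hN : (MulAction.stabilizer Γ x).Normal := ⟨fun a ha g => by
    rw [hc g a, mul_inv_cancel_right]
    exact ha⟩
  rw [Subgroup.normalCore_eq_self, ng_index]
  exact ng_orbit x

theorem sylow_cyc (hn : 1 ≤ n) (hc : IsCyclic Γ) {p : ℕ} [Fact p.Prime] (H : Sylow p Γ) :
    Nat.card H ≤ n := by
  have hp : p.Prime := Fact.out
  have hcyc : IsCyclic (H : Subgroup Γ) := Subgroup.isCyclic _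
  obtain ⟨g, hg⟩ := hcyc.exists_generator
  have hcard : Nat.card (H : Subgroup Γ) = orderOf g := (orderOf_eq_card_of_forall_mem_zpowers hg).symm
  obtain ⟨j, hj⟩ := IsPGroup.iff_orderOf.1 H.isPGroup' g
  have hcard' : Nat.card H = p ^ j := hcard.trans hj
  rw [hcard']
  cases j with
  | zero =>
    rw [pow_zero]
    exact hn
  | succ i =>
    have h1 : g ^ (p ^ i) ≠ 1 := by
      intro h
      have h2 := orderOf_dvd_of_pow_eq_one h
      rw [hj, Nat.pow_dvd_pow_iff_le_right hp.one_lt] at h2
      omega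
    obtain ⟨σ, hσ⟩ : ∃ σ : Equiv.Perm (Fin n), σ = ((g : Γ) : Equiv.Perm (Fin n)) := ⟨_, rfl⟩
    have hσp : ∀ k : ℕ, σ ^ k = ((g ^ k : (H : Subgroup Γ)) : Γ) := by
      intro k
      rw [hσ]
      push_cast
      rfl
    have h2 : σ ^ (p ^ i) ≠ 1 := by
      intro h
      rw [hσp] at h
      exact h1 (Subtype.ext (Subtype.ext h))
    obtain ⟨x, hx⟩ : ∃ x, (σ ^ (p ^ i)) x ≠ x := by
      by_contra hcon
      push Not at hcon
      exact h2 (Equiv.ext hcon)
    have h3 : σ ^ (p ^ (i + 1)) = 1 := by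
      rw [hσp, ← hj, pow_orderOf_eq_one]
      rfl
    have h4 : Function.minimalPeriod σ x ∣ p ^ (i + 1) := by
      apply Function.IsPeriodicPt.minimalPeriod_dvd
      show (σ^[p ^ (i + 1)]) x = x
      rw [← Equiv.Perm.coe_pow, h3]
      rfl
    have h5 : ¬ Function.minimalPeriod σ x ∣ p ^ i := by
      intro h
      have h6 := (Function.isPeriodicPt_iff_minimalPeriod_dvd (f := σ) (x := x) (n := p ^ i)).2 h
      apply hx
      rw [Equiv.Perm.coe_pow]
      exact h6
    obtain ⟨k, hk, hk'⟩ := (Nat.dvd_prime_pow hp).1 h4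
    have h6 : k = i + 1 := by
      by_contra h7
      apply h5
      rw [hk']
      exact pow_dvd_pow p (by omega)
    have h7 : Function.minimalPeriod σ x ≤ Fintype.card (Fin n) := Function.minimalPeriod_le_card
    rwa [hk', h6, Fintype.card_fin] at h7

end Pool.Agent.H29.NS
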