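import Pool.Agent.H29.NS.Defs

/-!
# [H29 NS NilP] a nilpotent group of permutations is a direct product of groups with coprime orders

PROOF. `isNilpotent_of_finite_tfae` (Mathlib): the Sylow subgroups of `Γ` are normal and there is `E : (∀ p : (Nat.card Γ).primeFactors, ∀ P : Sylow p Γ, (P : Subgroup Γ)) ≃* Γ`. `m = (Nat.card Γ).primeFactors.card`, `i : Fin m ≃ (Nat.card Γ).primeFactors` (`Finset.equivFin`, symmetric); `D.G l := ∀ P : Sylow (i l) Γ, (P : Subgroup Γ)`
(finite; there is exactly one Sylow subgroup, `Sylow.unique_of_normal` or `Sylow.card_eq_one_iff...`-like, so `Nat.card (D.G l) = Nat.card P`, a power of the prime `i l`: `Sylow.card_eq_multiplicity`; coprime for different `l`: `Nat.Coprime.pow`, `Nat.coprime_primes`).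
The isomorphism: `E.symm` followed by the reindexing `f ↦ fun l => f (i l)` (`MulEquiv.piCongrLeft'`-like, or directly: an injective and surjective homomorphism, `MulEquiv.ofBijective`); `D.act := (Γ.subtype).comp e.symm`. `m ≤ n`: a prime which divides `Nat.card Γ` divides `n !` (`Subgroup.card_subgroup_dvd_card`, `Fintype.card_perm`),
so it is in `Finset.Icc 1 n` (`Nat.Prime.dvd_factorial`).
-/

set_option autoImplicit false

open Set

namespace Pool.Agent.H29.NS

theorem pd_ex {n : ℕ} (Γ : Subgroup (Equiv.Perm (Fin n))) (hΓ : Group.IsNilpotent Γ) :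
    ∃ (m : ℕ) (D : Pd (Fin n) m) (e : Γ ≃* ∀ l, D.G l), m ≤ n ∧ (∀ σ : Γ, D.act (e σ) = (σ : Equiv.Perm (Fin n))) ∧
      ∀ l, ∃ (p : ℕ) (_ : Fact p.Prime) (H : Sylow p Γ), Nat.card (D.G l) = Nat.card H := by
  classical
  have hnorm : ∀ (p : ℕ) (_hp : Fact p.Prime) (P : Sylow p Γ), (↑P : Subgroup Γ).Normal :=
    (Group.isNilpotent_of_finite_tfae (G := Γ).out 0 3 rfl rfl).1 hΓ
  obtain ⟨E⟩ := (Group.isNilpotent_of_finite_tfae (G := Γ).out 0 4 rfl rfl).1 hΓ
  obtain ⟨m, hm⟩ : ∃ m, m = (Nat.card Γ).primeFactors.card := ⟨_, rfl⟩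
  have i : Fin m ≃ (Nat.card Γ).primeFactors := by
    rw [hm]
    exact (Finset.equivFin _).symm
  have hpr : ∀ l, (i l : ℕ).Prime := fun l => Nat.prime_of_mem_primeFactors (i l).2
  have hcard : ∀ l, ∃ H : Sylow (i l : ℕ) Γ,
      Nat.card (∀ P : Sylow (i l : ℕ) Γ, (P : Subgroup Γ)) = Nat.card H := by
    intro l
    have : Fact (i l : ℕ).Prime := ⟨hpr l⟩
    let P0 : Sylow (i l : ℕ) Γ := default
    let _ : Unique (Sylow (i l : ℕ) Γ) := Sylow.unique_of_normal P0 (hnorm _ this P0)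
    exact ⟨default, Nat.card_congr (Equiv.piUnique _)⟩
  have hcop : ∀ l l', l ≠ l' → Nat.Coprime
      (Nat.card (∀ P : Sylow (i l : ℕ) Γ, (P : Subgroup Γ)))
      (Nat.card (∀ P : Sylow (i l' : ℕ) Γ, (P : Subgroup Γ))) := by
    intro l l' hne
    obtain ⟨H, hH⟩ := hcard l
    obtain ⟨H', hH'⟩ := hcard l'
    have : Fact (i l : ℕ).Prime := ⟨hpr l⟩
    have : Fact (i l' : ℕ).Prime := ⟨hpr l'⟩
    rw [hH, hH', H.card_eq_multiplicity, H'.card_eq_multiplicity]
    refine Nat.Coprime.pow _ _ ((Nat.coprime_primes (hpr l) (hpr l')).2 fun h => hne ?_)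
    exact i.injective (Subtype.ext h)
  let R0 : (∀ p : (Nat.card Γ).primeFactors, ∀ P : Sylow (p : ℕ) Γ, (P : Subgroup Γ)) →*
      ∀ l, ∀ P : Sylow (i l : ℕ) Γ, (P : Subgroup Γ) :=
    { toFun := fun f l => f (i l)
      map_one' := rfl
      map_mul' := fun _ _ => rfl }
  have hR : Function.Bijective R0 := by
    constructor
    · intro f g h
      funext p
      obtain ⟨l, rfl⟩ := i.surjective p
      exact congrFun h l
    · intro h
      refine ⟨Equiv.piCongrLeft (fun p : (Nat.card Γ).primeFactors =>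
        ∀ P : Sylow (p : ℕ) Γ, (P : Subgroup Γ)) i h, ?_⟩
      funext l
      exact Equiv.piCongrLeft_apply_apply (fun p : (Nat.card Γ).primeFactors =>
        ∀ P : Sylow (p : ℕ) Γ, (P : Subgroup Γ)) i h l
  let e : Γ ≃* ∀ l, ∀ P : Sylow (i l : ℕ) Γ, (P : Subgroup Γ) :=
    E.symm.trans (MulEquiv.ofBijective R0 hR)
  let D : Pd (Fin n) m :=
    { G := fun l => ∀ P : Sylow (i l : ℕ) Γ, (P : Subgroup Γ)
      cop := hcop
      act := (Γ.subtype).comp e.symm.toMonoidHom }
  refine ⟨m, D, e, ?_, fun σ => ?_, fun l => ?_⟩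
  · have h1 : (Nat.card Γ).primeFactors ⊆ Finset.Icc 1 n := by
      intro p hp
      have h2 := Nat.prime_of_mem_primeFactors hp
      have h3 : p ∣ n.factorial := by
        have h4 := (Nat.dvd_of_mem_primeFactors hp).trans Γ.card_subgroup_dvd_card
        rwa [Nat.card_eq_fintype_card, Fintype.card_perm, Fintype.card_fin] at h4
      exact Finset.mem_Icc.2 ⟨h2.one_le, (h2.dvd_factorial).1 h3⟩
    have h5 := Finset.card_le_card h1
    rw [Nat.card_Icc] at h5
    omega
  · show ((e.symm (e σ) : Γ) : Equiv.Perm (Fin n)) = σ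
    rw [MulEquiv.symm_apply_apply]
  · obtain ⟨H, hH⟩ := hcard l
    exact ⟨i l, ⟨hpr l⟩, H, hH⟩

end Pool.Agent.H29.NS
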