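import Pool.Agent.H29.NS.Gra

/-!
# [H29 NS QCard] the number of classes

PROOFS. `card_Q_single`: `f σ = D.cl {x} (e σ)` is surjective (`cl_rp`: `q = D.cl {x} (D.rp q)`, `e` surjective). If `σ⁻¹ * τ` is in the normal core `N` of the stabilizer then `f σ = f τ`: componentwise (`QuotientGroup.eq`) `(e (σ⁻¹ * τ)) l ∈ D.K {x} l`: for `u = e ρ`, `ρ ∈ N`: `Pi.mulSingle l (u l) = u ^ j = e (ρ ^ j)` (`single_pow`),
and `D.act (e (ρ ^ j)) = ρ ^ j`; for `g = e τ'`: `ρ ^ j ∈ N` and `τ'⁻¹ * ρ ^ j * τ' ∈ N ≤` the stabilizer of `x` (`Subgroup.normalCore_le`, `Subgroup.Normal.conj_mem`), so `ρ ^ j` fixes `τ' x = D.act g x`. So `f` factors through `Γ ⧸ N` (`Nat.card_le_card_of_surjective` for `Quotient.lift`-like; `Subgroup.index` is `Nat.card (Γ ⧸ N)`).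
`card_Q_le`: induction on the finite set `o` (`Set.Finite.induction_on` with `Set.toFinite`): `D.Q ∅` has one element (`D.K ∅ l = ⊤`; `Subsingleton`); the map `D.Q (insert x o) → D.Q {x} × D.Q o`, `q ↦ (D.res _ q, D.res _ q)` (`K_mono`) is injective: for `q = D.cl _ g`, `q' = D.cl _ g'` (`cl_rp`): `(g l)⁻¹ * g' l` is in `K {x} l` and `K o l`, so in
`K (insert x o) l`; `Nat.card_le_card_of_injective`, `Nat.card_prod`, `Set.ncard_insert_of_notMem`.
-/

set_option autoImplicit false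

open Set

namespace Pool.Agent.H29.NS

variable {n m : ℕ} (D : Pd (Fin n) m)

theorem card_Q_single {Γ : Subgroup (Equiv.Perm (Fin n))} (e : Γ ≃* ∀ l, D.G l)
    (he : ∀ σ : Γ, D.act (e σ) = (σ : Equiv.Perm (Fin n))) (x : Fin n) :
    Nat.card (D.Q {x}) ≤ (MulAction.stabilizer Γ x).normalCore.index := by
  obtain ⟨N, hN⟩ : ∃ N, N = (MulAction.stabilizer Γ x).normalCore := ⟨_, rfl⟩
  have hNn : N.Normal := by
    rw [hN]
    infer_instance
  have hNs : ∀ ρ ∈ N, (ρ : Equiv.Perm (Fin n)) x = x := by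
    intro ρ hρ
    rw [hN] at hρ
    exact MulAction.mem_stabilizer_iff.1 (Subgroup.normalCore_le _ hρ)
  have hK : ∀ ρ ∈ N, ∀ l, e ρ l ∈ D.K {x} l := by
    intro ρ hρ l p hp g
    rw [mem_singleton_iff.1 hp]
    obtain ⟨j, hj⟩ := single_pow D (e ρ) l
    rw [← hj, ← map_pow, he]
    obtain ⟨τ, rfl⟩ := e.surjective g
    rw [he]
    have h1 : τ⁻¹ * ρ ^ j * τ⁻¹⁻¹ ∈ N := hNn.conj_mem _ (N.pow_mem hρ j) _
    have h2 := hNs _ h1
    rw [inv_inv, Subgroup.coe_mul, Subgroup.coe_mul, Equiv.Perm.mul_apply, Equiv.Perm.mul_apply,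
      Subgroup.coe_inv, Equiv.Perm.inv_eq_iff_eq] at h2
    exact h2
  have hf : ∀ (σ : Γ), ∀ ρ ∈ N, D.cl {x} (e (σ * ρ)) = D.cl {x} (e σ) := by
    intro σ ρ hρ
    funext l
    refine (QuotientGroup.eq.2 ?_).symm
    rw [map_mul, Pi.mul_apply, inv_mul_cancel_left]
    exact hK ρ hρ l
  rw [← hN]
  change Nat.card (D.Q {x}) ≤ Nat.card (Γ ⧸ N)
  refine Nat.card_le_card_of_surjective (fun z : Γ ⧸ N => D.cl {x} (e z.out)) ?_
  intro q
  obtain ⟨σ, hσ⟩ := e.surjective (D.rp q)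
  refine ⟨(σ : Γ ⧸ N), ?_⟩
  obtain ⟨h, hh⟩ := QuotientGroup.mk_out_eq_mul N σ
  beta_reduce
  rw [hh, hf σ h h.2, hσ, cl_rp]

theorem card_Q_le {A : ℕ} (hA : ∀ x, Nat.card (D.Q {x}) ≤ A) (o : Set (Fin n)) :
    Nat.card (D.Q o) ≤ A ^ o.ncard := by
  have hfin : ∀ o : Set (Fin n), Finite (D.Q o) := fun o => inferInstance
  refine Set.Finite.induction_on o (Set.toFinite o) ?_ ?_
  · rw [ncard_empty, pow_zero]
    have : Subsingleton (D.Q ∅) := by
      refine ⟨fun q q' => funext fun l => ?_⟩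
      rw [← cl_rp D q, ← cl_rp D q']
      refine QuotientGroup.eq.2 ?_
      intro p hp
      exact absurd hp (notMem_empty p)
    exact Finite.card_le_one_iff_subsingleton.2 this
  · intro x o hx _ ih
    rw [ncard_insert_of_notMem hx (Set.toFinite o), pow_succ']
    refine le_trans ?_ (Nat.mul_le_mul (hA x) ih)
    rw [← Nat.card_prod]
    refine Nat.card_le_card_of_injective (fun q : D.Q (insert x o) =>
      (D.res (K_mono D (singleton_subset_iff.2 (mem_insert x o))) q,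
        D.res (K_mono D (subset_insert x o)) q)) ?_
    intro q q' h
    have h1 := congrArg Prod.fst h
    have h2 := congrArg Prod.snd h
    beta_reduce at h1 h2
    rw [← cl_rp D q, ← cl_rp D q', res_cl, res_cl] at h1 h2
    rw [← cl_rp D q, ← cl_rp D q']
    funext l
    refine QuotientGroup.eq.2 ?_
    have h3 := QuotientGroup.eq.1 (congrFun h1 l)
    have h4 := QuotientGroup.eq.1 (congrFun h2 l)
    intro p hp g
    rcases mem_insert_iff.1 hp with hp | hp
    · exact h3 p (mem_singleton_iff.2 hp) g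
    · exact h4 p hp g

end Pool.Agent.H29.NS
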