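import Pool.Agent.H29.NS.Act
import Pool.Agent.H29.NS.GadC
import Pool.Agent.H29.NS.Ins
import Pool.Agent.H29.NS.AsmF
import Pool.Agent.H29.NS.NilP
import Pool.Agent.H29.NS.QCard
import Pool.Agent.H29.NS.Enu
import Pool.Agent.H29.NS.NilG

/-!
# THEOREM NIL (MP_576eff_lc): symmetric refutations for nilpotent groups

For finitely many axioms there is a number `C` such that for all nilpotent groups `Γ` of permutations of `n ≥ 2` points every refutation
`R` over these points has a `Γ`-symmetric one of size at most `R.size * (n * A * S) ^ C`, where `S` bounds the orders of the Sylow subgroups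
of `Γ` and `A` the orders of the transitive constituents (the images of `Γ` in the groups of permutations of the orbits).
-/

set_option autoImplicit false

open Set

namespace Pool.Agent.H29.NS

open Pool.Agent.H42.CS

variable {Rel : ℕ → Type}

private theorem triv_symm {n : ℕ} {T : Set (Ax Rel)} (he : IsEmpty (Atom Rel (Fin n)))
    (Γ : Subgroup (Equiv.Perm (Fin n))) (R : Refutation T (Fin n)) : R.Symm Γ := by
  refine ⟨1, fun σ => ⟨fun x => ?_, fun Λ hΛ => ?_⟩⟩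
  · show R.C.gate x = (R.C.gate x).map (σ : Equiv.Perm (Fin n)) id
    have hid : (Lit.map id : Lit R.C.N → Lit R.C.N) = id := rfl
    cases hg : R.C.gate x with
    | var v => exact he.elim v
    | and S =>
      show Gate.and S = Gate.and (Lit.map id '' S)
      rw [hid, image_id]
    | sym B S =>
      show Gate.sym B S = Gate.sym B (Lit.map id '' S)
      rw [hid, image_id]
  · have h1 : Lit.map ((1 : Γ →* Equiv.Perm R.C.N) σ) '' Λ = Λ := image_id Λ
    rw [h1]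
    exact hΛ

/-- THEOREM NIL -/
theorem nil_main {T : Set (Ax Rel)} (hT : T.Finite) (hl : ∀ A ∈ T, A.lits.Finite ∧ A.ex.Finite) :
    ∃ c : ℕ, ∀ (n : ℕ) (Γ : Subgroup (Equiv.Perm (Fin n))) (A S : ℕ), 2 ≤ n → Group.IsNilpotent Γ →
      (∀ x : Fin n, (MulAction.stabilizer Γ x).normalCore.index ≤ A) →
      (∀ (p : ℕ) [Fact p.Prime] (H : Sylow p Γ), Nat.card H ≤ S) →
      ∀ R : Refutation T (Fin n), ∃ R' : Refutation T (Fin n), R'.Symm Γ ∧
        R'.size ≤ R.size * (n * A * S) ^ c := by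
  obtain ⟨k, c, hdat⟩ := dat_ex hT hl
  refine ⟨18 * (6 + 4 * (c + k + 2)), ?_⟩
  intro n Γ A S hn hΓ hA hS R
  have hA1 : 1 ≤ A := (Nat.one_le_iff_ne_zero.2 Subgroup.index_ne_zero_of_finite).trans (hA ⟨0, by omega⟩)
  have hS1 : 1 ≤ S := by
    have : Fact (Nat.Prime 2) := ⟨Nat.prime_two⟩
    exact (Nat.card_pos (α := (default : Sylow 2 Γ))).trans_le (hS 2 default)
  have hx2 : 2 ≤ n * A * S := by nlinarith [Nat.mul_le_mul hA1 hS1, mul_assoc n A S]
  rcases isEmpty_or_nonempty (Atom Rel (Fin n)) with he | hne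
  · refine ⟨R, triv_symm he Γ R, ?_⟩
    exact Nat.le_mul_of_pos_right _ (Nat.pow_pos (by omega))
  obtain ⟨m, D, e, hm, he, hG⟩ := pd_ex Γ hΓ
  obtain ⟨L, a, hd, hL, hO, hW⟩ := hdat n m D hn hne
  let H := gadC hd
  obtain ⟨R', h1, h2⟩ := asm (T := T) (Cg := cir hd) (cv := H.cv)
    (fun B hB v => ⟨H.W B v, H.gW B hB v, H.can_inst hB v⟩) Γ ((ac hd).comp e.toMonoidHom)
    (fun σ x => by
      have h3 := gate_ac hd (e σ) x
      rw [he σ] at h3
      exact h3)
    (fun σ x => ac_cv hd (e σ) x) R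
  refine ⟨R', h1, h2.trans (Nat.mul_le_mul_left _ ?_)⟩
  have hy : ∀ j, 1 ≤ (n * A * S) ^ j := fun j => Nat.one_le_pow _ _ (by omega)
  have hmon : ∀ i j, i ≤ j → (n * A * S) ^ i ≤ (n * A * S) ^ j := fun i j hij =>
    Nat.pow_le_pow_right (by omega) hij
  have hnx : n ≤ n * A * S := by nlinarith [Nat.mul_le_mul hA1 hS1, mul_assoc n A S]
  have hAx : A ≤ n * A * S := by
    calc A = 1 * A * 1 := by ring
      _ ≤ n * A * S := Nat.mul_le_mul (Nat.mul_le_mul (by omega) le_rfl) hS1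
  have hSx : S ≤ n * A * S := by
    calc S = 1 * 1 * S := by ring
      _ ≤ n * A * S := Nat.mul_le_mul (Nat.mul_le_mul (by omega) hA1) le_rfl
  have hnc : n ^ c ≤ (n * A * S) ^ (c + k + 2) := (Nat.pow_le_pow_left hnx c).trans (hmon _ _ (by omega))
  have hcard : Nat.card (cir hd).N ≤ 16 * ((n * A * S) ^ (c + k + 2)) ^ 4 := by
    refine (good_card hd ((n * A * S) ^ (c + k + 2)) (hL.trans hnc) ?_ (hO.trans hnc) ?_ ?_ (hW.trans hnc)).2
    · have h3 : m + 1 ≤ 2 * (n * A * S) := by omega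
      have h4 : 2 * (n * A * S) ≤ (n * A * S) ^ 2 := by nlinarith
      exact h3.trans (h4.trans (hmon _ _ (by omega)))
    · intro l
      obtain ⟨p, hp, H', hH⟩ := hG l
      rw [hH]
      exact ((hS p H').trans hSx).trans (by simpa using hmon 1 (c + k + 2) (by omega))
    · intro o ho
      have h3 := card_Q_le D (A := A) (fun x => (card_Q_single D e he x).trans (hA x)) o
      refine h3.trans ?_
      calc A ^ o.ncard ≤ A ^ k := Nat.pow_le_pow_right hA1 ho
        _ ≤ (n * A * S) ^ k := Nat.pow_le_pow_left hAx k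
        _ ≤ _ := hmon _ _ (by omega)
  have h4 : 2 * Nat.card (cir hd).N + 4 ≤ (n * A * S) ^ (6 + 4 * (c + k + 2)) := by
    have h5 : 36 ≤ (n * A * S) ^ 6 := by
      calc 36 ≤ 2 ^ 6 := by norm_num
        _ ≤ _ := Nat.pow_le_pow_left hx2 6
    have h6 : ((n * A * S) ^ (c + k + 2)) ^ 4 = (n * A * S) ^ (4 * (c + k + 2)) := by
      rw [← pow_mul, Nat.mul_comm (c + k + 2) 4]
    rw [h6] at hcard
    have h7 := hy (4 * (c + k + 2))
    rw [pow_add]
    nlinarith
  calc (2 * Nat.card (cir hd).N + 4) ^ 18 ≤ ((n * A * S) ^ (6 + 4 * (c + k + 2))) ^ 18 :=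
        Nat.pow_le_pow_left h4 18
    _ = _ := by rw [← pow_mul, Nat.mul_comm (6 + 4 * (c + k + 2)) 18]

/-- nilpotent groups whose Sylow subgroups have small exponents -/
theorem nil_exp {T : Set (Ax Rel)} (hT : T.Finite) (hl : ∀ A ∈ T, A.lits.Finite ∧ A.ex.Finite) :
    ∃ c : ℕ, ∀ (n h : ℕ) (Γ : Subgroup (Equiv.Perm (Fin n))), 2 ≤ n → Group.IsNilpotent Γ →
      (∀ p : ℕ, p.Prime → ¬ p ^ (h + 1) ∣ Nat.card Γ) →
      ∀ R : Refutation T (Fin n), ∃ R' : Refutation T (Fin n), R'.Symm Γ ∧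
        R'.size ≤ R.size * n ^ (c * (h + 1)) := by
  obtain ⟨c, hc⟩ := nil_main hT hl
  refine ⟨2 * c, ?_⟩
  intro n h Γ hn hΓ hh R
  obtain ⟨R', h1, h2⟩ := hc n Γ (n ^ h) (n ^ h) hn hΓ (fun x => core_exp hΓ hh x)
    (fun p _ H => sylow_exp (by omega) hh H) R
  refine ⟨R', h1, h2.trans (Nat.mul_le_mul_left _ ?_)⟩
  have h3 : n * n ^ h * n ^ h = n ^ (1 + h + h) := by
    rw [pow_add, pow_add, pow_one]
  rw [h3, ← pow_mul]
  refine Nat.pow_le_pow_right (by omega) ?_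
  nlinarith

/-- abelian groups -/
theorem nil_comm {T : Set (Ax Rel)} (hT : T.Finite) (hl : ∀ A ∈ T, A.lits.Finite ∧ A.ex.Finite) :
    ∃ c : ℕ, ∀ (n : ℕ) (Γ : Subgroup (Equiv.Perm (Fin n))) (S : ℕ), 2 ≤ n → (∀ σ τ : Γ, σ * τ = τ * σ) →
      (∀ (p : ℕ) [Fact p.Prime] (H : Sylow p Γ), Nat.card H ≤ S) →
      ∀ R : Refutation T (Fin n), ∃ R' : Refutation T (Fin n), R'.Symm Γ ∧
        R'.size ≤ R.size * (n * S) ^ c := by
  obtain ⟨c, hc⟩ := nil_main hT hl
  refine ⟨2 * c, ?_⟩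
  intro n Γ S hn hcm hS R
  have hΓ : Group.IsNilpotent Γ := by
    letI : CommGroup Γ := { (inferInstance : Group Γ) with mul_comm := hcm }
    exact CommGroup.isNilpotent
  obtain ⟨R', h1, h2⟩ := hc n Γ n S hn hΓ (fun x => core_comm hcm x) hS R
  refine ⟨R', h1, h2.trans (Nat.mul_le_mul_left _ ?_)⟩
  have hS1 : 1 ≤ S := by
    have : Fact (Nat.Prime 2) := ⟨Nat.prime_two⟩
    exact (Nat.card_pos (α := (default : Sylow 2 Γ))).trans_le (hS 2 default)
  rw [pow_mul]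
  refine Nat.pow_le_pow_left ?_ c
  calc n * n * S = n * n * (S * 1) := by ring
    _ ≤ n * n * (S * S) := Nat.mul_le_mul_left _ (Nat.mul_le_mul_left _ hS1)
    _ = (n * S) ^ 2 := by ring

/-- cyclic groups -/
theorem nil_cyc {T : Set (Ax Rel)} (hT : T.Finite) (hl : ∀ A ∈ T, A.lits.Finite ∧ A.ex.Finite) :
    ∃ c : ℕ, ∀ (n : ℕ) (Γ : Subgroup (Equiv.Perm (Fin n))), 2 ≤ n → IsCyclic Γ →
      ∀ R : Refutation T (Fin n), ∃ R' : Refutation T (Fin n), R'.Symm Γ ∧
        R'.size ≤ R.size * n ^ c := by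
  obtain ⟨c, hc⟩ := nil_comm hT hl
  refine ⟨2 * c, ?_⟩
  intro n Γ hn hcy R
  obtain ⟨R', h1, h2⟩ := hc n Γ n hn (fun σ τ => by
    letI := IsCyclic.commGroup (α := Γ)
    exact mul_comm σ τ) (fun p _ H => sylow_cyc (by omega) hcy H) R
  refine ⟨R', h1, h2.trans (Nat.mul_le_mul_left _ ?_)⟩
  rw [pow_mul, pow_two]

end Pool.Agent.H29.NS
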