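import Pool.Agent.H29.NS.NilF

/-!
# THEOREM NIL (MP_576eff_lc): all nilpotent groups, in terms of the largest Sylow subgroup

The order of a transitive constituent of a nilpotent group is the product of at most `log_2 n` orders of `p`-groups, since its primes divide
the number of points of the orbit.
-/

set_option autoImplicit false

open Set

namespace Pool.Agent.H29.NS

open Pool.Agent.H42.CS

variable {Rel : ℕ → Type}

theorem core_log {n : ℕ} {Γ : Subgroup (Equiv.Perm (Fin n))} (hΓ : Group.IsNilpotent Γ) {S : ℕ}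
    (hS : ∀ (p : ℕ) [Fact p.Prime] (H : Sylow p Γ), Nat.card H ≤ S) (x : Fin n) :
    (MulAction.stabilizer Γ x).normalCore.index ≤ S ^ Nat.log 2 n := by
  obtain ⟨i, hi⟩ : ∃ i, i = (MulAction.stabilizer Γ x).normalCore.index := ⟨_, rfl⟩
  have hS1 : 1 ≤ S := by
    have : Fact (Nat.Prime 2) := ⟨Nat.prime_two⟩
    exact (Nat.card_pos (α := (default : Sylow 2 Γ))).trans_le (hS 2 default)
  have hi0 : i ≠ 0 := by
    rw [hi]
    exact Subgroup.index_ne_zero_of_finite
  have hidvd : i ∣ Nat.card Γ := by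
    rw [hi]
    exact Subgroup.index_dvd_card _
  have h1 : ∀ p ∈ i.primeFactors, p ^ i.factorization p ≤ S := by
    intro p hp
    have hpp := Nat.prime_of_mem_primeFactors hp
    have : Fact p.Prime := ⟨hpp⟩
    refine le_trans ?_ (hS p default)
    rw [(default : Sylow p Γ).card_eq_multiplicity]
    exact Nat.pow_le_pow_right hpp.pos
      ((Nat.factorization_le_iff_dvd hi0 Nat.card_pos.ne').2 hidvd p)
  have h2 : (∏ p ∈ i.primeFactors, p) ∣ Nat.card (MulAction.orbit Γ x) := by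
    refine Finset.prod_primes_dvd _ (fun p hp => (Nat.prime_of_mem_primeFactors hp).prime) fun p hp => ?_
    refine dvd_orbit hΓ x (Nat.prime_of_mem_primeFactors hp) ?_
    rw [← hi]
    exact Nat.dvd_of_mem_primeFactors hp
  have hx : n ≠ 0 := by
    intro h0
    subst h0
    exact x.elim0
  have h3 : Nat.card (MulAction.orbit Γ x) ≤ n := by
    have h1 : Nat.card (MulAction.orbit Γ x) ≤ Nat.card (Fin n) :=
      Nat.card_le_card_of_injective (fun y => (y : Fin n)) Subtype.val_injective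
    rwa [Nat.card_eq_fintype_card (α := Fin n), Fintype.card_fin] at h1
  have := (MulAction.nonempty_orbit (M := Γ) x).to_subtype
  have hc0 : 0 < Nat.card (MulAction.orbit Γ x) := Nat.card_pos
  have h4 : 2 ^ i.primeFactors.card ≤ n := by
    calc 2 ^ i.primeFactors.card = ∏ _p ∈ i.primeFactors, 2 := (Finset.prod_const 2).symm
      _ ≤ ∏ p ∈ i.primeFactors, p := Finset.prod_le_prod' fun p hp =>
          (Nat.prime_of_mem_primeFactors hp).two_le
      _ ≤ n := (Nat.le_of_dvd hc0 h2).trans h3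
  have h5 : i.primeFactors.card ≤ Nat.log 2 n := (Nat.le_log_iff_pow_le (by norm_num) hx).2 h4
  rw [← hi]
  calc i = ∏ p ∈ i.primeFactors, p ^ i.factorization p := by
        conv_lhs => rw [← Nat.prod_factorization_pow_eq_self hi0]
        rw [Finsupp.prod, Nat.support_factorization]
    _ ≤ ∏ _p ∈ i.primeFactors, S := Finset.prod_le_prod' h1
    _ = S ^ i.primeFactors.card := Finset.prod_const S
    _ ≤ S ^ Nat.log 2 n := Nat.pow_le_pow_right hS1 h5

/-- all nilpotent groups -/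
theorem nil_log {T : Set (Ax Rel)} (hT : T.Finite) (hl : ∀ A ∈ T, A.lits.Finite ∧ A.ex.Finite) :
    ∃ c : ℕ, ∀ (n : ℕ) (Γ : Subgroup (Equiv.Perm (Fin n))) (S : ℕ), 2 ≤ n → Group.IsNilpotent Γ →
      (∀ (p : ℕ) [Fact p.Prime] (H : Sylow p Γ), Nat.card H ≤ S) →
      ∀ R : Refutation T (Fin n), ∃ R' : Refutation T (Fin n), R'.Symm Γ ∧
        R'.size ≤ R.size * (n * S) ^ (c * (Nat.log 2 n + 1)) := by
  obtain ⟨c, hc⟩ := nil_main hT hl
  refine ⟨c, ?_⟩
  intro n Γ S hn hΓ hS R
  obtain ⟨R', h1, h2⟩ := hc n Γ (S ^ Nat.log 2 n) S hn hΓ (fun x => core_log hΓ hS x) hS R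
  refine ⟨R', h1, h2.trans (Nat.mul_le_mul_left _ ?_)⟩
  rw [Nat.mul_comm c, pow_mul]
  refine Nat.pow_le_pow_left ?_ c
  have h3 : 1 ≤ n ^ Nat.log 2 n := Nat.one_le_pow _ _ (by omega)
  calc n * S ^ Nat.log 2 n * S = n * S * (1 * S ^ Nat.log 2 n) := by ring
    _ ≤ n * S * (n ^ Nat.log 2 n * S ^ Nat.log 2 n) :=
        Nat.mul_le_mul_left _ (Nat.mul_le_mul_right _ h3)
    _ = (n * S) ^ (Nat.log 2 n + 1) := by rw [← mul_pow, pow_succ, Nat.mul_comm]

end Pool.Agent.H29.NS
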