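import Pool.Agent.H29.NS.Trf
import Pool.Agent.H42.CS.Sym

/-!
# [H29 NS Sum] the circuit of the gadget and of the given refutation

`sumC Cg cv C`: the nodes of `Cg` (`Sum.inl`) with their gates, the nodes of `C` (`Sum.inr`) with their gates, but a variable `x` becomes the gate of `cv x`.
PROOFS. `rank_top`: `le_csSup` (a finite range is bounded above: `(Set.finite_range _).bddAbove`).
`step_sum`: by cases on the step: `hyp` is the first alternative, all other steps are transported by `Sum.inr`. This is the proof of `step_map` in `H42/CS/Sym.lean` (copy it), `φ = Sum.inr`, with `hg` replaced by: `(sumC Cg cv C).gate (Sum.inr b) = sg Cg cv (C.gate b)` (`rfl`), which is `.and (Lit.map Sum.inr '' S)` if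
`C.gate b = .and S`, `.sym A (Lit.map Sum.inr '' S)` if `C.gate b = .sym A S`; `ident`: equal gates of `b`, `b'` give equal gates of `Sum.inr b`, `Sum.inr b'`. The premises: `hPr := fun Δ hΔ => mem_image_of_mem _ hΔ`.
`inl_gate`: `rfl`. `dq_inl`: `dq_inj` with `φ = Sum.inl`.
-/

set_option autoImplicit false

open Set

namespace Pool.Agent.H29.NS

open Pool.Agent.H42.CS

variable {Rel : ℕ → Type} {P : Type} {T : Set (Ax Rel)}

/-- a number larger than all levels -/
noncomputable def top (C : Circuit Rel P) : ℕ := sSup (range C.rank) + 1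

theorem rank_top (C : Circuit Rel P) (x : C.N) : C.rank x < top C := by
  unfold top
  exact Nat.lt_succ_of_le (le_csSup (finite_range C.rank).bddAbove (mem_range_self x))

/-- the gate of a node of the refutation -/
def sg (Cg : Circuit Rel P) (cv : Atom Rel P → Cg.N) {N : Type} :
    Gate (Atom Rel P) N → Gate (Atom Rel P) (Cg.N ⊕ N)
  | .var x => (Cg.gate (cv x)).map id Sum.inl
  | .and S => .and (Lit.map Sum.inr '' S)
  | .sym A S => .sym A (Lit.map Sum.inr '' S)

private theorem gate_children'' {N N' : Type} (f : P → P) (g : N → N')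
    (x : Gate (Atom Rel P) N) : (x.map f g).children = Lit.map g '' x.children := by
  cases x with
  | var v =>
    change (∅ : Set (Lit N')) = Lit.map g '' ∅
    rw [Set.image_empty]
  | and S => rfl
  | sym A S => rfl

/-- the circuit of the gadget and of the refutation -/
noncomputable def sumC (Cg : Circuit Rel P) (cv : Atom Rel P → Cg.N) (C : Circuit Rel P) : Circuit Rel P where
  N := Cg.N ⊕ C.N
  gate x := match x with
    | .inl y => (Cg.gate y).map id Sum.inl
    | .inr b => sg Cg cv (C.gate b)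
  rank x := match x with
    | .inl y => Cg.rank y
    | .inr b => top Cg + C.rank b
  rank_lt := by
    rintro (y | b) z hz
    · rw [gate_children''] at hz
      obtain ⟨w, hw, rfl⟩ := hz
      exact Cg.rank_lt y w hw
    · have hb := C.rank_lt b
      change z ∈ (sg Cg cv (C.gate b)).children at hz
      cases hg : C.gate b with
      | var x =>
        rw [hg] at hz
        change z ∈ ((Cg.gate (cv x)).map id Sum.inl).children at hz
        rw [gate_children''] at hz
        obtain ⟨w, hw, rfl⟩ := hz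
        have h1 := rank_top Cg w.node
        show Cg.rank w.node < top Cg + C.rank b
        omega
      | and S =>
        rw [hg] at hz hb
        obtain ⟨w, hw, rfl⟩ := hz
        exact Nat.add_lt_add_left (hb w hw) _
      | sym A S =>
        rw [hg] at hz hb
        obtain ⟨w, hw, rfl⟩ := hz
        exact Nat.add_lt_add_left (hb w hw) _

theorem inl_gate (Cg : Circuit Rel P) (cv : Atom Rel P → Cg.N) (C : Circuit Rel P) (y : Cg.N) :
    (sumC Cg cv C).gate (Sum.inl y) = (Cg.gate y).map id Sum.inl := rfl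

theorem inr_gate (Cg : Circuit Rel P) (cv : Atom Rel P → Cg.N) (C : Circuit Rel P) (b : C.N) :
    (sumC Cg cv C).gate (Sum.inr b) = sg Cg cv (C.gate b) := rfl

private theorem map_inj'' {N N' : Type} {φ : N → N'} (hφ : Function.Injective φ) :
    Function.Injective (Lit.map φ) := by
  rintro ⟨a, s⟩ ⟨b, t⟩ h
  have h1 : φ a = φ b := congrArg Lit.node h
  have h2 : s = t := congrArg Lit.pos h
  rw [hφ h1, h2]

private theorem step_gen {C C' : Circuit Rel P} (φ : C.N → C'.N) (hφ : Function.Injective φ)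
    (hgg : ∀ a b, C.gate a = C.gate b → C'.gate (φ a) = C'.gate (φ b))
    (hga : ∀ a S, C.gate a = .and S → C'.gate (φ a) = .and (Lit.map φ '' S))
    (hgs : ∀ a A S, C.gate a = .sym A S → C'.gate (φ a) = .sym A (Lit.map φ '' S))
    {Pr : Set (Set (Lit C.N))} {Pr' : Set (Set (Lit C'.N))}
    (hPr : ∀ Δ ∈ Pr, Lit.map φ '' Δ ∈ Pr') {Λ : Set (Lit C.N)} (h : Step T C Pr Λ) :
    (∃ A ∈ T, ∃ v : Fin A.k → P, ∀ x ∈ A.inst v, ∃ a, C.gate a = .var x.1 ∧ ⟨a, x.2⟩ ∈ Λ) ∨
      Step T C' Pr' (Lit.map φ '' Λ) := by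
  have hi := map_inj'' hφ
  have hm : ∀ {a : C.N} {s : Bool}, (⟨a, s⟩ : Lit C.N) ∈ Λ →
      (⟨φ a, s⟩ : Lit C'.N) ∈ Lit.map φ '' Λ := fun {a s} ha => ⟨⟨a, s⟩, ha, rfl⟩
  cases h with
  | @hyp A v hA hx => exact Or.inl ⟨A, hA, v, hx⟩
  | @ident a b hab ha hb =>
    exact Or.inr (Step.ident (a := φ a) (b := φ b) (hgg a b hab) (hm ha) (hm hb))
  | @weak Δ hΔ hsub => exact Or.inr (Step.weak (hPr Δ hΔ) (Set.image_mono hsub))
  | @cut a h1 h2 =>
    have h3 := hPr _ h1
    have h4 := hPr _ h2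
    rw [Set.image_insert_eq] at h3 h4
    exact Or.inr (Step.cut h3 h4)
  | @andI S a ha ha' hS =>
    refine Or.inr (Step.andI (a := φ a) (S := Lit.map φ '' S) (hga a S ha) (hm ha') ?_)
    rintro _ ⟨x, hx, rfl⟩
    have h1 := hPr _ (hS x hx)
    rwa [Set.image_insert_eq] at h1
  | @andE S a ha ha' hS =>
    refine Or.inr (Step.andE (a := φ a) (S := Lit.map φ '' S) (hga a S ha) (hm ha') ?_)
    have h1 := hPr _ hS
    rw [Set.image_union] at h1
    have h2 : Lit.neg '' (Lit.map φ '' S) = Lit.map φ '' (Lit.neg '' S) := by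
      rw [Set.image_image, Set.image_image]
      rfl
    rw [h2]
    exact h1
  | @cover S hS =>
    refine Or.inr (Step.cover (S := Lit.map φ '' S) ?_)
    intro c hc
    rw [Set.ncard_image_of_injective _ hi] at hc
    obtain ⟨a, A, b, h1, h2, h3⟩ := hS c hc
    exact ⟨φ a, A, b, hgs a A S h1, h2, hm h3⟩
  | @unit a A x h1 h2 h3 =>
    refine Or.inr (Step.unit (a := φ a) (A := A) (x := Lit.map φ x) ?_ (hm h2) ?_)
    · rw [hgs a A _ h1, Set.image_singleton]
    · rcases h3 with ⟨h4, h5⟩ | ⟨h4, h5⟩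
      · exact Or.inl ⟨h4, ⟨x.neg, h5, rfl⟩⟩
      · exact Or.inr ⟨h4, ⟨x, h5, rfl⟩⟩
  | @sum a p B A A' S h1 h2 h3 h4 h5 h6 h7 =>
    have hne : Nonempty C.N := ⟨a⟩
    obtain ⟨ψ, hψ⟩ := hφ.hasLeftInverse
    refine Or.inr (Step.sum (a := φ a) (p := φ p) (B := φ '' B) (A := fun b => A (ψ b)) (A' := A')
      (S := fun b => Lit.map φ '' S (ψ b)) ?_ ?_ ?_ ?_ ?_ (hm h6) (hm h7))
    · rintro _ ⟨b, hb, rfl⟩
      rw [hgs b _ _ (h1 b hb), hψ b]
    · rintro _ ⟨b, hb, rfl⟩ _ ⟨b', hb', rfl⟩ hne'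
      have h8 : b ≠ b' := fun h9 => hne' (by rw [h9])
      have h9 := h2 hb hb' h8
      change Disjoint (Lit.map φ '' S (ψ (φ b))) (Lit.map φ '' S (ψ (φ b')))
      rw [hψ b, hψ b']
      exact (Set.disjoint_image_iff hi).2 h9
    · rw [hga p _ h3, Set.image_image, Set.image_image]
      rfl
    · rw [hgs a _ _ h4, Set.image_iUnion₂, Set.biUnion_image]
      congr 1
      refine Set.iUnion₂_congr fun b _ => ?_
      rw [hψ b]
    · intro c hc
      rw [finsum_mem_image hφ.injOn]
      refine h5 (fun b => c (φ b)) fun b hb => ?_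
      have h8 := hc (φ b) ⟨b, hb, rfl⟩
      rwa [hψ b] at h8
  | @dist a F J B u A A' h1 h2 h3 h4 h5 h6 h7 h8 =>
    have hpre : ∀ X : Set (Lit C.N), Lit.map φ ⁻¹' (Lit.map φ '' X) = X := fun X =>
      Set.preimage_image_eq X hi
    have hIinj : Function.Injective fun X : Set (Lit C.N) => Lit.map φ '' X := hi.image_injective
    refine Or.inr (Step.dist (a := φ a) (F := (fun X => Lit.map φ '' X) '' F) (J := J)
      (B := fun j X => φ (B j (Lit.map φ ⁻¹' X))) (u := fun j => φ (u j)) (A := A) (A' := A')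
      ?_ ?_ ?_ ?_ ?_ ?_ (fun j hj => hm (h7 j hj)) (hm h8))
    · rintro _ ⟨X, hX, rfl⟩ _ ⟨Y, hY, rfl⟩ hne'
      have h9 : X ≠ Y := fun h10 => hne' (by rw [h10])
      exact (Set.disjoint_image_iff hi).2 (h1 hX hY h9)
    · rintro _ ⟨X, hX, rfl⟩
      change (Lit.map φ '' X).ncard ≤ J
      rw [Set.ncard_image_of_injective _ hi]
      exact h2 X hX
    · rintro j hj _ ⟨X, hX, rfl⟩
      change C'.gate (φ (B j (Lit.map φ ⁻¹' (Lit.map φ '' X)))) = Gate.sym {j} (Lit.map φ '' X)
      rw [hpre]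
      exact hgs _ _ _ (h3 j hj X hX)
    · intro j hj
      rw [hgs _ _ _ (h4 j hj), Set.image_image, Set.image_image]
      congr 1
      refine Set.image_congr fun X _ => ?_
      rw [hpre]
      rfl
    · rw [hgs a _ _ h5, Set.image_sUnion]
    · intro t ht hsum
      rw [Set.ncard_image_of_injective _ hIinj] at hsum
      exact h6 t ht hsum

theorem step_sum {Cg : Circuit Rel P} {cv : Atom Rel P → Cg.N} {C : Circuit Rel P}
    {Pr : Set (Set (Lit C.N))} {Λ : Set (Lit C.N)} (h : Step T C Pr Λ) :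
    (∃ A ∈ T, ∃ v : Fin A.k → P, ∀ x ∈ A.inst v, ∃ a, C.gate a = .var x.1 ∧ ⟨a, x.2⟩ ∈ Λ) ∨
      Step T (sumC Cg cv C) ((fun Δ => Lit.map Sum.inr '' Δ) '' Pr) (Lit.map Sum.inr '' Λ) := by
  refine step_gen (C' := sumC Cg cv C) (Sum.inr : C.N → Cg.N ⊕ C.N) Sum.inr_injective ?_ ?_ ?_
    (fun Δ hΔ => mem_image_of_mem _ hΔ) h
  · intro a b hab
    show sg Cg cv (C.gate a) = sg Cg cv (C.gate b)
    rw [hab]
  · intro a S ha
    show sg Cg cv (C.gate a) = _
    rw [ha]
    rfl
  · intro a A S ha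
    show sg Cg cv (C.gate a) = _
    rw [ha]
    rfl

theorem dq_inl {Cg : Circuit Rel P} {cv : Atom Rel P → Cg.N} {C : Circuit Rel P}
    {Q : Set (Set (Lit Cg.N))} {Λ : Set (Lit Cg.N)} (h : Dq T Cg Q Λ) :
    Dq T (sumC Cg cv C) ((fun Δ => Lit.map Sum.inl '' Δ) '' Q) (Lit.map Sum.inl '' Λ) := by
  exact dq_inj (C := Cg) (C' := sumC Cg cv C) (φ := Sum.inl) Sum.inl_injective
    (fun y => inl_gate Cg cv C y) h

end Pool.Agent.H29.NS
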