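import Pool.Agent.H29.NS.Nar

/-!
# [H29 NS Tau] propositional consequences

`taut`: if the lists in `F` are refuted and every assignment `σ` of truth values to the nodes for which no list of `F` is completely true makes
`l` not completely true, then `l` is refuted (total length at most `16`).
PROOF. Let `us` be the list of the nodes of all members of the lists in `F` (`(F.flatten).map Lit.node`). CLAIM: for every list `vs` with `vs.length + l.length +
us.length' ≤ 16` ...: by induction on a list `ws` of nodes (the part of `us` which is not yet decided): for all lists `c` of signed nodes (the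
decided part) with `l.length + c.length + ws.length ≤ 16` such that every node of a member of a list in `F` is in `ws` or is the node of a member of `c`: if `c` is
consistent (no `x ∈ c` with `x.neg ∈ c`; otherwise `Rf.triv`), `Rf T C (c ++ l)`.
`ws = w :: ws'`: `Rf.cut (pl w)`, both cases by the induction hypothesis for `pl w :: c`, `mi w :: c` (the order of the lists does not matter: `Rf.mono`).
`ws = []`: let `σ n = true` iff `pl n ∈ c ++ l`. Suppose first that some list `f ∈ F` has all members true under `σ`: every node of `f` is the node of a member of `c`, so all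
members of `f` are in `c ++ l` (if `x ∈ f` has the node of `y ∈ c`: `y = x`, or `y = x.neg` and then (`σ x.node = x.pos`) the list `c ++ l` contains `x.neg` and, if `x` is positive, `x`:
`Rf.triv`): `Rf.mono` from `f` (`f.length ≤ 16`: the length of a member of `F` is at most the sum). Otherwise `h` gives `x ∈ l` with `σ x.node ≠ x.pos`: if `x = pl n`, then `pl n ∈ c ++ l`
and `σ n = true`, a contradiction; if `x = mi n`: `σ n = true`, so `pl n, mi n ∈ c ++ l`: `Rf.triv`.
-/

set_option autoImplicit false

open Set

namespace Pool.Agent.H29.NS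

open Pool.Agent.H42.CS

variable {Rel : ℕ → Type} {P : Type} {T : Set (Ax Rel)} {C : Circuit Rel P} {l : List (Lit C.N)}

private theorem tau_end (F : List (List (Lit C.N))) (hF : ∀ f ∈ F, Rf T C f) (l : List (Lit C.N))
    (h : ∀ σ : C.N → Bool, (∀ f ∈ F, ∃ x ∈ f, σ x.node ≠ x.pos) → ∃ x ∈ l, σ x.node ≠ x.pos)
    (c : List (Lit C.N)) (hlen : (c ++ l).length ≤ 16)
    (hn : ∀ f ∈ F, ∀ x ∈ f, ∃ y ∈ c, x.node = y.node) : Rf T C (c ++ l) := by
  classical
  by_cases hc : ∃ x ∈ c ++ l, x.neg ∈ c ++ l
  · obtain ⟨x, h1, h2⟩ := hc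
    exact Rf.triv x h1 h2 hlen
  · obtain ⟨σ, hσ⟩ : ∃ σ : C.N → Bool, ∀ n, σ n = true ↔ pl n ∈ c ++ l :=
      ⟨fun n => decide (pl n ∈ c ++ l), fun n => by simp only [decide_eq_true_eq]⟩
    by_cases hf : ∃ f ∈ F, ∀ x ∈ f, σ x.node = x.pos
    · obtain ⟨f, hfF, hfx⟩ := hf
      refine Rf.mono (hF f hfF) (fun x hx => ?_) hlen
      obtain ⟨y, hy, hxy⟩ := hn f hfF x hx
      have h1 := hfx x hx
      rcases x with ⟨n, s⟩
      rcases y with ⟨n', s'⟩
      simp only at hxy h1
      subst hxy
      have hy' : (⟨n, s'⟩ : Lit C.N) ∈ c ++ l := List.mem_append_left _ hy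
      cases s with
      | true => exact (hσ n).1 h1
      | false =>
        cases s' with
        | false => exact hy'
        | true =>
          rw [(hσ n).2 hy'] at h1
          exact absurd h1 (by decide)
    · obtain ⟨x, hx, hx'⟩ := h σ (by
        intro f hfF
        by_contra hcon
        push Not at hcon
        exact hf ⟨f, hfF, hcon⟩)
      exfalso
      have hxm : x ∈ c ++ l := List.mem_append_right _ hx
      rcases x with ⟨n, s⟩
      simp only at hx'
      cases s with
      | true => exact hx' ((hσ n).2 hxm)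
      | false =>
        have h1 : σ n = true := by
          cases hh : σ n with
          | true => rfl
          | false => exact absurd hh hx'
        exact hc ⟨pl n, (hσ n).1 h1, hxm⟩

private theorem tau_ind (F : List (List (Lit C.N))) (hF : ∀ f ∈ F, Rf T C f) (l : List (Lit C.N))
    (h : ∀ σ : C.N → Bool, (∀ f ∈ F, ∃ x ∈ f, σ x.node ≠ x.pos) → ∃ x ∈ l, σ x.node ≠ x.pos)
    (ws : List C.N) : ∀ c : List (Lit C.N), (c ++ l).length + ws.length ≤ 16 →
    (∀ f ∈ F, ∀ x ∈ f, x.node ∈ ws ∨ ∃ y ∈ c, x.node = y.node) → Rf T C (c ++ l) := by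
  induction ws with
  | nil =>
    intro c hlen hn
    refine tau_end F hF l h c (by simpa using hlen) fun f hf x hx => ?_
    rcases hn f hf x hx with h1 | h1
    · exact absurd h1 List.not_mem_nil
    · exact h1
  | cons w ws ih =>
    intro c hlen hn
    rw [List.length_cons] at hlen
    have key : ∀ y : Lit C.N, y.node = w → Rf T C (y :: (c ++ l)) := by
      intro y hy
      have h1 := ih (y :: c) (by rw [List.cons_append, List.length_cons]; omega) (by
        intro f hf x hx
        rcases hn f hf x hx with h2 | ⟨z, hz, hxz⟩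
        · rcases List.mem_cons.1 h2 with h3 | h3
          · exact Or.inr ⟨y, List.mem_cons_self, h3.trans hy.symm⟩
          · exact Or.inl h3
        · exact Or.inr ⟨z, List.mem_cons_of_mem _ hz, hxz⟩)
      rwa [List.cons_append] at h1
    exact Rf.cut (pl w) (key (pl w) rfl) (key (pl w).neg rfl) (by omega)

theorem Rf.taut (F : List (List (Lit C.N))) (hF : ∀ f ∈ F, Rf T C f) (l : List (Lit C.N))
    (hw : l.length + (F.map List.length).sum ≤ 16)
    (h : ∀ σ : C.N → Bool, (∀ f ∈ F, ∃ x ∈ f, σ x.node ≠ x.pos) → ∃ x ∈ l, σ x.node ≠ x.pos) :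
    Rf T C l := by
  have h1 := tau_ind F hF l h (F.flatten.map Lit.node) [] (by
    rw [List.nil_append, List.length_map, List.length_flatten]
    exact hw) (by
    intro f hf x hx
    exact Or.inl (List.mem_map.2 ⟨x, List.mem_flatten.2 ⟨f, hf, hx⟩, rfl⟩))
  rwa [List.nil_append] at h1

/-- from two facts -/
theorem Rf.taut2 {f g : List (Lit C.N)} (hf : Rf T C f) (hg : Rf T C g) (l : List (Lit C.N))
    (hw : l.length + (f.length + g.length) ≤ 16)
    (h : ∀ σ : C.N → Bool, (∃ x ∈ f, σ x.node ≠ x.pos) → (∃ x ∈ g, σ x.node ≠ x.pos) →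
      ∃ x ∈ l, σ x.node ≠ x.pos) : Rf T C l := by
  refine Rf.taut [f, g] ?_ l (by simpa using hw) fun σ hσ => h σ (hσ f (by simp)) (hσ g (by simp))
  intro e he
  simp only [List.mem_cons, List.not_mem_nil, or_false] at he
  rcases he with rfl | rfl
  · exact hf
  · exact hg

/-- from three facts -/
theorem Rf.taut3 {f g e : List (Lit C.N)} (hf : Rf T C f) (hg : Rf T C g) (he : Rf T C e)
    (l : List (Lit C.N)) (hw : l.length + (f.length + (g.length + e.length)) ≤ 16)
    (h : ∀ σ : C.N → Bool, (∃ x ∈ f, σ x.node ≠ x.pos) → (∃ x ∈ g, σ x.node ≠ x.pos) →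
      (∃ x ∈ e, σ x.node ≠ x.pos) → ∃ x ∈ l, σ x.node ≠ x.pos) : Rf T C l := by
  refine Rf.taut [f, g, e] ?_ l (by simpa using hw) fun σ hσ =>
    h σ (hσ f (by simp)) (hσ g (by simp)) (hσ e (by simp))
  intro e' he'
  simp only [List.mem_cons, List.not_mem_nil, or_false] at he'
  rcases he' with rfl | rfl | rfl
  · exact hf
  · exact hg
  · exact he

/-- an implication from `x`, if `x` follows from `l` -/
theorem Rf.chain {l : List (Lit C.N)} (x : Lit C.N) (h : Rf T C (x.neg :: l)) (h' : Rf T C (x :: l))
    (hw : l.length ≤ 16) : Rf T C l :=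
  Rf.cut x h' h hw

end Pool.Agent.H29.NS
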