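import Pool.Agent.H29.NS.Defs
import Pool.Agent.H42.CS.Sym

/-!
# [H29 NS Trf] transfer of a derivation to a larger circuit

`φ : C.N → C'.N` is injective and the gate of `φ a` is the gate of `a`, renamed (the points are not moved). PROOF. `step_inj`: by cases on `Step`: `hyp`, `ident`, `weak`, `cut`, `andI`, `andE` are immediate (`Lit.map φ` commutes with `Lit.neg`, images of unions, `insert`); `cover`: `(Lit.map φ '' S).ncard = S.ncard` (injective);
`unit`: `Lit.map φ '' {x} = {Lit.map φ x}`; `sum`, `dist`: the sets `B`, `F` are mapped (`φ '' B`, `image (Lit.map φ) '' F`), the functions `A`, `S`, `B`, `u` are defined on the images by an inverse of `φ` (`Function.invFun`), disjointness and the numbers are preserved since `φ` is injective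
(model: `step_map` in `H42/CS/Sym.lean`, where `φ` is a bijection; you may import it and copy its proof). `dq_inj`: induction on `Dq`.
-/

set_option autoImplicit false

open Set

namespace Pool.Agent.H29.NS

open Pool.Agent.H42.CS

variable {Rel : ℕ → Type} {P : Type} {T : Set (Ax Rel)} {C C' : Circuit Rel P}

theorem step_inj {φ : C.N → C'.N} (hφ : Function.Injective φ)
    (hg : ∀ a, C'.gate (φ a) = (C.gate a).map id φ) {Pr : Set (Set (Lit C.N))} {Λ : Set (Lit C.N)}
    (h : Step T C Pr Λ) : Step T C' ((fun Δ => Lit.map φ '' Δ) '' Pr) (Lit.map φ '' Λ) :=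
  step_map (1 : Equiv.Perm P) φ hφ hg (fun Δ hΔ => mem_image_of_mem _ hΔ) h

theorem dq_inj {φ : C.N → C'.N} (hφ : Function.Injective φ)
    (hg : ∀ a, C'.gate (φ a) = (C.gate a).map id φ) {Q : Set (Set (Lit C.N))} {Λ : Set (Lit C.N)}
    (h : Dq T C Q Λ) : Dq T C' ((fun Δ => Lit.map φ '' Δ) '' Q) (Lit.map φ '' Λ) := by
  induction h with
  | mk Λ Pr hΛ h hs ih =>
    refine Dq.mk _ ((fun Δ => Lit.map φ '' Δ) '' Pr) ⟨Λ, hΛ, rfl⟩ ?_ (step_inj hφ hg hs)
    rintro _ ⟨Δ, hΔ, rfl⟩
    exact ih Δ hΔ

end Pool.Agent.H29.NS
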